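import Pool.Agent.H7.BK.Bil3
import Pool.Graph.R_seed8.Y776.GJ.MajL
import Pool.Graph.R_seed8.Y689.GJ.MajH
import Pool.Graph.R_seed8.R460.GS.Stm

set_option autoImplicit false

/-! The von Mangoldt function and the sieve model on the major arcs, moduli up to `N ^ (2 / 3 - ρ)`. -/

namespace Pool.Agent.H7.BK

open Finset
open Pool.Agent.H807R2.Dav (ee)
open Pool.Agent.Y883.GJ
open Pool.Agent.H373R2.T7 (Vz)
open Pool.Agent.Y883.T3 (lsh)
open Pool.Agent.R460.GS (TiMaj2Stm)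
open Pool.Agent.Y776.GJ (bt_zero bt_abs lv_abs bil_split ev_norm norm_ev_sum fin_num a1 b1 a2 b2)
open Pool.Agent.Y689.GJ (norm_sq_ev)

/-- MAJL3: the von Mangoldt function on the major arcs -/
def MajL3Stm : Prop := ∀ (A C : ℕ) (ρ : ℝ), 0 < ρ → ∃ C₃ N₀ : ℕ, ∀ N : ℕ, N₀ ≤ N →
  ∀ (q : ℕ) [NeZero q], (q : ℝ) ≤ (N : ℝ) ^ (2 / 3 - ρ) →
  ∃ B : Finset (DirichletCharacter ℂ q), 1 ∈ B ∧ (B.card : ℝ) ≤ Real.log N ^ C₃ ∧
    ∀ η : ℝ, |η| ≤ Real.log N ^ C / N → ∀ S : Finset (DirichletCharacter ℂ q), Disjoint S B →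
      ∑ χ ∈ S, ‖cs q N LA η χ‖ ^ 2 ≤ (N : ℝ) ^ 2 / Real.log N ^ A

/-- MAJH3: the sieve model on the major arcs -/
def MajH3Stm : Prop := ∀ (A C : ℕ) (ρ : ℝ), 0 < ρ → ∃ N₀ : ℕ, ∀ N : ℕ, N₀ ≤ N →
  ∀ (q : ℕ) [NeZero q], (q : ℝ) ≤ (N : ℝ) ^ (2 / 3 - ρ) → ∀ z r : ℕ,
  ((((z + 1) ^ r) ^ 100 : ℕ) : ℝ) ≤ N → (Vz z)⁻¹ ≤ Real.log N →
  ∀ η : ℝ, |η| ≤ Real.log N ^ C / N → ∀ S : Finset (DirichletCharacter ℂ q), 1 ∉ S →
    ∑ χ ∈ S, ‖cs q N (LS z r) η χ‖ ^ 2 ≤ (N : ℝ) ^ 2 / Real.log N ^ A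

theorem vau_num3 {x L u qq s P : ℝ} (A C : ℕ) (hx : 1 ≤ x) (hL : 9 ≤ L) (hP : P = L ^ C)
    (hu1 : 1 ≤ u) (hu : u ≤ x ^ (2 / 15 : ℝ)) (hq1 : 1 ≤ qq) (hq : qq ≤ x ^ (2 / 3 : ℝ))
    (hs1 : 1 ≤ s) (hs : s ≤ qq) (hlog : 97 * L ^ (C + 1 + (A + 1)) ≤ x ^ (1 / 15 : ℝ)) :
    u * (L * s) + 3 * (1 + L) * ((u * u) * (2 * qq * (8 * P))) ≤ x / L ^ (A + 1) := by
  have hx0 : 0 < x := by linarith
  have hL0 : 0 < L := by linarith
  have hP1 : 1 ≤ P := by rw [hP]; exact one_le_pow₀ (by linarith)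
  have h1 : u * u ≤ x ^ (4 / 15 : ℝ) := by
    have h : x ^ (4 / 15 : ℝ) = x ^ (2 / 15 : ℝ) * x ^ (2 / 15 : ℝ) := by
      rw [← Real.rpow_add hx0]; norm_num
    rw [h]
    exact mul_le_mul hu hu (by linarith) (by positivity)
  have h2 : u * u * qq ≤ x ^ (14 / 15 : ℝ) := by
    have h : x ^ (14 / 15 : ℝ) = x ^ (4 / 15 : ℝ) * x ^ (2 / 3 : ℝ) := by
      rw [← Real.rpow_add hx0]; norm_num
    rw [h]
    exact mul_le_mul h1 hq (by linarith) (by positivity)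
  have h3 : u * (L * s) ≤ L * P * (u * u * qq) := by
    have e1 : u * s ≤ (u * u) * qq := by
      have e2 : u ≤ u * u := by nlinarith
      exact mul_le_mul e2 hs (by linarith) (by positivity)
    have e4 : u * u * qq ≤ P * (u * u * qq) := by
      have : 0 ≤ u * u * qq := by positivity
      nlinarith
    calc u * (L * s) = L * (u * s) := by ring
      _ ≤ L * (P * (u * u * qq)) := mul_le_mul_of_nonneg_left (e1.trans e4) hL0.le
      _ = _ := by ring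
  have h4 : 3 * (1 + L) * ((u * u) * (2 * qq * (8 * P))) ≤ 96 * (L * P * (u * u * qq)) := by
    have : 0 ≤ P * (u * u * qq) := by positivity
    calc 3 * (1 + L) * ((u * u) * (2 * qq * (8 * P))) =
        48 * (1 + L) * (P * (u * u * qq)) := by ring
      _ ≤ 48 * (2 * L) * (P * (u * u * qq)) := by
          apply mul_le_mul_of_nonneg_right _ this
          linarith
      _ = _ := by ring
  have h5 : L * P * (u * u * qq) ≤ L ^ (C + 1) * x ^ (14 / 15 : ℝ) := by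
    have e1 : L * P = L ^ (C + 1) := by rw [hP]; ring
    rw [e1]
    exact mul_le_mul_of_nonneg_left h2 (by positivity)
  have h6 : 97 * (L ^ (C + 1) * x ^ (14 / 15 : ℝ)) ≤ x / L ^ (A + 1) := by
    rw [le_div_iff₀ (by positivity)]
    have e1 : x = x ^ (1 / 15 : ℝ) * x ^ (14 / 15 : ℝ) := by
      rw [← Real.rpow_add hx0]; norm_num
    calc 97 * (L ^ (C + 1) * x ^ (14 / 15 : ℝ)) * L ^ (A + 1) =
        97 * L ^ (C + 1 + (A + 1)) * x ^ (14 / 15 : ℝ) := by rw [pow_add L (C + 1)]; ring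
      _ ≤ x ^ (1 / 15 : ℝ) * x ^ (14 / 15 : ℝ) :=
          mul_le_mul_of_nonneg_right hlog (by positivity)
      _ = x := e1.symm
  linarith

theorem vau_part3 (h1 : VauStm) (h2 : TiMaj2Stm) (A C N q : ℕ) [NeZero q] (hN : 1 ≤ N)
    (hq : (q : ℝ) ≤ (N : ℝ) ^ (2 / 3 : ℝ)) (hL : 9 ≤ Real.log N)
    (hlog : 97 * Real.log N ^ (C + 1 + (A + 1)) ≤ (N : ℝ) ^ (1 / 15 : ℝ))
    (S : Finset (DirichletCharacter ℂ q)) (hS : (1 : DirichletCharacter ℂ q) ∉ S) (η : ℝ)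
    (hη : |η| ≤ Real.log N ^ C / N) :
    ‖∑ n ∈ Icc 1 N, (ArithmeticFunction.vonMangoldt n) • ev S η n -
      ∑ b ∈ Icc 1 N, ∑ c ∈ Icc 1 (N / b), (bt ⌊(N : ℝ) ^ (2 / 15 : ℝ)⌋₊ b *
        lv ⌊(N : ℝ) ^ (2 / 15 : ℝ)⌋₊ c) • ev S η (b * c)‖ ≤ N / Real.log N ^ (A + 1) := by
  have hx : (1 : ℝ) ≤ N := by exact_mod_cast hN
  have hx0 : (0 : ℝ) < N := by linarith
  set U := ⌊(N : ℝ) ^ (2 / 15 : ℝ)⌋₊ with hU
  have hUle : (U : ℝ) ≤ (N : ℝ) ^ (2 / 15 : ℝ) := Nat.floor_le (by positivity)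
  have hU1 : 1 ≤ U := by
    rw [hU]
    apply Nat.le_floor
    simpa using Real.one_le_rpow hx (by norm_num : (0 : ℝ) ≤ 2 / 15)
  have hUU : U * U ≤ N := by
    have e1 : ((U * U : ℕ) : ℝ) ≤ N := by
      push_cast
      calc (U : ℝ) * U ≤ (N : ℝ) ^ (2 / 15 : ℝ) * (N : ℝ) ^ (2 / 15 : ℝ) :=
            mul_le_mul hUle hUle (by positivity) (by positivity)
        _ = (N : ℝ) ^ (4 / 15 : ℝ) := by rw [← Real.rpow_add hx0]; norm_num
        _ ≤ (N : ℝ) ^ (1 : ℝ) := Real.rpow_le_rpow_of_exponent_le hx (by norm_num)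
        _ = N := Real.rpow_one _
    exact_mod_cast e1
  have hUN : U ≤ N := le_trans (Nat.le_mul_of_pos_right U hU1) hUU
  have hq1 : (1 : ℝ) ≤ q := by
    have := NeZero.one_le (n := q)
    exact_mod_cast this
  have hs1 : 1 ≤ Real.sqrt q := by rw [Real.one_le_sqrt]; exact hq1
  have hs : Real.sqrt q ≤ q := by
    rw [Real.sqrt_le_left (by linarith)]
    nlinarith
  have hηN : |η| * N ≤ Real.log N ^ C := by
    rwa [le_div_iff₀ hx0] at hη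
  have hP1 : 1 ≤ Real.log N ^ C := one_le_pow₀ (by linarith)
  have hV := h1 (EuclideanSpace ℂ (DirichletCharacter ℂ q)) (ev S η) N U
    (fun _ => 2 * q * (8 * Real.log N ^ C)) hU1 hUU ?_
  · refine hV.trans ?_
    rw [Finset.sum_const, Nat.card_Icc, nsmul_eq_mul]
    have e1 : ∑ n ∈ Icc 1 U, ArithmeticFunction.vonMangoldt n * ‖ev S η n‖ ≤
        U * (Real.log N * Real.sqrt q) := by
      calc _ ≤ ∑ _n ∈ Icc 1 U, Real.log N * Real.sqrt q := by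
            refine Finset.sum_le_sum fun n hn => ?_
            rw [mem_Icc] at hn
            have hn1 : (1 : ℝ) ≤ n := by exact_mod_cast hn.1
            have hnN : (n : ℝ) ≤ N := by exact_mod_cast hn.2.trans hUN
            have := Real.log_le_log (by linarith) hnN
            exact mul_le_mul (ArithmeticFunction.vonMangoldt_le_log.trans this) (ev_norm S η n)
              (norm_nonneg _) (by linarith)
        _ = _ := by rw [Finset.sum_const, Nat.card_Icc, nsmul_eq_mul]; simp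
    have e2 := vau_num3 A C hx hL rfl (by exact_mod_cast hU1) hUle hq1 hq hs1 hs hlog
    have e3 : ((U * U + 1 - 1 : ℕ) : ℝ) = (U : ℝ) * U := by
      rw [Nat.add_sub_cancel]; push_cast; ring
    rw [e3]
    linarith
  · intro c hc y hy
    rw [mem_Icc] at hc
    refine (h2 q S hS η c y).trans ?_
    apply mul_le_mul_of_nonneg_left _ (by positivity)
    have e1 : (c : ℝ) * y ≤ N := by
      have : y * c ≤ N := (Nat.le_div_iff_mul_le hc.1).1 hy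
      rw [mul_comm] at this
      exact_mod_cast this
    have e2 : |η| * (c * y) ≤ |η| * N := mul_le_mul_of_nonneg_left e1 (abs_nonneg _)
    nlinarith

theorem bil_part3 {A C C₃ N₀ : ℕ} {ρ : ℝ}
    (h : ∀ N : ℕ, N₀ ≤ N → ∀ (q : ℕ) [NeZero q], (q : ℝ) ≤ (N : ℝ) ^ (2 / 3 - ρ) → ∀ a b : ℕ → ℂ,
      (∀ m ∈ Icc 1 N, ‖a m‖ ≤ Real.log N * (m.divisors.card : ℝ)) →
      (∀ m ∈ Icc 1 N, ‖b m‖ ≤ Real.log N * (m.divisors.card : ℝ)) →
      (∀ m, a m ≠ 0 → (N : ℝ) ^ (2 / 15 : ℝ) ≤ 2 * m ∧ m * m ≤ N) →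
      ∃ B : Finset (DirichletCharacter ℂ q), (B.card : ℝ) ≤ Real.log N ^ C₃ ∧
        ∀ η : ℝ, |η| ≤ Real.log N ^ C / N → ∀ S : Finset (DirichletCharacter ℂ q), Disjoint S B →
        ‖∑ m ∈ Icc 1 N, ∑ k ∈ Icc 1 (N / m), (a m * b k) • ev S η (m * k)‖ ^ 2 ≤
          (N : ℝ) ^ 2 / Real.log N ^ A)
    (N q : ℕ) [NeZero q] (hN0 : N₀ ≤ N) (hq : (q : ℝ) ≤ (N : ℝ) ^ (2 / 3 - ρ))
    (hL : 9 ≤ Real.log N) :
    ∃ B1 B2 : Finset (DirichletCharacter ℂ q), (B1.card : ℝ) ≤ Real.log N ^ C₃ ∧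
      (B2.card : ℝ) ≤ Real.log N ^ C₃ ∧
      ∀ η : ℝ, |η| ≤ Real.log N ^ C / N → ∀ S : Finset (DirichletCharacter ℂ q), Disjoint S B1 →
        Disjoint S B2 →
        ∃ X Y : EuclideanSpace ℂ (DirichletCharacter ℂ q),
        ∑ b ∈ Icc 1 N, ∑ c ∈ Icc 1 (N / b), (bt ⌊(N : ℝ) ^ (2 / 15 : ℝ)⌋₊ b *
          lv ⌊(N : ℝ) ^ (2 / 15 : ℝ)⌋₊ c) • ev S η (b * c) = X + Y ∧
        ‖X‖ ^ 2 ≤ (N : ℝ) ^ 2 / Real.log N ^ A ∧ ‖Y‖ ^ 2 ≤ (N : ℝ) ^ 2 / Real.log N ^ A := by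
  set U := ⌊(N : ℝ) ^ (2 / 15 : ℝ)⌋₊ with hU
  have hUlt : ∀ m : ℕ, U < m → (N : ℝ) ^ (2 / 15 : ℝ) ≤ 2 * m := by
    intro m hm
    have e1 := Nat.lt_floor_add_one ((N : ℝ) ^ (2 / 15 : ℝ))
    have e2 : (U : ℝ) + 1 ≤ m := by exact_mod_cast hm
    rw [← hU] at e1
    have e3 : (0 : ℝ) ≤ m := Nat.cast_nonneg m
    linarith
  have hbt : ∀ m ∈ Icc 1 N, ‖((bt U m : ℝ) : ℂ)‖ ≤ Real.log N * (m.divisors.card : ℝ) := by
    intro m _
    rw [Complex.norm_real, Real.norm_eq_abs]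
    have e1 := bt_abs U m
    have e2 : (0 : ℝ) ≤ (m.divisors.card : ℝ) := Nat.cast_nonneg _
    nlinarith
  have hlv : ∀ m ∈ Icc 1 N, ‖((lv U m : ℝ) : ℂ)‖ ≤ Real.log N * (m.divisors.card : ℝ) := by
    intro m hm
    rw [mem_Icc] at hm
    rw [Complex.norm_real, Real.norm_eq_abs]
    have e1 := lv_abs (U := U) hm.1 hm.2
    have e2 : (1 : ℝ) ≤ (m.divisors.card : ℝ) := by
      have : 0 < m.divisors.card := Finset.card_pos.2 ⟨1, Nat.one_mem_divisors.2 (by omega)⟩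
      exact_mod_cast this
    nlinarith
  have hz : ∀ m : ℕ, ‖(0 : ℂ)‖ ≤ Real.log N * (m.divisors.card : ℝ) := by
    intro m
    rw [norm_zero]
    have e2 : (0 : ℝ) ≤ (m.divisors.card : ℝ) := Nat.cast_nonneg _
    have e3 : 0 ≤ Real.log N := by linarith
    positivity
  obtain ⟨B1, hB1, hb1⟩ := h N hN0 q hq (a1 U N) (b1 U)
    (fun m hm => by unfold a1; split_ifs; exacts [hbt m hm, hz m])
    (fun m hm => by unfold b1; exact hlv m hm)
    (fun m hm => by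
      unfold a1 at hm
      by_cases h4 : m * m ≤ N
      · rw [if_pos h4] at hm
        refine ⟨hUlt m ?_, h4⟩
        by_contra h5
        push Not at h5
        rw [bt_zero h5] at hm
        simp at hm
      · rw [if_neg h4] at hm
        exact absurd rfl hm)
  obtain ⟨B2, hB2, hb2⟩ := h N hN0 q hq (a2 U N) (b2 U N)
    (fun m hm => by unfold a2; split_ifs; exacts [hlv m hm, hz m])
    (fun m hm => by unfold b2; split_ifs; exacts [hbt m hm, hz m])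
    (fun m hm => by
      unfold a2 at hm
      by_cases h4 : m * m ≤ N
      · rw [if_pos h4] at hm
        refine ⟨hUlt m ?_, h4⟩
        by_contra h5
        have : lv U m = 0 := by unfold lv; rw [if_neg h5]
        rw [this] at hm
        simp at hm
      · rw [if_neg h4] at hm
        exact absurd rfl hm)
  refine ⟨B1, B2, hB1, hB2, fun η hη S hS1 hS2 => ⟨_, _, bil_split (ev S η) N U, ?_, ?_⟩⟩
  · exact hb1 η hη S hS1
  · exact hb2 η hη S hS2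

theorem majL3 (h1 : VauStm) (h2 : TiMaj2Stm) (h3 : BilMaj3Stm) : MajL3Stm := by
  intro A C ρ hρ
  obtain ⟨C₃, n1, hB⟩ := h3 (A + 1) C ρ hρ
  obtain ⟨n2, hn2⟩ := Pool.Agent.Y883.T3.ev_log_rpow (C + 1 + (A + 1)) 97 (1 / 15) (by norm_num)
  obtain ⟨n3, hn3⟩ := Pool.Agent.H373R2.T7.ev_L' 9
  refine ⟨C₃ + 1, max (max n1 n2) (max n3 1), fun N hN q _ hq => ?_⟩
  have hN1 : n1 ≤ N := le_trans (le_trans (le_max_left _ _) (le_max_left _ _)) hN
  have hN2 : n2 ≤ N := le_trans (le_trans (le_max_right _ _) (le_max_left _ _)) hN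
  have hN3 : n3 ≤ N := le_trans (le_trans (le_max_left _ _) (le_max_right _ _)) hN
  have hN4 : 1 ≤ N := le_trans (le_trans (le_max_right _ _) (le_max_right _ _)) hN
  have hL := hn3 N hN3
  have hlog := hn2 N hN2
  have hx : (1 : ℝ) ≤ N := by exact_mod_cast hN4
  have hx0 : (0 : ℝ) < N := by linarith
  have hq' : (q : ℝ) ≤ (N : ℝ) ^ (2 / 3 : ℝ) :=
    hq.trans (Real.rpow_le_rpow_of_exponent_le hx (by linarith))
  obtain ⟨B1, B2, hB1, hB2, hbil⟩ := bil_part3 hB N q hN1 hq hL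
  classical
  refine ⟨insert 1 (B1 ∪ B2), Finset.mem_insert_self _ _, ?_, ?_⟩
  · have e1 : ((insert (1 : DirichletCharacter ℂ q) (B1 ∪ B2)).card : ℝ) ≤
        (B1.card : ℝ) + B2.card + 1 := by
      have e2 := Finset.card_insert_le (1 : DirichletCharacter ℂ q) (B1 ∪ B2)
      have e3 := Finset.card_union_le B1 B2
      have : (insert (1 : DirichletCharacter ℂ q) (B1 ∪ B2)).card ≤ B1.card + B2.card + 1 := by
        omega
      exact_mod_cast this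
    have e4 : 1 ≤ Real.log N ^ C₃ := one_le_pow₀ (by linarith)
    rw [pow_succ]
    nlinarith
  · intro η hη S hS
    have hS1 : (1 : DirichletCharacter ℂ q) ∉ S := fun h =>
      Finset.disjoint_left.1 hS h (Finset.mem_insert_self _ _)
    have hd1 : Disjoint S B1 := hS.mono_right
      (Finset.subset_union_left.trans (Finset.subset_insert _ _))
    have hd2 : Disjoint S B2 := hS.mono_right
      (Finset.subset_union_right.trans (Finset.subset_insert _ _))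
    obtain ⟨X, Y, hXY, hX, hY⟩ := hbil η hη S hd1 hd2
    have hv := vau_part3 h1 h2 A C N q hN4 hq' hL hlog S hS1 η hη
    rw [hXY] at hv
    rw [← norm_ev_sum]
    refine fin_num A hL hx0 (norm_nonneg _) hv hX hY (norm_nonneg _) ?_
    generalize (∑ n ∈ Icc 1 N, (ArithmeticFunction.vonMangoldt n) • ev S η n) = Z
    calc ‖Z‖ = ‖(Z - (X + Y)) + (X + Y)‖ := by rw [sub_add_cancel]
      _ ≤ ‖Z - (X + Y)‖ + ‖X + Y‖ := norm_add_le _ _
      _ ≤ ‖Z - (X + Y)‖ + (‖X‖ + ‖Y‖) := by gcongr; exact norm_add_le _ _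

theorem majH3 (h1 : TiMaj2Stm) (h2 : LshStm) : MajH3Stm := by
  intro A C ρ hρ
  have hlim := (isLittleO_log_rpow_rpow_atTop (((A + C + 1 : ℕ) : ℝ))
    (show (0 : ℝ) < 31 / 100 by norm_num)).bound (show (0 : ℝ) < 1 / 16 by norm_num)
  have hlim2 := tendsto_natCast_atTop_atTop (R := ℝ) |>.eventually hlim
  have hlog : ∀ᶠ N : ℕ in Filter.atTop, 1 ≤ Real.log (N : ℝ) :=
    (Real.tendsto_log_atTop.comp (tendsto_natCast_atTop_atTop (R := ℝ))).eventually_ge_atTop 1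
  obtain ⟨N₀, hN₀⟩ := Filter.eventually_atTop.1
    (hlim2.and (hlog.and (Filter.eventually_ge_atTop 1)))
  refine ⟨N₀, fun N hN q _ hq z r hD hV η hη S hS => ?_⟩
  obtain ⟨hb, hL, hN1⟩ := hN₀ N hN
  have hNr : (1 : ℝ) ≤ N := by exact_mod_cast hN1
  have hN0 : (0 : ℝ) < N := by linarith
  set L := Real.log (N : ℝ) with hLd
  have hL0 : 0 < L := by linarith
  -- the bound
  have hb' : 16 * L ^ (A + C + 1) ≤ (N : ℝ) ^ (31 / 100 : ℝ) := by
    rw [Real.rpow_natCast, Real.norm_of_nonneg (by positivity),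
      Real.norm_of_nonneg (by positivity)] at hb
    linarith
  have hq1 : (q : ℝ) ≤ (N : ℝ) ^ (17 / 25 : ℝ) :=
    hq.trans (Real.rpow_le_rpow_of_exponent_le hNr (by linarith))
  obtain ⟨D, hDd⟩ : ∃ D : ℕ, D = (z + 1) ^ r := ⟨_, rfl⟩
  rw [← hDd] at hD
  have hD1 : (D : ℝ) ≤ (N : ℝ) ^ (1 / 100 : ℝ) := by
    have e : (D : ℝ) = ((D : ℝ) ^ 100) ^ (1 / 100 : ℝ) := by
      have h3 := Real.pow_rpow_inv_natCast (Nat.cast_nonneg (α := ℝ) D) (n := 100) (by norm_num)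
      push_cast at h3
      rw [one_div]
      exact h3.symm
    rw [e]
    push_cast at hD
    exact Real.rpow_le_rpow (by positivity) hD (by norm_num)
  have hηN : |η| * N ≤ L ^ C := by
    rwa [le_div_iff₀ hN0] at hη
  obtain ⟨Y, hY⟩ : ∃ Y : ℝ, Y = 2 * q * (1 + 7 * (|η| * N)) := ⟨_, rfl⟩
  have hY0 : 0 ≤ Y := by rw [hY]; positivity
  have hYle : Y ≤ (N : ℝ) ^ (17 / 25 : ℝ) * (16 * L ^ C) := by
    have h3 : 1 ≤ L ^ C := one_le_pow₀ hL
    rw [hY]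
    have h4 : 1 + 7 * (|η| * N) ≤ 8 * L ^ C := by linarith
    calc 2 * (q : ℝ) * (1 + 7 * (|η| * N)) ≤ 2 * (N : ℝ) ^ (17 / 25 : ℝ) * (8 * L ^ C) := by gcongr
      _ = _ := by ring
  have h5 := h2 (EuclideanSpace ℂ (DirichletCharacter ℂ q)) (fun n => ev S η n) N z r
    (fun _ => Y) (by
      intro d hd
      refine (h1 q S hS η d (N / d)).trans ?_
      rw [hY]
      have h6 : ((d : ℝ) * ((N / d : ℕ) : ℝ)) ≤ N := by
        exact_mod_cast Nat.mul_div_le N d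
      have h7 : 7 * |η| * ((d : ℝ) * ((N / d : ℕ) : ℝ)) ≤ 7 * |η| * N := by gcongr
      have h8 : 7 * |η| * (N : ℝ) = 7 * (|η| * N) := by ring
      refine mul_le_mul_of_nonneg_left ?_ (by positivity)
      linarith)
  rw [Finset.sum_const, Nat.card_Icc, Nat.add_sub_cancel, nsmul_eq_mul, ← hDd] at h5
  have h6 : ‖∑ n ∈ Icc 1 N, lsh z r n • ev S η n‖ ≤
      L * ((N : ℝ) ^ (1 / 100 : ℝ) * ((N : ℝ) ^ (17 / 25 : ℝ) * (16 * L ^ C))) := by
    refine h5.trans ?_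
    calc (Vz z)⁻¹ * (D * Y) ≤ L * (D * Y) := by gcongr
      _ ≤ _ := by gcongr
  have h7 : ‖∑ n ∈ Icc 1 N, lsh z r n • ev S η n‖ * L ^ A ≤ N := by
    calc ‖∑ n ∈ Icc 1 N, lsh z r n • ev S η n‖ * L ^ A
        ≤ L * ((N : ℝ) ^ (1 / 100 : ℝ) * ((N : ℝ) ^ (17 / 25 : ℝ) * (16 * L ^ C))) * L ^ A := by
          gcongr
      _ = (16 * L ^ (A + C + 1)) * ((N : ℝ) ^ (1 / 100 : ℝ) * (N : ℝ) ^ (17 / 25 : ℝ)) := by
          rw [pow_add, pow_add, pow_one]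
          ring
      _ ≤ (N : ℝ) ^ (31 / 100 : ℝ) * ((N : ℝ) ^ (1 / 100 : ℝ) * (N : ℝ) ^ (17 / 25 : ℝ)) := by
          gcongr
      _ = N := by
          rw [← Real.rpow_add hN0, ← Real.rpow_add hN0]
          norm_num
  have h8 := norm_sq_ev S η N (fun n => lsh z r n)
  have h9 : ∑ χ ∈ S, ‖cs q N (LS z r) η χ‖ ^ 2 = ‖∑ n ∈ Icc 1 N, lsh z r n • ev S η n‖ ^ 2 :=
    h8.symm
  rw [h9, le_div_iff₀ (by positivity)]
  have hLA : 1 ≤ L ^ A := one_le_pow₀ hL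
  calc ‖∑ n ∈ Icc 1 N, lsh z r n • ev S η n‖ ^ 2 * L ^ A
      ≤ ‖∑ n ∈ Icc 1 N, lsh z r n • ev S η n‖ ^ 2 * (L ^ A * L ^ A) := by
        gcongr
        exact le_mul_of_one_le_left (by positivity) hLA
    _ = (‖∑ n ∈ Icc 1 N, lsh z r n • ev S η n‖ * L ^ A) ^ 2 := by ring
    _ ≤ (N : ℝ) ^ 2 := by gcongr


end Pool.Agent.H7.BK
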