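import Pool.Agent.H7.BK.Stm3
import Pool.Graph.R_seed8.Y898.GJ.TernB

set_option autoImplicit false

/-! The error term of the ternary equation, moduli up to `P ^ (2 / 3 - ρ)`. -/

namespace Pool.Agent.H7.BK

open Finset
open Pool.Agent.H807R2.Dav (ee)
open Pool.Agent.Y883.GJ
open Pool.Agent.Y898.GJ (nr nr_eq nr_nonneg nr_sq sum_sq_le sum_nr_mul pars_nr dirich Sk Sk_nonneg minor_pt
  major_pt ev_log_le ev_log_ge mean_Sk)

lemma str3_mono {ρ : ℝ} {A A' C C₃ P : ℕ} {G : ℕ → ℂ} (h : Str3 ρ A C C₃ P G) (hA : A' ≤ A)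
    (hl : 1 ≤ Real.log P) : Str3 ρ A' C C₃ P G where
  bd := h.bd
  nc := fun q h1 h2 => (h.nc q h1 h2).trans
    (div_le_div_of_nonneg_left (by positivity) (by positivity) (pow_le_pow_right₀ hl hA))
  maj := fun q _ hq => by
    obtain ⟨B, hB1, hB2⟩ := h.maj q hq
    exact ⟨B, hB1, fun η hη S hS => (hB2 η hη S hS).trans
      (div_le_div_of_nonneg_left (by positivity) (by positivity) (pow_le_pow_right₀ hl hA))⟩

/-- the mean square over the classes on the minor arcs -/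
lemma minor_sq4 (h5 : OrthStm) {c : ℕ} (hc : ∀ (q N : ℕ) [NeZero q] (F : ℕ → ℂ) (ℓ T β : ℝ), 1 ≤ N →
      1 + Real.log N ≤ ℓ →
      (∀ n ∈ Icc 1 N, ‖F n‖ ≤ ℓ * (n.divisors.card : ℝ)) →
      (∑ n ∈ (Icc 1 N).filter (fun n => ¬ n.Coprime q), ‖F n‖ ≤ T) →
      ∑ l ∈ univ.filter (fun l : ZMod q => ¬ IsUnit l), ‖cl q N F β l‖ ^ 2 ≤
      ((N : ℝ) / q + 1) * Real.sqrt (T * (N * ℓ ^ c)))
    {B₀ A₂ P n : ℕ} [NeZero n] {G : ℕ → ℂ} {β L : ℝ} (hP : 1 ≤ P) (hnP : n ≤ P)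
    (hL1 : Real.log P ≤ L) (hL2 : L ≤ 4 * Real.log P)
    (hA2 : c + 2 * B₀ + 1 ≤ A₂) (hLb : 16 * (4 : ℝ) ^ (c + A₂) ≤ L)
    (hLc : 2 * (4 : ℝ) ^ (B₀ + 3) ≤ L)
    (bd : ∀ n ∈ Icc 1 P, ‖G n‖ ≤ 2 * Real.log P * (n.divisors.card : ℝ))
    (nc : ∑ m ∈ (Icc 1 P).filter (fun m => ¬ m.Coprime n), ‖G m‖ ≤ P / Real.log P ^ A₂)
    (hmn : ∑ χ : DirichletCharacter ℂ n, ‖cs n P G β χ‖ ^ 2 ≤ (P : ℝ) ^ 2 / Real.log P ^ (B₀ + 2)) :
    ∑ l : ZMod n, ‖cl n P G β l‖ ^ 2 ≤ (P : ℝ) ^ 2 / (n * L ^ B₀) := by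
  classical
  have hn0 : 0 < n := Nat.pos_of_ne_zero (NeZero.ne n)
  have hn0' : (0 : ℝ) < n := by exact_mod_cast hn0
  have hP0 : (0 : ℝ) < P := by exact_mod_cast (show 0 < P by omega)
  have hnP' : (n : ℝ) ≤ P := by exact_mod_cast hnP
  have h3 : (1 : ℝ) ≤ 4 ^ (c + A₂) := one_le_pow₀ (by norm_num)
  have hL16 : 16 ≤ L := by linarith
  have hL0 : 0 < L := by linarith
  have hl0 : 0 < Real.log P := by linarith
  have hφ0 : (0 : ℝ) < n.totient := by exact_mod_cast Nat.totient_pos.2 hn0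
  -- units
  have hU : ∑ l ∈ univ.filter (fun l : ZMod n => IsUnit l), ‖cl n P G β l‖ ^ 2 ≤
      (P : ℝ) ^ 2 / (2 * (n * L ^ B₀)) := by
    have e1 := (h5 n P G β ∅).2.2
    have e2 := Pool.Agent.TH212.EH.inv_phi n hn0 P hnP
    have e3 : ∑ l ∈ univ.filter (fun l : ZMod n => IsUnit l), ‖cl n P G β l‖ ^ 2 =
        1 / (n.totient : ℝ) * ∑ χ : DirichletCharacter ℂ n, ‖cs n P G β χ‖ ^ 2 := by
      rw [e1]; field_simp
    rw [e3]
    have e4 : (P : ℝ) ^ 2 / Real.log P ^ (B₀ + 2) ≤ (P : ℝ) ^ 2 * 4 ^ (B₀ + 2) / L ^ (B₀ + 2) := by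
      rw [div_le_div_iff₀ (by positivity) (by positivity)]
      have : L ^ (B₀ + 2) ≤ (4 * Real.log P) ^ (B₀ + 2) := by gcongr
      rw [mul_pow] at this
      calc (P : ℝ) ^ 2 * L ^ (B₀ + 2) ≤ (P : ℝ) ^ 2 * (4 ^ (B₀ + 2) * Real.log P ^ (B₀ + 2)) := by
            gcongr
        _ = _ := by ring
    calc 1 / (n.totient : ℝ) * ∑ χ : DirichletCharacter ℂ n, ‖cs n P G β χ‖ ^ 2
        ≤ ((1 + 2 * Real.log P) * (1 / n)) * ((P : ℝ) ^ 2 * 4 ^ (B₀ + 2) / L ^ (B₀ + 2)) :=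
          mul_le_mul e2 (hmn.trans e4) (Finset.sum_nonneg fun _ _ => by positivity)
            (by positivity)
      _ ≤ ((4 * L) * (1 / n)) * ((P : ℝ) ^ 2 * 4 ^ (B₀ + 2) / L ^ (B₀ + 2)) := by
          gcongr
          linarith
      _ = ((P : ℝ) ^ 2 / (n * L ^ B₀)) * (4 ^ (B₀ + 3) / L) := by
          rw [pow_add L, pow_add (4 : ℝ) B₀ 3, pow_add (4 : ℝ) B₀ 2]
          field_simp
      _ ≤ ((P : ℝ) ^ 2 / (n * L ^ B₀)) * (1 / 2) := by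
          refine mul_le_mul_of_nonneg_left ?_ (by positivity)
          rw [div_le_div_iff₀ hL0 (by norm_num)]
          linarith
      _ = _ := by field_simp
  have hN : ∑ l ∈ univ.filter (fun l : ZMod n => ¬ IsUnit l), ‖cl n P G β l‖ ^ 2 ≤
      (P : ℝ) ^ 2 / (2 * (n * L ^ B₀)) := by
    have e1 := hc n P G (4 * L) (P / Real.log P ^ A₂) β hP (by linarith) (fun m hm =>
      (bd m hm).trans (by gcongr; linarith)) nc
    refine e1.trans ?_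
    have e2 : (P : ℝ) / Real.log P ^ A₂ * (P * (4 * L) ^ c) ≤ ((P : ℝ) / (4 * L ^ B₀)) ^ 2 := by
      have e3 : (P : ℝ) / Real.log P ^ A₂ ≤ P * 4 ^ A₂ / L ^ A₂ := by
        rw [div_le_div_iff₀ (by positivity) (by positivity)]
        have : L ^ A₂ ≤ (4 * Real.log P) ^ A₂ := by gcongr
        rw [mul_pow] at this
        calc (P : ℝ) * L ^ A₂ ≤ (P : ℝ) * (4 ^ A₂ * Real.log P ^ A₂) := by gcongr
          _ = _ := by ring
      obtain ⟨j, hj⟩ : ∃ j, A₂ = c + 2 * B₀ + 1 + j := ⟨A₂ - (c + 2 * B₀ + 1), by omega⟩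
      calc (P : ℝ) / Real.log P ^ A₂ * (P * (4 * L) ^ c)
          ≤ (P * 4 ^ A₂ / L ^ A₂) * (P * (4 * L) ^ c) := by gcongr
        _ = (P : ℝ) ^ 2 * 4 ^ (c + A₂) * (L ^ c / L ^ A₂) := by
            rw [mul_pow, pow_add (4 : ℝ) c A₂]
            field_simp
        _ ≤ (P : ℝ) ^ 2 * (L / 16) * (L ^ c / L ^ A₂) := by
            gcongr
            linarith
        _ = (P : ℝ) ^ 2 / (16 * (L ^ (2 * B₀) * L ^ j)) := by
            rw [hj, pow_add, pow_add, pow_add, pow_one]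
            field_simp
        _ ≤ (P : ℝ) ^ 2 / (16 * (L ^ (2 * B₀) * 1)) := by
            gcongr
            exact one_le_pow₀ (by linarith)
        _ = _ := by
            rw [div_pow, mul_pow, mul_one, ← pow_mul, mul_comm B₀ 2]
            norm_num
    have e4 : Real.sqrt ((P : ℝ) / Real.log P ^ A₂ * (P * (4 * L) ^ c)) ≤ (P : ℝ) / (4 * L ^ B₀) := by
      refine (Real.sqrt_le_sqrt e2).trans (le_of_eq ?_)
      exact Real.sqrt_sq (by positivity)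
    have e5 : (P : ℝ) / n + 1 ≤ 2 * (P / n) := by
      have : 1 ≤ (P : ℝ) / n := by rw [le_div_iff₀ hn0']; linarith
      linarith
    calc ((P : ℝ) / n + 1) * Real.sqrt ((P : ℝ) / Real.log P ^ A₂ * (P * (4 * L) ^ c))
        ≤ (2 * (P / n)) * (P / (4 * L ^ B₀)) := mul_le_mul e5 e4 (Real.sqrt_nonneg _) (by positivity)
      _ = _ := by field_simp; ring
  have hsplit : ∑ l : ZMod n, ‖cl n P G β l‖ ^ 2 =
      ∑ l ∈ univ.filter (fun l : ZMod n => IsUnit l), ‖cl n P G β l‖ ^ 2 +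
      ∑ l ∈ univ.filter (fun l : ZMod n => ¬ IsUnit l), ‖cl n P G β l‖ ^ 2 :=
    (Finset.sum_filter_add_sum_filter_not _ _ _).symm
  rw [hsplit]
  refine (add_le_add hU hN).trans (le_of_eq ?_)
  field_simp
  ring

lemma cube_le_of_rpow {q P : ℕ} {ρ : ℝ} (hP : 1 ≤ P) (hρ : 0 < ρ)
    (h : (q : ℝ) ≤ (P : ℝ) ^ (2 / 3 - ρ)) : q ^ 3 ≤ P ^ 2 := by
  have hP' : (1 : ℝ) ≤ P := by exact_mod_cast hP
  have hP0 : (0 : ℝ) ≤ P := by linarith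
  have h1 : (q : ℝ) ≤ (P : ℝ) ^ (2 / 3 : ℝ) := h.trans (Real.rpow_le_rpow_of_exponent_le hP' (by linarith))
  have h2 : (q : ℝ) ^ 3 ≤ (P : ℝ) ^ 2 := by
    calc (q : ℝ) ^ 3 ≤ ((P : ℝ) ^ (2 / 3 : ℝ)) ^ 3 := by gcongr
      _ = (P : ℝ) ^ 2 := by
        rw [← Real.rpow_natCast, ← Real.rpow_mul hP0, ← Real.rpow_natCast]
        norm_num
  exact_mod_cast h2

lemma le_of_cube {q P : ℕ} (h : q ^ 3 ≤ P ^ 2) (hP : 1 ≤ P) : q ≤ P := by
  have h1 : q ^ 3 ≤ P ^ 3 := h.trans (Nat.pow_le_pow_right hP (by norm_num))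
  exact (Nat.pow_le_pow_iff_left (by norm_num)).1 h1

/-- the sizes -/
lemma sizes4 {N a1 a2 a3 P1 P2 : ℕ} (ha2 : 1 ≤ a2)
    (h1 : (a2 * a3) ^ 3 ≤ P1 ^ 2) (h2 : (a1 * a3) ^ 3 ≤ P2 ^ 2) (ha3 : 1 ≤ a3)
    (u1 : a1 * P1 ≤ N) (u2 : a2 * P2 ≤ N) (v1 : N < 2 * (a1 * P1)) :
    (a1 * a2 * a3) ^ 9 ≤ N ^ 8 ∧ N ≤ 8 * P1 ^ 3 := by
  have e0 : P2 ≤ N := (Nat.le_mul_of_pos_left _ (by omega)).trans u2
  have e1 : a1 ^ 3 ≤ N ^ 2 := by
    calc a1 ^ 3 ≤ (a1 * a3) ^ 3 := by gcongr; exact Nat.le_mul_of_pos_right _ (by omega)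
      _ ≤ P2 ^ 2 := h2
      _ ≤ N ^ 2 := by gcongr
  constructor
  · calc (a1 * a2 * a3) ^ 9 = a1 ^ 9 * ((a2 * a3) ^ 3) ^ 3 := by ring
      _ ≤ a1 ^ 9 * (P1 ^ 2) ^ 3 := by gcongr
      _ = a1 ^ 3 * (a1 * P1) ^ 6 := by ring
      _ ≤ N ^ 2 * N ^ 6 := by gcongr
      _ = N ^ 8 := by ring
  · rcases Nat.eq_zero_or_pos N with h0 | h0
    · rw [h0]; exact Nat.zero_le _
    · have e2 : N ^ 2 * N ≤ N ^ 2 * (8 * P1 ^ 3) := by
        calc N ^ 2 * N = N ^ 3 := by ring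
          _ ≤ (2 * (a1 * P1)) ^ 3 := Nat.pow_le_pow_left v1.le 3
          _ = a1 ^ 3 * (8 * P1 ^ 3) := by ring
          _ ≤ N ^ 2 * (8 * P1 ^ 3) := by gcongr
      exact Nat.le_of_mul_le_mul_left e2 (by positivity)

lemma log_low4 {N P : ℕ} (hN : 1 ≤ N) (hP : 1 ≤ P) (h : N ≤ 8 * P ^ 3) (hL : 64 ≤ Real.log N) :
    Real.log N ≤ 4 * Real.log P := by
  have hP0 : (0 : ℝ) < P := by exact_mod_cast (show 0 < P by omega)
  have hN0 : (0 : ℝ) < N := by exact_mod_cast (show 0 < N by omega)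
  have h1 : Real.log N ≤ Real.log (8 * (P : ℝ) ^ 3) := Real.log_le_log hN0 (by exact_mod_cast h)
  rw [Real.log_mul (by norm_num) (by positivity), Real.log_pow] at h1
  have h2 : Real.log 8 ≤ 7 := by
    have := Real.log_le_sub_one_of_pos (show (0 : ℝ) < 8 by norm_num)
    linarith
  push_cast at h1
  linarith

/-- one point of the minor arcs, the second function -/
lemma minor_pt2 (h2 : TNormStm) {c1 c2 c3 : ℤ} {P1 P2 P3 : ℕ} {G1 G2 G3 : ℕ → ℂ} {b X : ℝ}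
    [NeZero (1 * c2.natAbs * c3.natAbs)] [NeZero (1 * c1.natAbs * c3.natAbs)]
    [NeZero (1 * c1.natAbs * c2.natAbs)] (g12 : IsCoprime c1 c2) (g13 : IsCoprime c1 c3)
    (g23 : IsCoprime c2 c3) (d : ZMod (1 * c1.natAbs * c2.natAbs * c3.natAbs)) (hX : 0 ≤ X)
    (hA : ∑ x : ZMod (1 * c1.natAbs * c3.natAbs), ‖cl _ P2 G2 (c2 * b) x‖ ^ 2 ≤ X ^ 2) :
    ‖T3 c1 c2 c3 1 d (cl _ P1 G1 (c1 * b)) (cl _ P2 G2 (c2 * b)) (cl _ P3 G3 (c3 * b))‖ ≤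
      X * (nr (1 * c2.natAbs * c3.natAbs) P1 G1 (c1 * b) *
        nr (1 * c1.natAbs * c2.natAbs) P3 G3 (c3 * b)) := by
  have h := h2 c1 c2 c3 1 g12 g13 g23 d (cl _ P1 G1 (c1 * b)) (cl _ P2 G2 (c2 * b))
    (cl _ P3 G3 (c3 * b))
  rw [← nr_sq (1 * c2.natAbs * c3.natAbs), ← nr_sq (1 * c1.natAbs * c2.natAbs)] at h
  have h0 := nr_nonneg (1 * c2.natAbs * c3.natAbs) P1 G1 (c1 * b)
  have h0' := nr_nonneg (1 * c1.natAbs * c2.natAbs) P3 G3 (c3 * b)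
  refine le_of_sq_le_sq ?_ (by positivity)
  refine h.trans ?_
  have e : (X * (nr (1 * c2.natAbs * c3.natAbs) P1 G1 (c1 * b) *
        nr (1 * c1.natAbs * c2.natAbs) P3 G3 (c3 * b))) ^ 2 = ((1 : ℕ) : ℝ) *
        nr (1 * c2.natAbs * c3.natAbs) P1 G1 (c1 * b) ^ 2 * X ^ 2 *
        nr (1 * c1.natAbs * c2.natAbs) P3 G3 (c3 * b) ^ 2 := by
    rw [Nat.cast_one]; ring
  rw [e]
  gcongr

lemma small_eta4 {c : ℤ} {P N C : ℕ} {η L : ℝ} (hP : 1 ≤ P) (hN : 1 ≤ N) (u : c.natAbs * P ≤ N)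
    (hL2 : L ≤ 4 * Real.log P) (hL : (4 : ℝ) ^ (C + 2) ≤ L) (hη : |η| ≤ 3 * L ^ C / N) :
    |c * η| ≤ Real.log P ^ (C + 1) / P := by
  have hP0 : (0 : ℝ) < P := by exact_mod_cast (show 0 < P by omega)
  have hN0 : (0 : ℝ) < N := by exact_mod_cast (show 0 < N by omega)
  have hL0 : 0 < L := lt_of_lt_of_le (by positivity) hL
  have e1 : |(c : ℝ)| = (c.natAbs : ℝ) := by
    rw [Nat.cast_natAbs, Int.cast_abs]
  have u' : (c.natAbs : ℝ) * P ≤ N := by exact_mod_cast u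
  rw [abs_mul, e1]
  have e2 : 3 * L ^ C ≤ Real.log P ^ (C + 1) := by
    have e3 : (L / 4) ^ (C + 1) ≤ Real.log P ^ (C + 1) := by
      apply pow_le_pow_left₀ (by positivity)
      linarith
    refine le_trans ?_ e3
    rw [div_pow, le_div_iff₀ (by positivity), pow_succ L]
    calc 3 * L ^ C * 4 ^ (C + 1) ≤ 4 * L ^ C * 4 ^ (C + 1) := by gcongr; norm_num
      _ = L ^ C * 4 ^ (C + 2) := by ring
      _ ≤ L ^ C * L := by gcongr
  calc (c.natAbs : ℝ) * |η| ≤ c.natAbs * (3 * L ^ C / N) := by gcongr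
    _ = (3 * L ^ C) * (c.natAbs / N) := by ring
    _ ≤ (3 * L ^ C) * (1 / P) := by
        gcongr (3 * L ^ C) * ?_
        rw [div_le_div_iff₀ hN0 hP0]
        linarith
    _ ≤ Real.log P ^ (C + 1) * (1 / P) := by gcongr
    _ = _ := by ring

/-- the numbers of one instance -/
structure Nums4 (A C₁ B₀ c A₂ N : ℕ) (L : ℝ) : Prop where
  hN : 1 ≤ N
  hL : L = Real.log N
  h64 : 64 ≤ L
  hc : 16 * (4 : ℝ) ^ (c + A₂) ≤ L
  hB : 2 * (4 : ℝ) ^ (B₀ + 3) ≤ L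
  hC : (4 : ℝ) ^ (C₁ + 2) ≤ L
  hpow : 19683 * L ^ (9 * C₁) ≤ (N : ℝ)
  hA2 : c + 2 * B₀ + 1 ≤ A₂
  hB0 : B₀ = 2 * (A + 9)

lemma Y_ge4 {A C₁ B₀ c A₂ N Q : ℕ} {L : ℝ} (h : Nums4 A C₁ B₀ c A₂ N L) (hQ : 1 ≤ Q)
    (hQN : Q ^ 9 ≤ N ^ 8) : 1 ≤ (N : ℝ) / (3 * Q * L ^ C₁) := by
  have hL0 : 0 < L := by linarith [h.h64]
  have hQ0 : (0 : ℝ) < Q := by exact_mod_cast (show 0 < Q by omega)
  have hN0 : (0 : ℝ) < N := by exact_mod_cast (show 0 < N from h.hN)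
  rw [le_div_iff₀ (by positivity), one_mul]
  have hQN' : (Q : ℝ) ^ 9 ≤ (N : ℝ) ^ 8 := by exact_mod_cast hQN
  have h1 : (3 * (Q : ℝ) * L ^ C₁) ^ 9 ≤ (N : ℝ) ^ 9 := by
    calc (3 * (Q : ℝ) * L ^ C₁) ^ 9 = (Q : ℝ) ^ 9 * (19683 * L ^ (9 * C₁)) := by
          rw [mul_pow, mul_pow, ← pow_mul, mul_comm C₁ 9]; ring
      _ ≤ (N : ℝ) ^ 8 * N := mul_le_mul hQN' h.hpow (by positivity) (by positivity)
      _ = (N : ℝ) ^ 9 := by ring
  exact le_of_pow_le_pow_left₀ (by norm_num) hN0.le h1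

theorem point4 (h1' : ℕ) {A C₁ B₀ c A₂ N T : ℕ} {L ρ : ℝ} (hnum : Nums4 A C₁ B₀ c A₂ N L) (hρ : 0 < ρ)
    (h2 : TNormStm) (h3 : TLiftStm) (h5 : OrthStm)
    (hc : ∀ (q N : ℕ) [NeZero q] (F : ℕ → ℂ) (ℓ T β : ℝ), 1 ≤ N →
      1 + Real.log N ≤ ℓ →
      (∀ n ∈ Icc 1 N, ‖F n‖ ≤ ℓ * (n.divisors.card : ℝ)) →
      (∑ n ∈ (Icc 1 N).filter (fun n => ¬ n.Coprime q), ‖F n‖ ≤ T) →
      ∑ l ∈ univ.filter (fun l : ZMod q => ¬ IsUnit l), ‖cl q N F β l‖ ^ 2 ≤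
      ((N : ℝ) / q + 1) * Real.sqrt (T * (N * ℓ ^ c)))
    {c1 c2 c3 d : ℤ} {P1 P2 P3 : ℕ} (hp : Par3 ρ N T c1 c2 c3 d P1 P2 P3) {G1 G2 G3 : ℕ → ℂ}
    [NeZero (1 * c2.natAbs * c3.natAbs)] [NeZero (1 * c1.natAbs * c3.natAbs)]
    [NeZero (1 * c1.natAbs * c2.natAbs)]
    (hMn : Mnr3 (ρ / 2) (B₀ + 2) C₁ P1 G1 ∨ Mnr3 (ρ / 2) (B₀ + 2) C₁ P2 G2)
    (hS1 : Str3 (ρ / 2) A₂ (C₁ + 1) h1' P1 G1) (hS2 : Str3 (ρ / 2) A₂ (C₁ + 1) h1' P2 G2)
    (hP1 : 1 ≤ P1) (hP2 : 1 ≤ P2) (hP3 : 1 ≤ P3)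
    (l1 : Real.log P1 ≤ L) (l2 : Real.log P2 ≤ L) (l1' : L ≤ 4 * Real.log P1) (l2' : L ≤ 4 * Real.log P2)
    (l3' : L ≤ 4 * Real.log P3)
    (hq1 : c2.natAbs * c3.natAbs ≤ P1) (hq2 : c1.natAbs * c3.natAbs ≤ P2)
    (hQN : (c1.natAbs * c2.natAbs * c3.natAbs) ^ 9 ≤ N ^ 8)
    (hTPW : ∀ (k : ℕ) [NeZero (k * c2.natAbs * c3.natAbs)] [NeZero (k * c1.natAbs * c3.natAbs)]
      [NeZero (k * c1.natAbs * c2.natAbs)], 1 ≤ k → (k : ℝ) ≤ Real.log N ^ C₁ →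
      ∀ d' : ZMod (k * c1.natAbs * c2.natAbs * c3.natAbs),
      ((d'.val : ℕ) : ZMod (1 * c1.natAbs * c2.natAbs * c3.natAbs)) =
        (d : ZMod (1 * c1.natAbs * c2.natAbs * c3.natAbs)) →
      ∀ η : ℝ, |c1 * η| ≤ Real.log P1 ^ (C₁ + 1) / P1 → |c2 * η| ≤ Real.log P2 ^ (C₁ + 1) / P2 →
      |c3 * η| ≤ Real.log P3 ^ (C₁ + 1) / P3 →
      ‖T3 c1 c2 c3 k d' (cl _ P1 G1 (c1 * η)) (cl _ P2 G2 (c2 * η)) (cl _ P3 G3 (c3 * η))‖ ≤
    (1 / Real.log N ^ (A + 2 * C₁ + 9)) *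
      (P1 / Real.sqrt (c2.natAbs * c3.natAbs) *
        (Real.sqrt (∑ x, ‖cl (k * c1.natAbs * c3.natAbs) P2 G2 (c2 * η) x‖ ^ 2) *
          Real.sqrt (∑ x, ‖cl (k * c1.natAbs * c2.natAbs) P3 G3 (c3 * η) x‖ ^ 2)) +
       P2 / Real.sqrt (c1.natAbs * c3.natAbs) *
        (Real.sqrt (∑ x, ‖cl (k * c2.natAbs * c3.natAbs) P1 G1 (c1 * η) x‖ ^ 2) *
          Real.sqrt (∑ x, ‖cl (k * c1.natAbs * c2.natAbs) P3 G3 (c3 * η) x‖ ^ 2)) +
       P3 / Real.sqrt (c1.natAbs * c2.natAbs) *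
        (Real.sqrt (∑ x, ‖cl (k * c2.natAbs * c3.natAbs) P1 G1 (c1 * η) x‖ ^ 2) *
          Real.sqrt (∑ x, ‖cl (k * c1.natAbs * c3.natAbs) P2 G2 (c2 * η) x‖ ^ 2))))
    {M : ℕ} (hM : 1 ≤ M) (t : ℕ) {b : ℝ}
    (hb : b = (t : ℝ) / (M * (c1.natAbs * c2.natAbs * c3.natAbs) : ℕ)) :
    ‖T3 c1 c2 c3 1 (d : ZMod (1 * c1.natAbs * c2.natAbs * c3.natAbs))
      (cl _ P1 G1 (c1 * b)) (cl _ P2 G2 (c2 * b)) (cl _ P3 G3 (c3 * b))‖ ≤
      1 / L ^ (A + 9) * Sk c1 c2 c3 P1 P2 P3 G1 G2 G3 1 b +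
      1 / L ^ (A + C₁ + 9) * ∑ j ∈ range ⌊L ^ C₁⌋₊, Sk c1 c2 c3 P1 P2 P3 G1 G2 G3 (j + 1) b := by
  classical
  have hL0 : 0 < L := by linarith [hnum.h64]
  have hN0 : (0 : ℝ) < N := by exact_mod_cast (show 0 < N from hnum.hN)
  have hM0 : (0 : ℝ) < M := by exact_mod_cast (show 0 < M from hM)
  have ha1 : 0 < c1.natAbs := Int.natAbs_pos.mpr hp.n1
  have ha2 : 0 < c2.natAbs := Int.natAbs_pos.mpr hp.n2
  have ha3 : 0 < c3.natAbs := Int.natAbs_pos.mpr hp.n3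
  have b1 : (0 : ℝ) < (c1.natAbs : ℝ) := Nat.cast_pos.mpr ha1
  have b2 : (0 : ℝ) < (c2.natAbs : ℝ) := Nat.cast_pos.mpr ha2
  have b3 : (0 : ℝ) < (c3.natAbs : ℝ) := Nat.cast_pos.mpr ha3
  have hP10 : (0 : ℝ) < P1 := by exact_mod_cast (show 0 < P1 by omega)
  obtain ⟨Q, hQ⟩ : ∃ Q : ℕ, Q = c1.natAbs * c2.natAbs * c3.natAbs := ⟨_, rfl⟩
  have hQ0 : 0 < Q := by rw [hQ]; positivity
  have hQr : (0 : ℝ) < Q := by exact_mod_cast hQ0
  have hQc : (Q : ℝ) = (c1.natAbs : ℝ) * c2.natAbs * c3.natAbs := by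
    rw [hQ, Nat.cast_mul, Nat.cast_mul]
  obtain ⟨Y, hY⟩ : ∃ Y : ℝ, Y = (N : ℝ) / (3 * Q * L ^ C₁) := ⟨_, rfl⟩
  have hY1 : 1 ≤ Y := by rw [hY]; exact Y_ge4 hnum hQ0 (by rw [hQ]; exact hQN)
  obtain ⟨Q2, hQ2⟩ : ∃ n : ℕ, n = ⌊Y⌋₊ := ⟨_, rfl⟩
  have hQ2a : (Q2 : ℝ) ≤ Y := by rw [hQ2]; exact Nat.floor_le (by linarith)
  have hQ2b : Y < Q2 + 1 := by rw [hQ2]; exact Nat.lt_floor_add_one Y
  have hQ2p : 0 < Q2 := by rw [hQ2]; exact Nat.floor_pos.mpr hY1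
  obtain ⟨ξ, hξd⟩ : ∃ ξ : ℝ, ξ = (t : ℝ) / M := ⟨_, rfl⟩
  obtain ⟨h, k, hk1, hk2, hcop, hξ⟩ := dirich ξ hQ2p
  have hk0 : (0 : ℝ) < k := by exact_mod_cast (show 0 < k by omega)
  have hk2' : (k : ℝ) ≤ Q2 := by exact_mod_cast hk2
  have hbξ : b = ξ / Q := by
    rw [hb, hξd, ← hQ, Nat.cast_mul]
    field_simp
  have sg : ∀ c : ℤ, (c : ℝ) = (c.sign : ℝ) * (c.natAbs : ℝ) := by
    intro c
    calc (c : ℝ) = ((c.sign * (c.natAbs : ℤ) : ℤ) : ℝ) := by rw [Int.sign_mul_natAbs]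
      _ = _ := by rw [Int.cast_mul, Int.cast_natCast]
  have hSk := Sk_nonneg c1 c2 c3 P1 P2 P3 G1 G2 G3
  have hsum0 : 0 ≤ ∑ j ∈ range ⌊L ^ C₁⌋₊, Sk c1 c2 c3 P1 P2 P3 G1 G2 G3 (j + 1) b :=
    Finset.sum_nonneg fun j _ => hSk _ _
  rcases le_or_gt (L ^ C₁) (k : ℝ) with hk | hk
  · -- minor arcs
    rcases hMn with hMn | hMn
    · have hs1 : |((c1.sign : ℤ) : ℝ)| = 1 := by
        rcases Int.natAbs_eq c1 with hh | hh
        · rw [hh, Int.sign_natCast_of_ne_zero ha1.ne']; simp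
        · rw [hh, Int.sign_neg, Int.sign_natCast_of_ne_zero ha1.ne']; simp
      have hsu : IsUnit (c1.sign) := by
        rcases Int.natAbs_eq c1 with hh | hh
        · rw [hh, Int.sign_natCast_of_ne_zero ha1.ne']; exact isUnit_one
        · rw [hh, Int.sign_neg, Int.sign_natCast_of_ne_zero ha1.ne']; exact isUnit_one.neg
      have hmod : ((1 * c2.natAbs * c3.natAbs : ℕ) : ℝ) = (c2.natAbs : ℝ) * c3.natAbs := by
        rw [Nat.cast_mul, Nat.cast_mul, Nat.cast_one, one_mul]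
      have hnP : 1 * c2.natAbs * c3.natAbs ≤ P1 := by
        rw [one_mul]
        exact hq1
      have hl1 : 1 ≤ Real.log P1 := by linarith [hnum.h64]
      have hmn : ∑ χ : DirichletCharacter ℂ (1 * c2.natAbs * c3.natAbs),
          ‖cs (1 * c2.natAbs * c3.natAbs) P1 G1 (c1 * b) χ‖ ^ 2 ≤
          (P1 : ℝ) ^ 2 / Real.log P1 ^ (B₀ + 2) := by
        refine hMn (1 * c2.natAbs * c3.natAbs) ?_ k (c1.sign * h) (c1 * b) ?_ ?_ ?_ ?_
        · have e := hp.q1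
          rw [hmod]
          rw [Nat.cast_mul] at e
          refine e.trans (Real.rpow_le_rpow_of_exponent_le (by exact_mod_cast hP1) (by linarith))
        · exact le_trans (pow_le_pow_left₀ (by linarith) l1 _) hk
        · rw [hmod]
          have e1 : Real.log P1 ^ C₁ ≤ L ^ C₁ := pow_le_pow_left₀ (by linarith) l1 _
          have e2 : (k : ℝ) ≤ Y := hk2'.trans hQ2a
          have e3 : (N : ℝ) < 2 * (c1.natAbs * P1) := by exact_mod_cast hp.v1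
          calc (c2.natAbs : ℝ) * c3.natAbs * k * Real.log P1 ^ C₁
              ≤ (c2.natAbs : ℝ) * c3.natAbs * Y * L ^ C₁ := by gcongr
            _ = N / (3 * c1.natAbs) := by
                rw [hY, hQc]
                field_simp
            _ ≤ P1 := by
                rw [div_le_iff₀ (by positivity)]
                nlinarith
        · exact (isCoprime_mul_unit_left_left hsu h (k : ℤ)).mpr hcop
        · have e1 : ((1 * c2.natAbs * c3.natAbs : ℕ) : ℝ) * (c1 * b) - ((c1.sign * h : ℤ) : ℝ) / k =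
              (c1.sign : ℝ) * (ξ - h / k) := by
            rw [hmod, hbξ, hQc, Int.cast_mul, sg c1]
            field_simp
          rw [e1, abs_mul, hs1, one_mul]
          refine hξ.trans ?_
          rw [div_le_div_iff₀ (by positivity) (by positivity), one_mul, one_mul, sq]
          gcongr
          linarith
      have hA := minor_sq4 (B₀ := B₀) (A₂ := A₂) (β := c1 * b) h5 hc hP1 hnP l1 l1' hnum.hA2 hnum.hc
        hnum.hB hS1.bd (hS1.nc _ (by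
          have := NeZero.ne (1 * c2.natAbs * c3.natAbs)
          omega) hnP) hmn
      obtain ⟨X, hX⟩ : ∃ X : ℝ, X = P1 / Real.sqrt (c2.natAbs * c3.natAbs) * (1 / L ^ (A + 9)) := ⟨_, rfl⟩
      have hX0 : 0 ≤ X := by rw [hX]; positivity
      have hX2 : (P1 : ℝ) ^ 2 / ((1 * c2.natAbs * c3.natAbs : ℕ) * L ^ B₀) = X ^ 2 := by
        rw [hX, mul_pow, div_pow, Real.sq_sqrt (by positivity), hmod, div_pow, one_pow, ← pow_mul,
          hnum.hB0, mul_comm (A + 9) 2]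
        field_simp
      rw [hX2] at hA
      refine (minor_pt (P2 := P2) (P3 := P3) (G2 := G2) (G3 := G3) h2 hp.g12 hp.g13 hp.g23
        (d : ZMod (1 * c1.natAbs * c2.natAbs * c3.natAbs)) hX0 hA).trans ?_
      have e1 : X * (nr (1 * c1.natAbs * c3.natAbs) P2 G2 (c2 * b) *
          nr (1 * c1.natAbs * c2.natAbs) P3 G3 (c3 * b)) ≤
          1 / L ^ (A + 9) * Sk c1 c2 c3 P1 P2 P3 G1 G2 G3 1 b := by
        rw [hX]
        unfold Sk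
        have z1 := nr_nonneg (1 * c1.natAbs * c3.natAbs) P2 G2 (c2 * b)
        have z2 := nr_nonneg (1 * c1.natAbs * c2.natAbs) P3 G3 (c3 * b)
        have z3 := nr_nonneg (1 * c2.natAbs * c3.natAbs) P1 G1 (c1 * b)
        obtain ⟨y1, hy1⟩ : ∃ y, y = nr (1 * c1.natAbs * c3.natAbs) P2 G2 (c2 * b) := ⟨_, rfl⟩
        obtain ⟨y2, hy2⟩ : ∃ y, y = nr (1 * c1.natAbs * c2.natAbs) P3 G3 (c3 * b) := ⟨_, rfl⟩
        obtain ⟨y3, hy3⟩ : ∃ y, y = nr (1 * c2.natAbs * c3.natAbs) P1 G1 (c1 * b) := ⟨_, rfl⟩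
        rw [← hy1] at z1 ⊢
        rw [← hy2] at z2 ⊢
        rw [← hy3] at z3 ⊢
        have w1 : 0 ≤ (P2 : ℝ) / Real.sqrt (c1.natAbs * c3.natAbs) * (y3 * y2) := by positivity
        have w2 : 0 ≤ (P3 : ℝ) / Real.sqrt (c1.natAbs * c2.natAbs) * (y3 * y1) := by positivity
        have w3 : 0 ≤ 1 / L ^ (A + 9) := by positivity
        nlinarith [mul_nonneg w3 w1, mul_nonneg w3 w2]
      have e2 : 0 ≤ 1 / L ^ (A + C₁ + 9) *
          ∑ j ∈ range ⌊L ^ C₁⌋₊, Sk c1 c2 c3 P1 P2 P3 G1 G2 G3 (j + 1) b := by positivity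
      linarith
    · have hs1 : |((c2.sign : ℤ) : ℝ)| = 1 := by
        rcases Int.natAbs_eq c2 with hh | hh
        · rw [hh, Int.sign_natCast_of_ne_zero ha2.ne']; simp
        · rw [hh, Int.sign_neg, Int.sign_natCast_of_ne_zero ha2.ne']; simp
      have hsu : IsUnit (c2.sign) := by
        rcases Int.natAbs_eq c2 with hh | hh
        · rw [hh, Int.sign_natCast_of_ne_zero ha2.ne']; exact isUnit_one
        · rw [hh, Int.sign_neg, Int.sign_natCast_of_ne_zero ha2.ne']; exact isUnit_one.neg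
      have hmod : ((1 * c1.natAbs * c3.natAbs : ℕ) : ℝ) = (c1.natAbs : ℝ) * c3.natAbs := by
        rw [Nat.cast_mul, Nat.cast_mul, Nat.cast_one, one_mul]
      have hnP : 1 * c1.natAbs * c3.natAbs ≤ P2 := by
        rw [one_mul]
        exact hq2
      have hl1 : 1 ≤ Real.log P2 := by linarith [hnum.h64]
      have hmn : ∑ χ : DirichletCharacter ℂ (1 * c1.natAbs * c3.natAbs),
          ‖cs (1 * c1.natAbs * c3.natAbs) P2 G2 (c2 * b) χ‖ ^ 2 ≤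
          (P2 : ℝ) ^ 2 / Real.log P2 ^ (B₀ + 2) := by
        refine hMn (1 * c1.natAbs * c3.natAbs) ?_ k (c2.sign * h) (c2 * b) ?_ ?_ ?_ ?_
        · have e := hp.q2
          rw [hmod]
          rw [Nat.cast_mul] at e
          refine e.trans (Real.rpow_le_rpow_of_exponent_le (by exact_mod_cast hP2) (by linarith))
        · exact le_trans (pow_le_pow_left₀ (by linarith) l2 _) hk
        · rw [hmod]
          have e1 : Real.log P2 ^ C₁ ≤ L ^ C₁ := pow_le_pow_left₀ (by linarith) l2 _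
          have e2 : (k : ℝ) ≤ Y := hk2'.trans hQ2a
          have e3 : (N : ℝ) < 2 * (c2.natAbs * P2) := by exact_mod_cast hp.v2
          calc (c1.natAbs : ℝ) * c3.natAbs * k * Real.log P2 ^ C₁
              ≤ (c1.natAbs : ℝ) * c3.natAbs * Y * L ^ C₁ := by gcongr
            _ = N / (3 * c2.natAbs) := by
                rw [hY, hQc]
                field_simp
            _ ≤ P2 := by
                rw [div_le_iff₀ (by positivity)]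
                nlinarith
        · exact (isCoprime_mul_unit_left_left hsu h (k : ℤ)).mpr hcop
        · have e1 : ((1 * c1.natAbs * c3.natAbs : ℕ) : ℝ) * (c2 * b) - ((c2.sign * h : ℤ) : ℝ) / k =
              (c2.sign : ℝ) * (ξ - h / k) := by
            rw [hmod, hbξ, hQc, Int.cast_mul, sg c2]
            field_simp
          rw [e1, abs_mul, hs1, one_mul]
          refine hξ.trans ?_
          rw [div_le_div_iff₀ (by positivity) (by positivity), one_mul, one_mul, sq]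
          gcongr
          linarith
      have hA := minor_sq4 (B₀ := B₀) (A₂ := A₂) (β := c2 * b) h5 hc hP2 hnP l2 l2' hnum.hA2 hnum.hc
        hnum.hB hS2.bd (hS2.nc _ (by
          have := NeZero.ne (1 * c1.natAbs * c3.natAbs)
          omega) hnP) hmn
      obtain ⟨X, hX⟩ : ∃ X : ℝ, X = P2 / Real.sqrt (c1.natAbs * c3.natAbs) * (1 / L ^ (A + 9)) := ⟨_, rfl⟩
      have hX0 : 0 ≤ X := by rw [hX]; positivity
      have hX2 : (P2 : ℝ) ^ 2 / ((1 * c1.natAbs * c3.natAbs : ℕ) * L ^ B₀) = X ^ 2 := by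
        rw [hX, mul_pow, div_pow, Real.sq_sqrt (by positivity), hmod, div_pow, one_pow, ← pow_mul,
          hnum.hB0, mul_comm (A + 9) 2]
        field_simp
      rw [hX2] at hA
      refine (minor_pt2 (P1 := P1) (P3 := P3) (G1 := G1) (G3 := G3) h2 hp.g12 hp.g13 hp.g23
        (d : ZMod (1 * c1.natAbs * c2.natAbs * c3.natAbs)) hX0 hA).trans ?_
      have e1 : X * (nr (1 * c2.natAbs * c3.natAbs) P1 G1 (c1 * b) *
          nr (1 * c1.natAbs * c2.natAbs) P3 G3 (c3 * b)) ≤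
          1 / L ^ (A + 9) * Sk c1 c2 c3 P1 P2 P3 G1 G2 G3 1 b := by
        rw [hX]
        unfold Sk
        have z1 := nr_nonneg (1 * c1.natAbs * c3.natAbs) P2 G2 (c2 * b)
        have z2 := nr_nonneg (1 * c1.natAbs * c2.natAbs) P3 G3 (c3 * b)
        have z3 := nr_nonneg (1 * c2.natAbs * c3.natAbs) P1 G1 (c1 * b)
        obtain ⟨y1, hy1⟩ : ∃ y, y = nr (1 * c1.natAbs * c3.natAbs) P2 G2 (c2 * b) := ⟨_, rfl⟩
        obtain ⟨y2, hy2⟩ : ∃ y, y = nr (1 * c1.natAbs * c2.natAbs) P3 G3 (c3 * b) := ⟨_, rfl⟩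
        obtain ⟨y3, hy3⟩ : ∃ y, y = nr (1 * c2.natAbs * c3.natAbs) P1 G1 (c1 * b) := ⟨_, rfl⟩
        rw [← hy1] at z1 ⊢
        rw [← hy2] at z2 ⊢
        rw [← hy3] at z3 ⊢
        have w1 : 0 ≤ (P1 : ℝ) / Real.sqrt (c2.natAbs * c3.natAbs) * (y1 * y2) := by positivity
        have w2 : 0 ≤ (P3 : ℝ) / Real.sqrt (c1.natAbs * c2.natAbs) * (y3 * y1) := by positivity
        have w3 : 0 ≤ 1 / L ^ (A + 9) := by positivity
        nlinarith [mul_nonneg w3 w1, mul_nonneg w3 w2]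
      have e2 : 0 ≤ 1 / L ^ (A + C₁ + 9) *
          ∑ j ∈ range ⌊L ^ C₁⌋₊, Sk c1 c2 c3 P1 P2 P3 G1 G2 G3 (j + 1) b := by positivity
      linarith
  · -- major arcs
    haveI i1 : NeZero (k * c2.natAbs * c3.natAbs) := ⟨by positivity⟩
    haveI i2 : NeZero (k * c1.natAbs * c3.natAbs) := ⟨by positivity⟩
    haveI i3 : NeZero (k * c1.natAbs * c2.natAbs) := ⟨by positivity⟩
    haveI i4 : NeZero (k * c1.natAbs * c2.natAbs * c3.natAbs) := ⟨by positivity⟩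
    obtain ⟨η, hη⟩ : ∃ η : ℝ, η = b - h / (k * c1.natAbs * c2.natAbs * c3.natAbs : ℕ) := ⟨_, rfl⟩
    have hηb : b = h / (k * c1.natAbs * c2.natAbs * c3.natAbs : ℕ) + η := by rw [hη]; ring
    have hηs : |η| ≤ 3 * L ^ C₁ / N := by
      have e1 : η = (ξ - h / k) / Q := by
        rw [hη, hbξ, Nat.cast_mul, Nat.cast_mul, Nat.cast_mul, hQc]
        field_simp
      rw [e1, abs_div, abs_of_pos hQr]
      calc |ξ - h / k| / Q ≤ (1 / ((Q2 + 1) * k)) / Q := by gcongr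
        _ ≤ (1 / (Y * 1)) / Q := by
            have : (1 : ℝ) ≤ k := by exact_mod_cast hk1
            gcongr
        _ = 3 * L ^ C₁ / N := by
            rw [hY]
            field_simp
    have hkN : (k : ℝ) ≤ Real.log N ^ C₁ := by rw [← hnum.hL]; exact hk.le
    have hW : 0 ≤ 1 / Real.log N ^ (A + 2 * C₁ + 9) := by rw [← hnum.hL]; positivity
    have hmaj := major_pt (P1 := P1) (P2 := P2) (P3 := P3) (G1 := G1) (G2 := G2) (G3 := G3) h3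
      hp.n1 hp.n2 hp.n3 hk1 hηb hW (fun d' hd' => hTPW k hk1 hkN d' hd' η
        (small_eta4 hP1 hnum.hN hp.u1 l1' hnum.hC hηs)
        (small_eta4 hP2 hnum.hN hp.u2 l2' hnum.hC hηs)
        (small_eta4 hP3 hnum.hN hp.u3 l3' hnum.hC hηs))
    refine hmaj.trans ?_
    have e1 : (k : ℝ) * (1 / Real.log N ^ (A + 2 * C₁ + 9) * Sk c1 c2 c3 P1 P2 P3 G1 G2 G3 k b) ≤
        1 / L ^ (A + C₁ + 9) * Sk c1 c2 c3 P1 P2 P3 G1 G2 G3 k b := by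
      rw [← hnum.hL, ← mul_assoc]
      refine mul_le_mul_of_nonneg_right ?_ (hSk _ _)
      calc (k : ℝ) * (1 / L ^ (A + 2 * C₁ + 9)) ≤ L ^ C₁ * (1 / L ^ (A + 2 * C₁ + 9)) := by gcongr
        _ = 1 / L ^ (A + C₁ + 9) := by
            rw [show A + 2 * C₁ + 9 = C₁ + (A + C₁ + 9) by ring, pow_add L C₁]
            field_simp
    refine e1.trans ?_
    have e2 : Sk c1 c2 c3 P1 P2 P3 G1 G2 G3 k b ≤
        ∑ j ∈ range ⌊L ^ C₁⌋₊, Sk c1 c2 c3 P1 P2 P3 G1 G2 G3 (j + 1) b := by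
      have hmem : k - 1 ∈ range ⌊L ^ C₁⌋₊ := by
        rw [Finset.mem_range]
        have : k ≤ ⌊L ^ C₁⌋₊ := Nat.le_floor hk.le
        omega
      have e3 := Finset.single_le_sum
        (f := fun j => Sk c1 c2 c3 P1 P2 P3 G1 G2 G3 (j + 1) b) (fun j _ => hSk (j + 1) b) hmem
      simp only [show k - 1 + 1 = k by omega] at e3
      exact e3
    have e3 : 1 / L ^ (A + C₁ + 9) * Sk c1 c2 c3 P1 P2 P3 G1 G2 G3 k b ≤
        1 / L ^ (A + C₁ + 9) *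
          ∑ j ∈ range ⌊L ^ C₁⌋₊, Sk c1 c2 c3 P1 P2 P3 G1 G2 G3 (j + 1) b :=
      mul_le_mul_of_nonneg_left e2 (by positivity)
    have e4 : 0 ≤ 1 / L ^ (A + 9) * Sk c1 c2 c3 P1 P2 P3 G1 G2 G3 1 b :=
      mul_nonneg (by positivity) (hSk _ _)
    linarith

theorem tern3 (h1 : TPW3Stm) (h2 : TNormStm) (h3 : TLiftStm) (h4 : TParsStm) (h5 : OrthStm)
    (h6 : NonUStm) : Tern3Stm := by
  classical
  intro A T ρ hρ
  obtain ⟨c, hc⟩ := h6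
  obtain ⟨B₀, hB₀⟩ : ∃ B₀ : ℕ, B₀ = 2 * (A + 9) := ⟨_, rfl⟩
  refine ⟨B₀ + 2, fun C₁ => ?_⟩
  obtain ⟨A₂', hA₂'⟩ := h1 (A + 2 * C₁ + 9) T ρ hρ C₁
  obtain ⟨A₂, hA₂⟩ : ∃ A₂ : ℕ, A₂ = max A₂' (c + 2 * B₀ + 1) := ⟨_, rfl⟩
  refine ⟨A₂, fun C₃ => ?_⟩
  obtain ⟨K, U, N₁, hU⟩ := hA₂' C₃
  obtain ⟨N₂, hN₂⟩ := ev_log_le (9 * C₁) 19683
  obtain ⟨N₃, hN₃⟩ := ev_log_ge (64 + 16 * (4 : ℝ) ^ (c + A₂) + 2 * (4 : ℝ) ^ (B₀ + 3) +
    (4 : ℝ) ^ (C₁ + 2))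
  refine ⟨K, U, max (max N₁ N₂) (max N₃ 1), ?_⟩
  intro N hN c1 c2 c3 d P1 P2 P3 hp G1 G2 G3 hM hS1 hS2 hS3 hsml
  have hNN1 : N₁ ≤ N := le_trans (le_trans (le_max_left _ _) (le_max_left _ _)) hN
  have hNN2 : N₂ ≤ N := le_trans (le_trans (le_max_right _ _) (le_max_left _ _)) hN
  have hNN3 : N₃ ≤ N := le_trans (le_trans (le_max_left _ _) (le_max_right _ _)) hN
  have hN1 : 1 ≤ N := le_trans (le_trans (le_max_right _ _) (le_max_right _ _)) hN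
  obtain ⟨L, hL⟩ : ∃ L, L = Real.log N := ⟨_, rfl⟩
  have hK := hN₃ N hNN3
  rw [← hL] at hK
  have k1 : (0 : ℝ) < (4 : ℝ) ^ (c + A₂) := by positivity
  have k2 : (0 : ℝ) < (4 : ℝ) ^ (B₀ + 3) := by positivity
  have k3 : (0 : ℝ) < (4 : ℝ) ^ (C₁ + 2) := by positivity
  have hnum : Nums4 A C₁ B₀ c A₂ N L := by
    refine ⟨hN1, hL, by linarith, by linarith, by linarith, by linarith, ?_, ?_, hB₀⟩
    · rw [hL]; exact hN₂ N hNN2
    · rw [hA₂]; exact le_max_right _ _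
  have hL64 : 64 ≤ L := hnum.h64
  have hL0 : 0 < L := by linarith
  have ha1 : 0 < c1.natAbs := Int.natAbs_pos.mpr hp.n1
  have ha2 : 0 < c2.natAbs := Int.natAbs_pos.mpr hp.n2
  have ha3 : 0 < c3.natAbs := Int.natAbs_pos.mpr hp.n3
  have hPpos : ∀ {a P : ℕ}, N < 2 * (a * P) → 1 ≤ P := by
    intro a P h
    rcases Nat.eq_zero_or_pos P with h0 | h0
    · rw [h0] at h; omega
    · exact h0
  have hP1 : 1 ≤ P1 := hPpos hp.v1
  have hP2 : 1 ≤ P2 := hPpos hp.v2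
  have hP3 : 1 ≤ P3 := hPpos hp.v3
  have s1 : (c2.natAbs * c3.natAbs) ^ 3 ≤ P1 ^ 2 := cube_le_of_rpow hP1 hρ hp.q1
  have s2 : (c1.natAbs * c3.natAbs) ^ 3 ≤ P2 ^ 2 := cube_le_of_rpow hP2 hρ hp.q2
  have s3 : (c1.natAbs * c2.natAbs) ^ 3 ≤ P3 ^ 2 := cube_le_of_rpow hP3 hρ hp.q3
  obtain ⟨hQN, z1⟩ := sizes4 ha2 s1 s2 ha3 hp.u1 hp.u2 hp.v1
  obtain ⟨_, z2⟩ := sizes4 ha1 s2 s1 ha3 hp.u2 hp.u1 hp.v2
  obtain ⟨_, z3⟩ := sizes4 (a1 := c3.natAbs) (a2 := c1.natAbs) (a3 := c2.natAbs) (P1 := P3)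
    (P2 := P1) (N := N) ha1 s3 (by rw [mul_comm]; exact s1) ha2 hp.u3 hp.u1 hp.v3
  have l1' := log_low4 hN1 hP1 z1 (by rw [← hL]; exact hL64)
  have l2' := log_low4 hN1 hP2 z2 (by rw [← hL]; exact hL64)
  have l3' := log_low4 hN1 hP3 z3 (by rw [← hL]; exact hL64)
  rw [← hL] at l1' l2' l3'
  have hup : ∀ {a P : ℕ}, 0 < a → 1 ≤ P → a * P ≤ N → Real.log P ≤ L := by
    intro a P h0 hP h
    rw [hL]
    apply Real.log_le_log (by exact_mod_cast (show 0 < P by omega))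
    exact_mod_cast (Nat.le_mul_of_pos_left P h0).trans h
  have l1 := hup ha1 hP1 hp.u1
  have l2 := hup ha2 hP2 hp.u2
  have l3 := hup ha3 hP3 hp.u3
  haveI i1 : NeZero (1 * c2.natAbs * c3.natAbs) := ⟨by positivity⟩
  haveI i2 : NeZero (1 * c1.natAbs * c3.natAbs) := ⟨by positivity⟩
  haveI i3 : NeZero (1 * c1.natAbs * c2.natAbs) := ⟨by positivity⟩
  obtain ⟨M, hMd⟩ : ∃ M : ℕ, M = 5 * N := ⟨_, rfl⟩
  have hM1 : 1 ≤ M := by omega
  have hM0 : (0 : ℝ) < M := by exact_mod_cast (show 0 < M by omega)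
  have hA2' : A₂' ≤ A₂ := by rw [hA₂]; exact le_max_left _ _
  have hq1 := h4.1 c1 c2 c3 d P1 P2 P3 M G1 G2 G3 (by
    have e0 : d.natAbs ≤ N := by
      have := hp.hd
      have h9 : (d.natAbs : ℤ) = |d| := Int.natCast_natAbs d
      omega
    have e1 := hp.u1
    have e2 := hp.u2
    have e3 := hp.u3
    have e4 : M ≤ M * (c1.natAbs * c2.natAbs * c3.natAbs) := Nat.le_mul_of_pos_right _ (by positivity)
    omega)
  have hpt := fun t => point4 (b := (t : ℝ) / (M * (c1.natAbs * c2.natAbs * c3.natAbs) : ℕ)) C₃ hnum hρ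
    h2 h3 h5 hc hp hM hS1 hS2 hP1 hP2 hP3 l1 l2 l1' l2' l3' (le_of_cube s1 hP1) (le_of_cube s2 hP2) hQN
    (fun k _ _ _ => hU N hNN1 hp G1 G2 G3 (str3_mono hS1 hA2' (by linarith))
      (str3_mono hS2 hA2' (by linarith)) (str3_mono hS3 hA2' (by linarith)) hsml k) hM1 t rfl
  have hmean := fun k (hk : 1 ≤ k) => mean_Sk (k := k) (G1 := G1) (G2 := G2) (G3 := G3)
    (R := M * (c1.natAbs * c2.natAbs * c3.natAbs)) h4 hp.n1 hp.n2 hp.n3 hk hM1 hp.u1 hp.u2 hp.u3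
    (by omega) hL0.le (sum_sq_le hP1 l1 hL64 hS1.bd) (sum_sq_le hP2 l2 hL64 hS2.bd)
    (sum_sq_le hP3 l3 hL64 hS3.bd) rfl
  obtain ⟨Z, hZ⟩ : ∃ Z : ℝ, Z = (N : ℝ) ^ 2 / (c1.natAbs * c2.natAbs * c3.natAbs) := ⟨_, rfl⟩
  rw [← hZ] at hmean ⊢
  have hZ0 : 0 ≤ Z := by rw [hZ]; positivity
  have htot : (M : ℝ) * ‖SS3 c1 c2 c3 d P1 P2 P3 G1 G2 G3‖ ≤
      1 / L ^ (A + 9) * (M * (3 * Z * L ^ 7)) +
      1 / L ^ (A + C₁ + 9) * (L ^ C₁ * (M * (3 * Z * L ^ 7))) := by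
    refine hq1.trans ((Finset.sum_le_sum fun t _ => hpt t).trans ?_)
    rw [Finset.sum_add_distrib, ← Finset.mul_sum, ← Finset.mul_sum, Finset.sum_comm]
    refine add_le_add (mul_le_mul_of_nonneg_left (hmean 1 le_rfl) (by positivity))
      (mul_le_mul_of_nonneg_left ?_ (by positivity))
    refine (Finset.sum_le_card_nsmul _ _ (M * (3 * Z * L ^ 7)) fun j _ =>
      hmean (j + 1) (by omega)).trans ?_
    rw [nsmul_eq_mul, Finset.card_range]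
    refine mul_le_mul_of_nonneg_right (Nat.floor_le (by positivity)) (by positivity)
  have hfin : (M : ℝ) * ‖SS3 c1 c2 c3 d P1 P2 P3 G1 G2 G3‖ ≤ M * (Z / L ^ A) := by
    refine htot.trans ?_
    have e1 : 1 / L ^ (A + 9) * (M * (3 * Z * L ^ 7)) +
        1 / L ^ (A + C₁ + 9) * (L ^ C₁ * (M * (3 * Z * L ^ 7))) = M * (Z / L ^ A) * (6 / L ^ 2) := by
      rw [pow_add L A 9, show A + C₁ + 9 = A + (C₁ + 9) by ring, pow_add L A (C₁ + 9), pow_add L C₁ 9]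
      field_simp
      ring
    rw [e1]
    have e2 : 6 / L ^ 2 ≤ 1 := by
      rw [div_le_one (by positivity)]
      nlinarith
    calc M * (Z / L ^ A) * (6 / L ^ 2) ≤ M * (Z / L ^ A) * 1 :=
          mul_le_mul_of_nonneg_left e2 (by positivity)
      _ = _ := by ring
  have := le_of_mul_le_mul_left hfin hM0
  rwa [hL] at this

end Pool.Agent.H7.BK
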