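import Pool.Agent.H7.BK.Solve3
import Pool.Graph.R_seed8.Y883.GJ.Final7

set_option autoImplicit false

/-! The ternary equation: all scales and signs. -/

namespace Pool.Agent.H7.BK

open Finset
open Pool.Agent.Y883.T5
open Pool.Agent.Y883.T6
open Pool.Agent.Y883.GJ

theorem fixed3 (hE : Low3Stm) (θ : ℝ) (hθ : 3 / 2 < θ) (T : ℕ) : ∃ c₀ : ℕ, ∀ Δ a1 a2 a3 : ℕ, c₀ ≤ Δ → ∀ d : ℤ,
    Cnd7 T Δ a1 a2 a3 d.natAbs → Adm a1 a2 a3 d →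
      ∃ x y z : ℕ, x.Prime ∧ y.Prime ∧ z.Prime ∧ (a1 : ℤ) * x + a2 * y = d + a3 * z ∧
        ((max (a1 * x) (max (a2 * y) (a3 * z)) : ℕ) : ℝ) ≤ 3 * |(d : ℝ)| + (min a1 (min a2 a3) : ℕ) * (Δ : ℝ) ^ θ := by
  obtain ⟨θ₁, hθ₁⟩ : ∃ θ₁ : ℝ, θ₁ = (θ + 3 / 2) / 2 := ⟨_, rfl⟩
  have hθ12 : 3 / 2 < θ₁ := by rw [hθ₁]; linarith
  obtain ⟨δ, hδ⟩ : ∃ δ : ℝ, δ = θ - θ₁ := ⟨_, rfl⟩
  have hδ0 : 0 < δ := by rw [hδ, hθ₁]; linarith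
  obtain ⟨ρ, hρ⟩ : ∃ ρ : ℝ, ρ = 2 / 3 - 1 / θ₁ := ⟨_, rfl⟩
  have hρ0 : 0 < ρ := by
    rw [hρ]
    have : 1 / θ₁ < 1 / (3 / 2 : ℝ) := one_div_lt_one_div_of_lt (by norm_num) hθ12
    have e : 1 / (3 / 2 : ℝ) = 2 / 3 := by norm_num
    linarith
  obtain ⟨N₂, h2⟩ := solve3 hE T ρ hρ0
  obtain ⟨c₀, hc₀⟩ := exists_nat_ge ((6 : ℝ) ^ (1 / δ))
  refine ⟨c₀ + N₂ + 2, fun Δ a1 a2 a3 hΔ d hC hadm => ?_⟩
  have hθ1' : 1 ≤ θ₁ := by linarith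
  have hΔ1 : 1 ≤ Δ := by omega
  have hΔ0 : (0 : ℝ) < Δ := by exact_mod_cast hΔ1
  have hΔ1r : (1 : ℝ) ≤ Δ := by exact_mod_cast hΔ1
  have hcΔ : (c₀ : ℝ) ≤ Δ := by exact_mod_cast (by omega : c₀ ≤ Δ)
  have hΔ6 : (6 : ℝ) ^ (1 / δ) ≤ Δ := hc₀.trans hcΔ
  have hp1 := hC.p1
  have hp2 := hC.p2
  have hp3 := hC.p3
  obtain ⟨Yc, hYc⟩ : ∃ Yc : ℕ, Yc = ⌈(Δ : ℝ) ^ θ₁⌉₊ := ⟨_, rfl⟩
  have hYc1 : (Δ : ℝ) ^ θ₁ ≤ Yc := by rw [hYc]; exact Nat.le_ceil _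
  have hYc2 : (Yc : ℝ) < (Δ : ℝ) ^ θ₁ + 1 := by rw [hYc]; exact Nat.ceil_lt_add_one (by positivity)
  have hΔΔ : (Δ : ℝ) ≤ (Δ : ℝ) ^ θ₁ := by
    calc (Δ : ℝ) = (Δ : ℝ) ^ (1 : ℝ) := (Real.rpow_one _).symm
      _ ≤ _ := Real.rpow_le_rpow_of_exponent_le hΔ1r hθ1'
  have hΔYc : Δ ≤ Yc := by exact_mod_cast hΔΔ.trans hYc1
  obtain ⟨μ, hμ⟩ : ∃ μ, μ = min a1 (min a2 a3) := ⟨_, rfl⟩
  have hμ1 : 1 ≤ μ := by omega
  have hμr : (1 : ℝ) ≤ μ := by exact_mod_cast hμ1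
  obtain ⟨N, hN⟩ : ∃ N, N = 3 * max d.natAbs (μ * Yc) := ⟨_, rfl⟩
  have hdN : 3 * |d| ≤ N := by
    rw [← Int.natCast_natAbs, hN]
    have := le_max_left d.natAbs (μ * Yc)
    exact_mod_cast Nat.mul_le_mul_left 3 this
  have hYN : 3 * (μ * Yc) ≤ N := by
    rw [hN]
    exact Nat.mul_le_mul_left 3 (le_max_right _ _)
  have hYμ : Yc ≤ μ * Yc := Nat.le_mul_of_pos_left _ hμ1
  have hΔN : Δ ≤ N := by omega
  have hN1 : 1 ≤ N := by omega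
  have hN0 : (0 : ℝ) < N := by exact_mod_cast hN1
  have hYNr : 3 * ((μ : ℝ) * Yc) ≤ N := by exact_mod_cast hYN
  have hμN : 3 * ((μ : ℝ) * (Δ : ℝ) ^ θ₁) ≤ N := by
    refine le_trans ?_ hYNr
    have : (μ : ℝ) * (Δ : ℝ) ^ θ₁ ≤ μ * Yc := mul_le_mul_of_nonneg_left hYc1 (by positivity)
    linarith
  have ha1Δ : a1 ≤ Δ := (Nat.le_mul_of_pos_right _ hp2).trans hC.u12
  have ha2Δ : a2 ≤ Δ := (Nat.le_mul_of_pos_right _ hp3).trans hC.u23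
  have ha3Δ : a3 ≤ Δ := (Nat.le_mul_of_pos_right _ hp1).trans hC.u31
  obtain ⟨k1, hk1⟩ : ∃ k1, k1 = Nat.log 2 (N / a1) := ⟨_, rfl⟩
  obtain ⟨k2, hk2⟩ : ∃ k2, k2 = Nat.log 2 (N / a2) := ⟨_, rfl⟩
  obtain ⟨k3, hk3⟩ : ∃ k3, k3 = Nat.log 2 (N / a3) := ⟨_, rfl⟩
  obtain ⟨u1, v1⟩ := len_spec hp1 (by omega : a1 ≤ N)
  obtain ⟨u2, v2⟩ := len_spec hp2 (by omega : a2 ≤ N)
  obtain ⟨u3, v3⟩ := len_spec hp3 (by omega : a3 ≤ N)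
  rw [← hk1] at u1 v1
  rw [← hk2] at u2 v2
  rw [← hk3] at u3 v3
  have hlogΔ : Real.log Δ ≤ Real.log N := Real.log_le_log hΔ0 (by exact_mod_cast hΔN)
  have hlogΔ0 : 0 ≤ Real.log Δ := Real.log_nonneg hΔ1r
  have hpow : Real.log Δ ^ T ≤ Real.log N ^ T := pow_le_pow_left₀ hlogΔ0 hlogΔ _
  have hprod := hC.prod
  rw [← hμ] at hprod
  have hex : 2 / 3 - ρ = 1 / θ₁ := by rw [hρ]; ring
  have hlen : ∀ a b P : ℕ, 1 ≤ a → 1 ≤ b → b ≤ Δ → a * b ≤ μ * Δ → N < 2 * (a * P) →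
      (b : ℝ) ≤ (P : ℝ) ^ (2 / 3 - ρ) := by
    intro a b P ha hb hbΔ hab hNa
    have h5 := len_pow hθ1' ha hb hbΔ hab hμN hNa
    have hb0 : (0 : ℝ) ≤ b := Nat.cast_nonneg _
    rw [hex]
    calc (b : ℝ) = ((b : ℝ) ^ θ₁) ^ (1 / θ₁) := by
          rw [← Real.rpow_mul hb0, mul_one_div_cancel (by linarith), Real.rpow_one]
      _ ≤ (P : ℝ) ^ (1 / θ₁) := Real.rpow_le_rpow (by positivity) h5 (by positivity)
  have hna1 : ((a1 : ℤ)).natAbs = a1 := Int.natAbs_natCast _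
  have hna2 : ((a2 : ℤ)).natAbs = a2 := Int.natAbs_natCast _
  have hna3 : (-(a3 : ℤ)).natAbs = a3 := by rw [Int.natAbs_neg, Int.natAbs_natCast]
  have hpar : Par3 ρ N T (a1 : ℤ) (a2 : ℤ) (-(a3 : ℤ)) d (2 ^ k1) (2 ^ k2) (2 ^ k3) := by
    refine ⟨by omega, by omega, by omega, by rw [hna1]; exact u1, by rw [hna2]; exact u2, by rw [hna3]; exact u3,
      by rw [hna1]; exact v1, by rw [hna2]; exact v2, by rw [hna3]; exact v3, hdN, ?_, ?_, ?_, ?_, ?_, ?_, ?_⟩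
    · rw [hna2, hna3]
      exact hlen a1 (a2 * a3) _ hp1 (Nat.mul_pos hp2 hp3) hC.u23 hprod v1
    · rw [hna1, hna3, mul_comm a1 a3]
      exact hlen a2 (a3 * a1) _ hp2 (Nat.mul_pos hp3 hp1) hC.u31 (by
        calc a2 * (a3 * a1) = a1 * (a2 * a3) := by ring
          _ ≤ _ := hprod) v2
    · rw [hna1, hna2]
      exact hlen a3 (a1 * a2) _ hp3 (Nat.mul_pos hp1 hp2) hC.u12 (by
        calc a3 * (a1 * a2) = a1 * (a2 * a3) := by ring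
          _ ≤ _ := hprod) v3
    · exact Nat.isCoprime_iff_coprime.2 hC.g12
    · have : IsCoprime (a1 : ℤ) (a3 : ℤ) := Nat.isCoprime_iff_coprime.2 (by rw [Nat.coprime_comm]; exact hC.g31)
      exact this.neg_right
    · have : IsCoprime (a2 : ℤ) (a3 : ℤ) := Nat.isCoprime_iff_coprime.2 hC.g23
      exact this.neg_right
    · rw [hna1, hna2, hna3]
      exact hC.gd.trans hpow
  obtain ⟨x, y, z, g1, g2, g3, g4, g5, g6, g7⟩ := h2 N (by omega) hpar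
    (by exact_mod_cast hp1) (by exact_mod_cast hp2) (by
      have : (0 : ℤ) < a3 := by exact_mod_cast hp3
      linarith) (by rw [neg_neg]; exact hadm)
  refine ⟨x, y, z, g1, g2, g3, by linarith, ?_⟩
  have hmax : max (a1 * x) (max (a2 * y) (a3 * z)) ≤ N := max_le ((Nat.mul_le_mul_left _ g5).trans u1)
    (max_le ((Nat.mul_le_mul_left _ g6).trans u2) ((Nat.mul_le_mul_left _ g7).trans u3))
  have hmaxr : ((max (a1 * x) (max (a2 * y) (a3 * z)) : ℕ) : ℝ) ≤ N := by exact_mod_cast hmax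
  refine hmaxr.trans ?_
  rw [← hμ]
  have hd0 : 0 ≤ |(d : ℝ)| := abs_nonneg _
  have hpos : 0 ≤ (μ : ℝ) * (Δ : ℝ) ^ θ := by positivity
  rcases le_total d.natAbs (μ * Yc) with h | h
  · have hNe : N = 3 * (μ * Yc) := by rw [hN, max_eq_right h]
    have hNer : (N : ℝ) = μ * (3 * Yc) := by rw [hNe]; push_cast; ring
    rw [hNer]
    have e1 : 1 ≤ (Δ : ℝ) ^ θ₁ := hΔ1r.trans hΔΔ
    have e2 : (6 : ℝ) ≤ (Δ : ℝ) ^ δ := by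
      calc (6 : ℝ) = ((6 : ℝ) ^ (1 / δ)) ^ δ := by
            rw [← Real.rpow_mul (by norm_num), one_div_mul_cancel hδ0.ne', Real.rpow_one]
        _ ≤ (Δ : ℝ) ^ δ := Real.rpow_le_rpow (by positivity) hΔ6 hδ0.le
    have e3 : 3 * (Yc : ℝ) ≤ (Δ : ℝ) ^ θ := by
      calc 3 * (Yc : ℝ) ≤ 6 * (Δ : ℝ) ^ θ₁ := by linarith
        _ ≤ (Δ : ℝ) ^ δ * (Δ : ℝ) ^ θ₁ := mul_le_mul_of_nonneg_right e2 (by positivity)
        _ = (Δ : ℝ) ^ (δ + θ₁) := (Real.rpow_add hΔ0 _ _).symm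
        _ = (Δ : ℝ) ^ θ := by congr 1; rw [hδ]; ring
    have e4 : (μ : ℝ) * (3 * Yc) ≤ μ * (Δ : ℝ) ^ θ := mul_le_mul_of_nonneg_left e3 (by positivity)
    linarith
  · have hNe : N = 3 * d.natAbs := by rw [hN, max_eq_left h]
    rw [hNe]
    push_cast
    rw [Nat.cast_natAbs]
    push_cast
    linarith

/-- all admissible equations with pairwise coprime coefficients -/
theorem main3 (hE : Low3Stm) (θ : ℝ) (hθ : 3 / 2 < θ) (T : ℕ) : ∃ Δ₀ : ℕ, ∀ a b c d : ℤ, Admissible a b c d →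
    Int.gcd a b = 1 → Int.gcd b c = 1 → Int.gcd c a = 1 → ∀ Δ : ℕ,
    Δ = max (a * b).natAbs (max (b * c).natAbs (c * a).natAbs) → Δ₀ ≤ Δ →
    (Int.gcd d (a * b * c) : ℝ) ≤ Real.log Δ ^ T → Sol6 θ Δ a b c d := by
  obtain ⟨c₀, h0⟩ := fixed3 hE θ hθ T
  refine ⟨c₀, fun a b c d hadm h1 h2 h3 Δ hΔ hΔ0 hg => ?_⟩
  refine sol_all7 (T := T) (fun a1 a2 a3 d' hC hA => h0 Δ a1 a2 a3 hΔ0 d' hC hA) hadm ?_
  have e1 : (a * b).natAbs = a.natAbs * b.natAbs := Int.natAbs_mul _ _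
  have e2 : (b * c).natAbs = b.natAbs * c.natAbs := Int.natAbs_mul _ _
  have e3 : (c * a).natAbs = c.natAbs * a.natAbs := Int.natAbs_mul _ _
  rw [e1, e2, e3] at hΔ
  refine ⟨Int.natAbs_pos.2 hadm.a_ne, Int.natAbs_pos.2 hadm.b_ne, Int.natAbs_pos.2 hadm.c_ne, by omega, by omega,
    by omega, by omega, h1, h2, h3, ?_⟩
  have e4 : Nat.gcd d.natAbs (a.natAbs * b.natAbs * c.natAbs) = Int.gcd d (a * b * c) := by
    rw [Int.gcd_def, Int.natAbs_mul, Int.natAbs_mul]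
  rw [e4]
  exact hg

end Pool.Agent.H7.BK
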