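import Pool.Agent.H7.BK.Sieve3

set_option autoImplicit false

/-! The lower bound of the vector sieve for the ternary equation. -/

namespace Pool.Agent.H7.BK

open Finset
open Pool.Agent.H373R2.T7 (lamz Vz pz Vz_pos lamz_nonneg lamz_ap)
open Pool.Agent.Y883.T3 (lsh)
open Pool.Agent.Y883.GJ
open Pool.Agent.Y883.T6 (S3 zP)
open Pool.Agent.Y949.GJ (LZ divpow divpow2 zP_bounds S3_coe)
open Pool.Agent.R460.GS (GG HH f0 gr Wt ZZ WB MGStm NGStm MHStm NHStm WtbStm WtdStm ApgStm)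

lemma unscale {k L x : ℝ} {X Y : ℂ} (hk : 0 < k) (hkL : 1 ≤ L * k) (hL : 0 ≤ L)
    (h : ‖(k : ℂ) * X - (k : ℂ) * Y‖ ≤ x) : ‖X - Y‖ ≤ L * x := by
  have h1 : ‖(k : ℂ) * X - (k : ℂ) * Y‖ = k * ‖X - Y‖ := by
    rw [← mul_sub, norm_mul, Complex.norm_real, Real.norm_of_nonneg hk.le]
  rw [h1] at h
  calc ‖X - Y‖ = 1 * ‖X - Y‖ := (one_mul _).symm
    _ ≤ (L * k) * ‖X - Y‖ := mul_le_mul_of_nonneg_right hkL (norm_nonneg _)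
    _ = L * (k * ‖X - Y‖) := by ring
    _ ≤ L * x := mul_le_mul_of_nonneg_left h hL

lemma FF_eq (z r : ℕ) : (fun n => LA n - LS z r n) = FF z r := by
  funext n
  unfold LA LS FF
  push_cast
  ring

lemma f0_eq (κ : ℝ) (P z r : ℕ) :
    (fun n => sm κ (GG P) n - sm κ (HH P z r) n) = sm κ (f0 P z r) := by
  funext n
  unfold sm f0
  ring

lemma real_diff (c1 c2 c3 d : ℤ) (P1 P2 P3 : ℕ) (g1 g2 g3 h1 h2 h3 : ℕ → ℝ) :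
    |S3 c1 c2 c3 d P1 P2 P3 g1 g2 g3 - S3 c1 c2 c3 d P1 P2 P3 h1 h2 h3| =
    ‖SS3 c1 c2 c3 d P1 P2 P3 (fun n => ((g1 n : ℝ) : ℂ)) (fun n => ((g2 n : ℝ) : ℂ)) (fun n => ((g3 n : ℝ) : ℂ)) -
      SS3 c1 c2 c3 d P1 P2 P3 (fun n => ((h1 n : ℝ) : ℂ)) (fun n => ((h2 n : ℝ) : ℂ))
        (fun n => ((h3 n : ℝ) : ℂ))‖ := by
  rw [← Real.norm_eq_abs, ← Complex.norm_real, Complex.ofReal_sub, S3_coe, S3_coe]

theorem low3 (hTern : Tern3Stm) (hMajL : MajL3Stm) (hMajH : MajH3Stm) (hMG : MGStm) (hNG : NGStm)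
    (hMH : MHStm) (hNH : NHStm) (hWtb : WtbStm) (hWtd : WtdStm) (hApg : ApgStm) (hModel : ModelStm)
    (hSC : SmallCStm) (hHold : HoldStm) : Low3Stm := by
  intro A T B₀ ρ hρ
  have h30 : (0 : ℝ) < 1 / 30 := by norm_num
  obtain ⟨A1, h1⟩ := hTern (A + 4) T ρ hρ
  obtain ⟨Cg, Ng, hg⟩ := hNG (A1 + 2) (1 / 30) h30
  obtain ⟨Ch, Nh, hh⟩ := hNH (A1 + 2) (1 / 30) h30
  obtain ⟨A2, h1⟩ := h1 (max Cg Ch)
  obtain ⟨C3, c, hc0, hsc⟩ := all_scales hMajL hMajH hMG hMH hWtb hApg hModel hSC hρ A1 Cg Ch ⟨Ng, hg⟩ ⟨Nh, hh⟩ A2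
  obtain ⟨K, U, NT, hT⟩ := h1 C3
  obtain ⟨V, hV⟩ : ∃ V : ℕ, V = 2 * A + 26 := ⟨_, rfl⟩
  obtain ⟨B, hB0, P₀, hsc⟩ := hsc K U V B₀
  obtain ⟨PE, hE⟩ := eP V
  obtain ⟨PD, hD⟩ := hWtd (V + 2)
  obtain ⟨Nl, hNl⟩ := Pool.Agent.TH935.LD.ev_L' (64 + 2 * 4 ^ V + (1 + 3 * c) ^ 2 + c ^ 2)
  obtain ⟨Pm, hPm⟩ : ∃ Pm : ℕ, Pm = P₀ + PE + PD + 1 := ⟨_, rfl⟩
  refine ⟨B, hB0, NT + Nl + 8 * (Pm + 8) ^ 3, fun N hN c1 c2 c3 d P1 P2 P3 hp => ?_⟩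
  have hNP : 8 * (Pm + 8) ^ 3 ≤ N := by omega
  have hLN := hNl N (by omega)
  obtain ⟨L, hLd⟩ : ∃ L, L = Real.log (N : ℝ) := ⟨_, rfl⟩
  rw [← hLd] at hLN
  have h4V : (1 : ℝ) ≤ 4 ^ V := one_le_pow₀ (by norm_num)
  have hcc : 0 ≤ c ^ 2 := sq_nonneg c
  have hcc' : 0 ≤ (1 + 3 * c) ^ 2 := sq_nonneg _
  have hL64 : 64 ≤ L := by linarith
  have hL4V : 2 * 4 ^ V ≤ L := by linarith
  have hLc2 : (1 + 3 * c) ^ 2 ≤ L := by linarith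
  have hLcc : c ^ 2 + 1 ≤ L := by linarith
  have hL0 : 0 < L := by linarith
  have hL1 : 1 ≤ L := by linarith
  have hp' := rot3 hp
  have hp'' := rot3 hp'
  obtain ⟨p1, p1', l1, m1, q1⟩ := size3 hρ Pm hNP (by rw [← hLd]; exact hL64) hp
  obtain ⟨p2, p2', l2, m2, -⟩ := size3 hρ Pm hNP (by rw [← hLd]; exact hL64) hp'
  obtain ⟨p3, p3', l3, m3, -⟩ := size3 hρ Pm hNP (by rw [← hLd]; exact hL64) hp''
  rw [← hLd] at l1 l2 l3 m1 m2 m3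
  obtain ⟨w1, r1, v1, s1⟩ := hsc P1 (by omega)
  obtain ⟨w2, r2, v2, s2⟩ := hsc P2 (by omega)
  obtain ⟨w3, r3, v3, s3⟩ := hsc P3 (by omega)
  obtain ⟨z1, hz1⟩ : ∃ z1, z1 = zP B P1 := ⟨_, rfl⟩
  obtain ⟨z2, hz2⟩ : ∃ z2, z2 = zP B P2 := ⟨_, rfl⟩
  obtain ⟨z3, hz3⟩ : ∃ z3, z3 = zP B P3 := ⟨_, rfl⟩
  rw [← hz1] at v1 s1 ⊢
  rw [← hz2] at v2 s2 ⊢
  rw [← hz3] at v3 s3 ⊢
  have k1 := q3_of w1 p1' s1 l1 m1 (by linarith) (by linarith) v1 (hE P1 (by omega))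
  have k2 := q3_of w2 p2' s2 l2 m2 (by linarith) (by linarith) v2 (hE P2 (by omega))
  have k3 := q3_of w3 p3' s3 l3 m3 (by linarith) (by linarith) v3 (hE P3 (by omega))
  have d1 := fun n hn hn' => hD P1 (by omega) n hn hn'
  have d2 := fun n hn hn' => hD P2 (by omega) n hn hn'
  obtain ⟨κ, hκ⟩ : ∃ κ : ℝ, κ = 1 / (1 + 3 * c) := ⟨_, rfl⟩
  rw [← hκ] at s1 s2 s3
  have hκ0 : 0 < κ := by rw [hκ]; positivity
  have hκc : κ * (1 + 3 * c) = 1 := by rw [hκ]; field_simp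
  have hκL : 1 ≤ L * κ := by
    have h5 : 1 + 3 * c ≤ L := by nlinarith
    calc (1 : ℝ) = (1 + 3 * c) * κ := by rw [mul_comm]; exact hκc.symm
      _ ≤ L * κ := mul_le_mul_of_nonneg_right h5 hκ0.le
  have hκL2 : 1 ≤ L * (κ * κ) := by
    calc (1 : ℝ) = (κ * (1 + 3 * c)) ^ 2 := by rw [hκc]; norm_num
      _ = (1 + 3 * c) ^ 2 * (κ * κ) := by ring
      _ ≤ L * (κ * κ) := mul_le_mul_of_nonneg_right hLc2 (by positivity)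
  have ha1 : (0 : ℝ) < c1.natAbs := by exact_mod_cast Int.natAbs_pos.2 hp.n1
  have ha2 : (0 : ℝ) < c2.natAbs := by exact_mod_cast Int.natAbs_pos.2 hp.n2
  have ha3 : (0 : ℝ) < c3.natAbs := by exact_mod_cast Int.natAbs_pos.2 hp.n3
  obtain ⟨μ, hμ⟩ : ∃ μ : ℝ, μ = (N : ℝ) ^ 2 / (c1.natAbs * c2.natAbs * c3.natAbs) := ⟨_, rfl⟩
  have hμ0 : 0 ≤ μ := by rw [hμ]; positivity
  obtain ⟨ε, hε⟩ : ∃ ε : ℝ, ε = μ / L ^ (A + 3) := ⟨_, rfl⟩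
  have hε0 : 0 ≤ ε := by rw [hε]; positivity
  have hεL : L * (μ / L ^ (A + 4)) = ε := by
    rw [hε, pow_succ L (A + 3)]
    field_simp
  have hε4 : μ / L ^ (A + 4) ≤ ε := by
    rw [hε]
    exact divpow hμ0 hL1 (by omega)
  -- the ternary error terms
  have hTN : ∀ {c1 c2 c3 d : ℤ} {P1 P2 P3 : ℕ}, Par3 ρ N T c1 c2 c3 d P1 P2 P3 → ∀ G1 G2 G3 : ℕ → ℂ,
      (Mnr3 (ρ / 2) A1 (max Cg Ch) P1 G1 ∨ Mnr3 (ρ / 2) A1 (max Cg Ch) P2 G2) →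
      Str3 (ρ / 2) A2 (max Cg Ch + 1) C3 P1 G1 → Str3 (ρ / 2) A2 (max Cg Ch + 1) C3 P2 G2 →
      Str3 (ρ / 2) A2 (max Cg Ch + 1) C3 P3 G3 → Sml K (max Cg Ch + 1) U P1 G1 →
      ‖SS3 c1 c2 c3 d P1 P2 P3 G1 G2 G3‖ ≤
        (N : ℝ) ^ 2 / (c1.natAbs * c2.natAbs * c3.natAbs) / Real.log N ^ (A + 4) := hT N (by omega)
  have tA : ‖SS3 c1 c2 c3 d P1 P2 P3 LA (GG P2) LA -
      SS3 c1 c2 c3 d P1 P2 P3 (LS z1 r1) (HH P2 z2 r2) (LS z3 r3)‖ ≤ 3 * ε := by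
    have h := tern_tel hTN hp (G1 := LA) (G2 := sm κ (GG P2)) (G3 := LA) (H1 := LS z1 r1)
      (H2 := sm κ (HH P2 z2 r2)) (H3 := LS z3 r3)
      (Or.inr ⟨s2.mG, by rw [f0_eq]; exact s2.mD, s2.mH⟩) s2.sG s3.sL s1.sS s2.sH
      (by rw [FF_eq]; exact s1.sF) (by rw [f0_eq]; exact s2.sD) (by rw [FF_eq]; exact s3.sF)
      (by rw [FF_eq]; exact s1.tF) (by rw [f0_eq]; exact s2.tD) (by rw [FF_eq]; exact s3.tF)
    have e1 : SS3 c1 c2 c3 d P1 P2 P3 LA (sm κ (GG P2)) LA = (κ : ℂ) * SS3 c1 c2 c3 d P1 P2 P3 LA (GG P2) LA := by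
      have := SS3_sm 1 κ 1 c1 c2 c3 d P1 P2 P3 LA (GG P2) LA
      rw [sm_one, one_mul, mul_one] at this
      exact this
    have e2 : SS3 c1 c2 c3 d P1 P2 P3 (LS z1 r1) (sm κ (HH P2 z2 r2)) (LS z3 r3) =
        (κ : ℂ) * SS3 c1 c2 c3 d P1 P2 P3 (LS z1 r1) (HH P2 z2 r2) (LS z3 r3) := by
      have := SS3_sm 1 κ 1 c1 c2 c3 d P1 P2 P3 (LS z1 r1) (HH P2 z2 r2) (LS z3 r3)
      rw [sm_one, sm_one, one_mul, mul_one] at this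
      exact this
    rw [e1, e2, ← hμ, ← hLd] at h
    refine (unscale hκ0 hκL hL0.le h).trans (le_of_eq ?_)
    rw [← hεL]
    ring
  have tB : ‖SS3 c1 c2 c3 d P1 P2 P3 (GG P1) LA LA -
      SS3 c1 c2 c3 d P1 P2 P3 (HH P1 z1 r1) (LS z2 r2) (LS z3 r3)‖ ≤ 3 * ε := by
    have h := tern_tel hTN hp (G1 := sm κ (GG P1)) (G2 := LA) (G3 := LA) (H1 := sm κ (HH P1 z1 r1))
      (H2 := LS z2 r2) (H3 := LS z3 r3)
      (Or.inl ⟨by rw [f0_eq]; exact s1.mD, s1.mH⟩) s2.sL s3.sL s1.sH s2.sS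
      (by rw [f0_eq]; exact s1.sD) (by rw [FF_eq]; exact s2.sF) (by rw [FF_eq]; exact s3.sF)
      (by rw [f0_eq]; exact s1.tD) (by rw [FF_eq]; exact s2.tF) (by rw [FF_eq]; exact s3.tF)
    have e1 : SS3 c1 c2 c3 d P1 P2 P3 (sm κ (GG P1)) LA LA = (κ : ℂ) * SS3 c1 c2 c3 d P1 P2 P3 (GG P1) LA LA := by
      have := SS3_sm κ 1 1 c1 c2 c3 d P1 P2 P3 (GG P1) LA LA
      rw [sm_one, mul_one, mul_one] at this
      exact this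
    have e2 : SS3 c1 c2 c3 d P1 P2 P3 (sm κ (HH P1 z1 r1)) (LS z2 r2) (LS z3 r3) =
        (κ : ℂ) * SS3 c1 c2 c3 d P1 P2 P3 (HH P1 z1 r1) (LS z2 r2) (LS z3 r3) := by
      have := SS3_sm κ 1 1 c1 c2 c3 d P1 P2 P3 (HH P1 z1 r1) (LS z2 r2) (LS z3 r3)
      rw [sm_one, sm_one, mul_one, mul_one] at this
      exact this
    rw [e1, e2, ← hμ, ← hLd] at h
    refine (unscale hκ0 hκL hL0.le h).trans (le_of_eq ?_)
    rw [← hεL]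
    ring
  have tC : ‖SS3 c1 c2 c3 d P1 P2 P3 (GG P1) (GG P2) LA -
      SS3 c1 c2 c3 d P1 P2 P3 (HH P1 z1 r1) (HH P2 z2 r2) (LS z3 r3)‖ ≤ 3 * ε := by
    have h := tern_tel hTN hp (G1 := sm κ (GG P1)) (G2 := sm κ (GG P2)) (G3 := LA) (H1 := sm κ (HH P1 z1 r1))
      (H2 := sm κ (HH P2 z2 r2)) (H3 := LS z3 r3)
      (Or.inl ⟨by rw [f0_eq]; exact s1.mD, s1.mH⟩) s2.sG s3.sL s1.sH s2.sH
      (by rw [f0_eq]; exact s1.sD) (by rw [f0_eq]; exact s2.sD) (by rw [FF_eq]; exact s3.sF)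
      (by rw [f0_eq]; exact s1.tD) (by rw [f0_eq]; exact s2.tD) (by rw [FF_eq]; exact s3.tF)
    have e1 : SS3 c1 c2 c3 d P1 P2 P3 (sm κ (GG P1)) (sm κ (GG P2)) LA =
        ((κ * κ : ℝ) : ℂ) * SS3 c1 c2 c3 d P1 P2 P3 (GG P1) (GG P2) LA := by
      have := SS3_sm κ κ 1 c1 c2 c3 d P1 P2 P3 (GG P1) (GG P2) LA
      rw [sm_one, mul_one] at this
      exact this
    have e2 : SS3 c1 c2 c3 d P1 P2 P3 (sm κ (HH P1 z1 r1)) (sm κ (HH P2 z2 r2)) (LS z3 r3) =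
        ((κ * κ : ℝ) : ℂ) * SS3 c1 c2 c3 d P1 P2 P3 (HH P1 z1 r1) (HH P2 z2 r2) (LS z3 r3) := by
      have := SS3_sm κ κ 1 c1 c2 c3 d P1 P2 P3 (HH P1 z1 r1) (HH P2 z2 r2) (LS z3 r3)
      rw [sm_one, mul_one] at this
      exact this
    rw [e1, e2, ← hμ, ← hLd] at h
    refine (unscale (by positivity) hκL2 hL0.le h).trans (le_of_eq ?_)
    rw [← hεL]
    ring
  -- the errors in square mean
  have hX0 : (0 : ℝ) ≤ 1 / L ^ (A + 4) := by positivity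
  have he0 : (0 : ℝ) ≤ 4 ^ V / L ^ V * L := by positivity
  have hK0 : (0 : ℝ) ≤ L ^ 8 := by positivity
  have hKX : 2 * ((4 ^ V / L ^ V * L) * L ^ 8 * L ^ 8) ≤ (1 / L ^ (A + 4)) ^ 2 := by
    rw [div_pow, one_pow, le_div_iff₀ (by positivity)]
    have e : 2 * ((4 ^ V / L ^ V * L) * L ^ 8 * L ^ 8) * (L ^ (A + 4)) ^ 2 =
        (2 * 4 ^ V) * L ^ (2 * A + 25) / L ^ V := by
      rw [← pow_mul, show (A + 4) * 2 = 2 * A + 8 by ring, show 2 * A + 25 = 17 + (2 * A + 8) by ring,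
        pow_add L 17]
      ring
    rw [e, div_le_one (by positivity), hV]
    calc (2 * 4 ^ (2 * A + 26) : ℝ) * L ^ (2 * A + 25) ≤ L * L ^ (2 * A + 25) := by
          apply mul_le_mul_of_nonneg_right _ (by positivity)
          rw [hV] at hL4V
          exact hL4V
      _ = L ^ (2 * A + 26) := by ring
  have hXε : 3 * (μ * (1 / L ^ (A + 4))) ≤ 3 * ε := by
    rw [mul_one_div]
    linarith
  have uA1 := hold_tel hHold hp q1 (G1 := LP P1) (G2 := GG P2) (G3 := LP P3) (H1 := LA) (H2 := GG P2) (H3 := LA)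
    he0 hK0 hX0 k2.qG k3.qP k1.qA k2.qG k1.dP k2.dG k3.dP hKX
  have uA2 := hold_tel hHold hp q1 (G1 := LS z1 r1) (G2 := HH P2 z2 r2) (G3 := LS z3 r3) (H1 := LZ z1)
    (H2 := HZ P2 z2) (H3 := LZ z3) he0 hK0 hX0 k2.qH k3.qS k1.qZ k2.qY k1.dS k2.dH k3.dS hKX
  have uB1 := hold_tel hHold hp q1 (G1 := GG P1) (G2 := LP P2) (G3 := LP P3) (H1 := GG P1) (H2 := LA) (H3 := LA)
    he0 hK0 hX0 k2.qP k3.qP k1.qG k2.qA k1.dG k2.dP k3.dP hKX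
  have uB2 := hold_tel hHold hp q1 (G1 := HH P1 z1 r1) (G2 := LS z2 r2) (G3 := LS z3 r3) (H1 := HZ P1 z1)
    (H2 := LZ z2) (H3 := LZ z3) he0 hK0 hX0 k2.qS k3.qS k1.qY k2.qZ k1.dH k2.dS k3.dS hKX
  have uC1 := hold_tel hHold hp q1 (G1 := GG P1) (G2 := GG P2) (G3 := LP P3) (H1 := GG P1) (H2 := GG P2) (H3 := LA)
    he0 hK0 hX0 k2.qG k3.qP k1.qG k2.qG k1.dG k2.dG k3.dP hKX
  have uC2 := hold_tel hHold hp q1 (G1 := HH P1 z1 r1) (G2 := HH P2 z2 r2) (G3 := LS z3 r3) (H1 := HZ P1 z1)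
    (H2 := HZ P2 z2) (H3 := LZ z3) he0 hK0 hX0 k2.qH k3.qS k1.qY k2.qY k1.dH k2.dH k3.dS hKX
  have y1 := hold3 hHold hp q1 (G1 := fun n => ((sml (V + 2) P1 n * lamz z1 n : ℝ) : ℂ)) (G2 := LZ z2)
    (G3 := LZ z3) he0 hK0 hK0 hX0 k1.dZ k2.qZ k3.qZ hKX
  have y2 := hold3 hHold hp q1 (G1 := LZ z1) (G2 := fun n => ((sml (V + 2) P2 n * lamz z2 n : ℝ) : ℂ))
    (G3 := LZ z3) hK0 he0 hK0 hX0 k1.qZ k2.dZ k3.qZ (le_trans (le_of_eq (by ring)) hKX)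
  rw [← hμ] at uA1 uA2 uB1 uB2 uC1 uC2 y1 y2
  have tri : ∀ {x1 x2 x3 x4 : ℂ}, ‖x1 - x2‖ ≤ 3 * (μ * (1 / L ^ (A + 4))) → ‖x2 - x3‖ ≤ 3 * ε →
      ‖x3 - x4‖ ≤ 3 * (μ * (1 / L ^ (A + 4))) → ‖x1 - x4‖ ≤ 9 * ε := by
    intro x1 x2 x3 x4 h1 h2 h3
    have e : x1 - x4 = (x1 - x2) + (x2 - x3) + (x3 - x4) := by ring
    rw [e]
    refine norm_add₃_le.trans ?_
    linarith
  have fA := tri uA1 tA uA2
  have fB := tri uB1 tB uB2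
  have fC := tri uC1 tC uC2
  have gA : |S3 c1 c2 c3 d P1 P2 P3 (lp P1) (gr P2) (lp P3) -
      S3 c1 c2 c3 d P1 P2 P3 (lamz z1) (fun n => Wt P2 n * lamz z2 n) (lamz z3)| ≤ 9 * ε := by
    rw [real_diff]
    exact fA
  have gB : |S3 c1 c2 c3 d P1 P2 P3 (gr P1) (lp P2) (lp P3) -
      S3 c1 c2 c3 d P1 P2 P3 (fun n => Wt P1 n * lamz z1 n) (lamz z2) (lamz z3)| ≤ 9 * ε := by
    rw [real_diff]
    exact fB
  have gC : |S3 c1 c2 c3 d P1 P2 P3 (gr P1) (gr P2) (lp P3) -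
      S3 c1 c2 c3 d P1 P2 P3 (fun n => Wt P1 n * lamz z1 n) (fun n => Wt P2 n * lamz z2 n) (lamz z3)| ≤ 9 * ε := by
    rw [real_diff]
    exact fC
  have y1' : S3 c1 c2 c3 d P1 P2 P3 (fun n => sml (V + 2) P1 n * lamz z1 n) (lamz z2) (lamz z3) ≤
      μ / L ^ (A + 4) := by
    refine (le_abs_self _).trans ?_
    rw [← Real.norm_eq_abs, ← Complex.norm_real, S3_coe, div_eq_mul_one_div]
    exact y1
  have y2' : S3 c1 c2 c3 d P1 P2 P3 (lamz z1) (fun n => sml (V + 2) P2 n * lamz z2 n) (lamz z3) ≤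
      μ / L ^ (A + 4) := by
    refine (le_abs_self _).trans ?_
    rw [← Real.norm_eq_abs, ← Complex.norm_real, S3_coe, div_eq_mul_one_div]
    exact y2
  have hmain := main_term (c1 := c1) (c2 := c2) (c3 := c3) (d := d) (P3 := P3) (z1 := z1) (z2 := z2) (z3 := z3)
    w1 w2 d1 d2
  have hvec := vec c1 c2 c3 d P1 P2 P3
  have hsm : (c ^ 2 + 1) * (S3 c1 c2 c3 d P1 P2 P3 (fun n => sml (V + 2) P1 n * lamz z1 n) (lamz z2) (lamz z3) +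
        S3 c1 c2 c3 d P1 P2 P3 (lamz z1) (fun n => sml (V + 2) P2 n * lamz z2 n) (lamz z3)) ≤ 2 * ε := by
    calc _ ≤ (c ^ 2 + 1) * (μ / L ^ (A + 4) + μ / L ^ (A + 4)) :=
          mul_le_mul_of_nonneg_left (add_le_add y1' y2') (by positivity)
      _ ≤ L * (μ / L ^ (A + 4) + μ / L ^ (A + 4)) := mul_le_mul_of_nonneg_right hLcc (by positivity)
      _ = 2 * ε := by rw [← hεL]; ring
  have a1 := (abs_le.1 gA).1
  have a2 := (abs_le.1 gB).1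
  have a3 := (abs_le.1 gC).2
  have hfin : 29 * ε ≤ μ / L ^ A := by
    have := divpow2 (x := μ) (k := 29) hμ0 (L := L) (by norm_num; linarith) hL1 (a := A + 3) (b := A) (by omega)
    rw [hε]
    exact_mod_cast this
  rw [← hμ, ← hLd]
  linarith

end Pool.Agent.H7.BK
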