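import Pool.Graph.R_seed8.Helper112.MultLS
import Pool.Graph.R_seed8.H807R2.Dav1
import Pool.Graph.R_seed8.Y662.GJ.JGauss

set_option autoImplicit false

/-! Incomplete character sums and the inequality of Halasz and Montgomery for the characters of one modulus. -/

namespace Pool.Agent.H7.BK

open Finset
open Pool.Agent.H807R2.Dav (ee KK KK_le' geo_bound dd dd_ge sum_inv_range sum_inv_range')

lemma std_ee (r : ℕ) [NeZero r] (a : ZMod r) (n : ℕ) :
    ZMod.stdAddChar (a * (n : ZMod r)) = ee (n * ((a.val : ℝ) / r)) := by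
  have h1 : a * (n : ZMod r) = (((a.val * n : ℕ) : ℤ) : ZMod r) := by
    rw [Int.cast_natCast, Nat.cast_mul, ZMod.natCast_zmod_val]
  rw [h1, ZMod.stdAddChar_coe]
  unfold ee
  congr 1
  push_cast
  ring

/-- one geometric sum -/
lemma geo_one (r Y : ℕ) [NeZero r] (a : ZMod r) (ha : a ≠ 0) :
    ‖Pool.Agent.Helper112.MLS.T r Y (fun _ => 1) a‖ ≤ r * (1 / (a.val : ℝ) + 1 / ((r : ℝ) - a.val)) := by
  have hr : (0 : ℝ) < r := by exact_mod_cast Nat.pos_of_ne_zero (NeZero.ne r)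
  have hv1 : 1 ≤ a.val := Nat.one_le_iff_ne_zero.2 (fun h => ha ((ZMod.val_eq_zero a).1 h))
  have hv2 : a.val < r := ZMod.val_lt a
  have hv1r : (1 : ℝ) ≤ a.val := by exact_mod_cast hv1
  have hv2r : (a.val : ℝ) < r := by exact_mod_cast hv2
  have hT : Pool.Agent.Helper112.MLS.T r Y (fun _ => 1) a = ∑ n ∈ Ico 1 (Y + 1), ee (n * ((a.val : ℝ) / r)) := by
    unfold Pool.Agent.Helper112.MLS.T
    have e : Icc 1 Y = Ico 1 (Y + 1) := by
      ext n
      simp only [mem_Icc, mem_Ico]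
      omega
    rw [e]
    refine sum_congr rfl fun n _ => ?_
    rw [one_mul, std_ee]
  rw [hT]
  obtain ⟨t, ht⟩ : ∃ t : ℝ, t = (a.val : ℝ) / r := ⟨_, rfl⟩
  have ht0 : 0 < t := by rw [ht]; positivity
  have ht1 : t < 1 := by rw [ht, div_lt_one hr]; exact hv2r
  have hd := dd_ge ht0.le ht1.le
  have hm : 0 < min t (1 - t) := lt_min ht0 (by linarith)
  rw [← ht]
  refine (geo_bound 1 (Y + 1) (by omega) (M := (Y : ℝ)) (by push_cast; linarith) t).trans ?_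
  refine (KK_le' (Nat.cast_nonneg _) (by positivity : 0 < 4 * min t (1 - t)) hd).trans ?_
  have e1 : 1 / min t (1 - t) ≤ 1 / t + 1 / (1 - t) := by
    rcases min_choice t (1 - t) with h | h
    · rw [h]
      have : 0 < 1 / (1 - t) := by
        have : 0 < 1 - t := by linarith
        positivity
      linarith
    · rw [h]
      have : 0 < 1 / t := by positivity
      linarith
  have e2 : r * (1 / (a.val : ℝ) + 1 / ((r : ℝ) - a.val)) = 1 / t + 1 / (1 - t) := by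
    have h1 : (a.val : ℝ) ≠ 0 := by positivity
    have h2 : (r : ℝ) - a.val ≠ 0 := by linarith
    rw [ht]
    have h3 : 1 - (a.val : ℝ) / r = (r - a.val) / r := by field_simp
    rw [h3]
    field_simp
  rw [e2]
  calc 3 / (4 * min t (1 - t)) = (3 / 4) * (1 / min t (1 - t)) := by field_simp
    _ ≤ 1 * (1 / min t (1 - t)) := mul_le_mul_of_nonneg_right (by norm_num) (by positivity)
    _ ≤ _ := by rw [one_mul]; exact e1

lemma sum_val (r : ℕ) [NeZero r] (f : ℕ → ℝ) : ∑ a : ZMod r, f a.val = ∑ j ∈ range r, f j := by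
  refine sum_bij' (fun a _ => a.val) (fun j _ => (j : ZMod r)) ?_ ?_ ?_ ?_ ?_
  · intro a _
    exact mem_range.2 (ZMod.val_lt a)
  · intro j _
    exact mem_univ _
  · intro a _
    exact ZMod.natCast_zmod_val a
  · intro j hj
    exact ZMod.val_cast_of_lt (mem_range.1 hj)
  · intro a _
    rfl

/-- the inequality of Polya and Vinogradov for primitive characters -/
lemma pv_prim (r Y : ℕ) [NeZero r] {ψ : DirichletCharacter ℂ r} (hψ : ψ.IsPrimitive) (hr1 : r ≠ 1) :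
    ‖∑ n ∈ Icc 1 Y, ψ (n : ZMod r)‖ ≤ 2 * Real.sqrt r * (1 + Real.log r) := by
  have hr : (0 : ℝ) < r := by exact_mod_cast Nat.pos_of_ne_zero (NeZero.ne r)
  have hrt : 1 < r := by
    have := NeZero.ne r
    omega
  haveI : Nontrivial (ZMod r) := ZMod.nontrivial_iff.2 hr1
  have hs : 0 < Real.sqrt r := Real.sqrt_pos.2 hr
  have hinv : (ψ⁻¹).IsPrimitive := by
    rw [DirichletCharacter.isPrimitive_def, DirichletCharacter.conductor_inv]
    exact hψ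
  have h1 := Pool.Agent.Helper112.MLS.sum_char_T r Y (fun _ => 1) hψ
  have h2 : ‖gaussSum ψ⁻¹ (ZMod.stdAddChar : AddChar (ZMod r) ℂ)‖ = Real.sqrt r := by
    have h10 := Pool.Agent.Helper112.MLS.norm_gauss r hinv
    rw [← h10, Real.sqrt_sq (norm_nonneg _)]
  have h3 : ‖∑ a : ZMod r, ψ⁻¹ a * Pool.Agent.Helper112.MLS.T r Y (fun _ => 1) a‖ ≤
      2 * (r * (1 + Real.log r)) := by
    have h4 : ∀ a : ZMod r, ‖ψ⁻¹ a * Pool.Agent.Helper112.MLS.T r Y (fun _ => 1) a‖ ≤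
        r * (1 / (a.val : ℝ) + 1 / ((r : ℝ) - a.val)) := by
      intro a
      by_cases ha : a = 0
      · subst ha
        rw [MulChar.map_nonunit _ (not_isUnit_zero), zero_mul, norm_zero, ZMod.val_zero]
        simp
      · rw [norm_mul]
        calc ‖ψ⁻¹ a‖ * ‖Pool.Agent.Helper112.MLS.T r Y (fun _ => 1) a‖ ≤
            1 * ‖Pool.Agent.Helper112.MLS.T r Y (fun _ => 1) a‖ :=
              mul_le_mul_of_nonneg_right (DirichletCharacter.norm_le_one ψ⁻¹ a) (norm_nonneg _)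
          _ ≤ _ := by rw [one_mul]; exact geo_one r Y a ha
    refine (norm_sum_le _ _).trans ((sum_le_sum fun a _ => h4 a).trans ?_)
    rw [← mul_sum, sum_val r (fun j => 1 / (j : ℝ) + 1 / ((r : ℝ) - j)), sum_add_distrib]
    have e1 := sum_inv_range r
    have e2 := sum_inv_range' r
    nlinarith
  rw [h1, norm_mul, h2] at h3
  simp only [one_mul] at h3
  have h5 : 2 * (r * (1 + Real.log r)) = (2 * Real.sqrt r * (1 + Real.log r)) * Real.sqrt r := by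
    have := Real.mul_self_sqrt hr.le
    linear_combination (-(2 * (1 + Real.log r))) * this
  rw [h5] at h3
  exact le_of_mul_le_mul_right h3 hs

/-- the number of coprime integers by the function of Moebius -/
lemma coprime_sum (Y q : ℕ) (hq : q ≠ 0) (f : ℕ → ℂ) :
    ∑ n ∈ Icc 1 Y, (if n.Coprime q then f n else 0) =
      ∑ d ∈ q.divisors, ((ArithmeticFunction.moebius d : ℤ) : ℂ) * ∑ m ∈ Icc 1 (Y / d), f (d * m) := by
  have h1 : ∀ n ∈ Icc 1 Y, (if n.Coprime q then f n else 0) =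
      ∑ d ∈ q.divisors, if d ∣ n then ((ArithmeticFunction.moebius d : ℤ) : ℂ) * f n else 0 := by
    intro n hn
    rw [mem_Icc] at hn
    rw [← sum_filter]
    have h2 : q.divisors.filter (fun d => d ∣ n) = (Nat.gcd n q).divisors := by
      ext d
      simp only [mem_filter, Nat.mem_divisors, Nat.dvd_gcd_iff]
      constructor
      · rintro ⟨⟨h3, h4⟩, h5⟩
        exact ⟨⟨h5, h3⟩, Nat.gcd_ne_zero_right h4⟩
      · rintro ⟨⟨h3, h4⟩, h5⟩
        exact ⟨⟨h4, hq⟩, h3⟩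
    rw [h2, ← sum_mul, Pool.Agent.Y662.GJ.sum_moebius]
    by_cases h : n.Coprime q
    · rw [if_pos h, if_pos h, one_mul]
    · rw [if_neg h, if_neg h, zero_mul]
  rw [sum_congr rfl h1, sum_comm]
  refine sum_congr rfl fun d hd => ?_
  have hd0 : 0 < d := Nat.pos_of_mem_divisors hd
  rw [← sum_filter, mul_sum]
  refine sum_nbij' (fun n => n / d) (fun m => d * m) ?_ ?_ ?_ ?_ ?_
  · intro n hn
    rw [mem_filter, mem_Icc] at hn
    rw [mem_Icc]
    obtain ⟨⟨h2, h3⟩, k, rfl⟩ := hn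
    rw [Nat.mul_div_cancel_left _ hd0]
    refine ⟨Nat.pos_of_ne_zero (fun h => by subst h; omega), ?_⟩
    rw [Nat.le_div_iff_mul_le hd0, mul_comm]
    exact h3
  · intro m hm
    rw [mem_Icc] at hm
    rw [mem_filter, mem_Icc]
    refine ⟨⟨Nat.mul_pos hd0 hm.1, ?_⟩, dvd_mul_right _ _⟩
    have := (Nat.le_div_iff_mul_le hd0).1 hm.2
    linarith
  · intro n hn
    rw [mem_filter] at hn
    exact Nat.mul_div_cancel' hn.2
  · intro m _
    exact Nat.mul_div_cancel_left _ hd0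
  · intro n hn
    rw [mem_filter] at hn
    rw [Nat.mul_div_cancel' hn.2]

/-- the inequality of Polya and Vinogradov for nonprincipal characters -/
lemma pv (q Y : ℕ) [NeZero q] {χ : DirichletCharacter ℂ q} (hχ : χ ≠ 1) :
    ‖∑ n ∈ Icc 1 Y, χ (n : ZMod q)‖ ≤ (q.divisors.card : ℝ) * (2 * Real.sqrt q * (1 + Real.log q)) := by
  have hq0 : q ≠ 0 := NeZero.ne q
  have hqr : (0 : ℝ) < q := by exact_mod_cast Nat.pos_of_ne_zero hq0
  have hrz : χ.conductor ≠ 0 := DirichletCharacter.conductor_ne_zero χ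
  haveI : NeZero χ.conductor := ⟨hrz⟩
  have hr1 : χ.conductor ≠ 1 := fun h => hχ (DirichletCharacter.eq_one_iff_conductor_eq_one.2 h)
  obtain ⟨ψ, hψd⟩ : ∃ ψ : DirichletCharacter ℂ χ.conductor, ψ = χ.primitiveCharacter := ⟨_, rfl⟩
  have hprim : ψ.IsPrimitive := by rw [hψd]; exact DirichletCharacter.primitiveCharacter_isPrimitive χ
  have hle : χ.conductor ≤ q := Nat.le_of_dvd (Nat.pos_of_ne_zero hq0) (DirichletCharacter.conductor_dvd_level χ)
  have hler : (χ.conductor : ℝ) ≤ q := by exact_mod_cast hle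
  have hrp : (0 : ℝ) < χ.conductor := by exact_mod_cast Nat.pos_of_ne_zero hrz
  have h1 : ∀ n ∈ Icc 1 Y, χ (n : ZMod q) = if n.Coprime q then ψ (n : ZMod χ.conductor) else 0 := by
    intro n _
    by_cases h : n.Coprime q
    · rw [if_pos h]
      have h4 := DirichletCharacter.primitiveCharacter_apply_of_isCoprime χ (a := (n : ℤ))
        (Nat.isCoprime_iff_coprime.2 h)
      rw [Int.cast_natCast, Int.cast_natCast] at h4
      rw [hψd, ← h4]
    · rw [if_neg h]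
      apply χ.map_nonunit
      rw [ZMod.isUnit_iff_coprime]
      exact h
  rw [sum_congr rfl h1, coprime_sum Y q hq0]
  have h2 : ∀ d ∈ q.divisors, ‖((ArithmeticFunction.moebius d : ℤ) : ℂ) *
      ∑ m ∈ Icc 1 (Y / d), ψ ((d * m : ℕ) : ZMod χ.conductor)‖ ≤ 2 * Real.sqrt q * (1 + Real.log q) := by
    intro d _
    have h3 : ∑ m ∈ Icc 1 (Y / d), ψ ((d * m : ℕ) : ZMod χ.conductor) =
        ψ (d : ZMod χ.conductor) * ∑ m ∈ Icc 1 (Y / d), ψ (m : ZMod χ.conductor) := by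
      rw [mul_sum]
      refine sum_congr rfl fun m _ => ?_
      rw [Nat.cast_mul, map_mul]
    have h4 : ‖((ArithmeticFunction.moebius d : ℤ) : ℂ)‖ ≤ 1 := by
      rw [Complex.norm_intCast]
      exact_mod_cast ArithmeticFunction.abs_moebius_le_one
    have h5 := pv_prim χ.conductor (Y / d) hprim hr1
    have h6 : 2 * Real.sqrt χ.conductor * (1 + Real.log χ.conductor) ≤ 2 * Real.sqrt q * (1 + Real.log q) := by
      have h7 : Real.sqrt χ.conductor ≤ Real.sqrt q := Real.sqrt_le_sqrt hler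
      have h8 : Real.log χ.conductor ≤ Real.log q := Real.log_le_log hrp hler
      have h9 : 0 ≤ Real.log χ.conductor := Real.log_natCast_nonneg _
      gcongr
    rw [h3, norm_mul, norm_mul]
    calc ‖((ArithmeticFunction.moebius d : ℤ) : ℂ)‖ * (‖ψ (d : ZMod χ.conductor)‖ *
          ‖∑ m ∈ Icc 1 (Y / d), ψ (m : ZMod χ.conductor)‖)
        ≤ 1 * (1 * (2 * Real.sqrt χ.conductor * (1 + Real.log χ.conductor))) := by
          refine mul_le_mul h4 (mul_le_mul (DirichletCharacter.norm_le_one _ _) h5 (norm_nonneg _)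
            zero_le_one) (by positivity) zero_le_one
      _ ≤ _ := by rw [one_mul, one_mul]; exact h6
  refine (norm_sum_le _ _).trans ((sum_le_sum h2).trans (le_of_eq ?_))
  rw [sum_const, nsmul_eq_mul]

/-- the inequality of Halasz and Montgomery for the characters of one modulus -/
lemma hm (q Y : ℕ) [NeZero q] (b : ℕ → ℂ) (R : Finset (DirichletCharacter ℂ q)) (W : ℝ) (hW0 : 0 ≤ W)
    (hW : ∀ ψ : DirichletCharacter ℂ q, ψ ≠ 1 → ‖∑ k ∈ Icc 1 Y, ψ (k : ZMod q)‖ ≤ W) :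
    ∑ χ ∈ R, ‖∑ k ∈ Icc 1 Y, b k * χ (k : ZMod q)‖ ^ 2 ≤
      ((Y : ℝ) + R.card * W) * ∑ k ∈ Icc 1 Y, ‖b k‖ ^ 2 := by
  classical
  obtain ⟨B, hB⟩ : ∃ B : DirichletCharacter ℂ q → ℂ, B = fun χ => ∑ k ∈ Icc 1 Y, b k * χ (k : ZMod q) :=
    ⟨_, rfl⟩
  have hB' : ∀ χ : DirichletCharacter ℂ q, ∑ k ∈ Icc 1 Y, b k * χ (k : ZMod q) = B χ := fun χ => by rw [hB]
  simp only [hB']
  obtain ⟨S, hS⟩ : ∃ S : ℝ, S = ∑ χ ∈ R, ‖B χ‖ ^ 2 := ⟨_, rfl⟩
  obtain ⟨G, hG⟩ : ∃ G : ℝ, G = ∑ k ∈ Icc 1 Y, ‖b k‖ ^ 2 := ⟨_, rfl⟩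
  have hS0 : 0 ≤ S := by rw [hS]; positivity
  have hG0 : 0 ≤ G := by rw [hG]; positivity
  obtain ⟨Cc, hC⟩ : ∃ Cc : ℕ → ℂ, Cc = fun k : ℕ => ∑ χ ∈ R, (starRingEnd ℂ) (B χ) * χ (k : ZMod q) := ⟨_, rfl⟩
  -- the sum as a bilinear form
  have h1 : (S : ℂ) = ∑ k ∈ Icc 1 Y, b k * Cc k := by
    rw [hS, hC]
    push_cast
    simp only [mul_sum]
    rw [sum_comm]
    refine sum_congr rfl fun χ _ => ?_
    have h2 : ((‖B χ‖ : ℝ) : ℂ) ^ 2 = (starRingEnd ℂ) (B χ) * B χ := by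
      rw [mul_comm, Complex.mul_conj, Complex.normSq_eq_norm_sq]
      push_cast
      ring
    have h2' : ∑ k ∈ Icc 1 Y, b k * ((starRingEnd ℂ) (B χ) * χ (k : ZMod q)) =
        (starRingEnd ℂ) (B χ) * ∑ k ∈ Icc 1 Y, b k * χ (k : ZMod q) := by
      rw [mul_sum]
      refine sum_congr rfl fun k _ => ?_
      ring
    rw [h2, h2', hB' χ]
  have h3 : S ≤ ∑ k ∈ Icc 1 Y, ‖b k‖ * ‖Cc k‖ := by
    have h4 : ‖(S : ℂ)‖ = S := by rw [Complex.norm_real, Real.norm_of_nonneg hS0]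
    rw [← h4, h1]
    refine (norm_sum_le _ _).trans (sum_le_sum fun k _ => ?_)
    rw [norm_mul]
  obtain ⟨Q, hQ⟩ : ∃ Q : ℝ, Q = ∑ k ∈ Icc 1 Y, ‖Cc k‖ ^ 2 := ⟨_, rfl⟩
  have hSQ : S ^ 2 ≤ G * Q := by
    have h4 := sum_mul_sq_le_sq_mul_sq (Icc 1 Y) (fun k => ‖b k‖) (fun k => ‖Cc k‖)
    rw [hG, hQ]
    refine le_trans ?_ h4
    exact pow_le_pow_left₀ hS0 h3 2
  -- the dual sum
  have hK : ∀ χ χ' : DirichletCharacter ℂ q, ‖∑ k ∈ Icc 1 Y, χ (k : ZMod q) * (starRingEnd ℂ) (χ' (k : ZMod q))‖ ≤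
      (if χ = χ' then (Y : ℝ) else 0) + W := by
    intro χ χ'
    by_cases h : χ = χ'
    · rw [if_pos h]
      refine (norm_sum_le _ _).trans ?_
      have h5 : ∑ k ∈ Icc 1 Y, ‖χ (k : ZMod q) * (starRingEnd ℂ) (χ' (k : ZMod q))‖ ≤ ∑ k ∈ Icc 1 Y, (1 : ℝ) := by
        refine sum_le_sum fun k _ => ?_
        rw [norm_mul, RCLike.norm_conj]
        exact mul_le_one₀ (DirichletCharacter.norm_le_one _ _) (norm_nonneg _) (DirichletCharacter.norm_le_one _ _)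
      refine h5.trans ?_
      rw [sum_const, nsmul_eq_mul, Nat.card_Icc]
      have h6 : ((Y + 1 - 1 : ℕ) : ℝ) = Y := by rw [Nat.add_sub_cancel]
      rw [h6]
      linarith
    · rw [if_neg h, zero_add]
      have h6 : χ * χ'⁻¹ ≠ 1 := fun h7 => h (mul_inv_eq_one.1 h7)
      have h8 : ∑ k ∈ Icc 1 Y, χ (k : ZMod q) * (starRingEnd ℂ) (χ' (k : ZMod q)) =
          ∑ k ∈ Icc 1 Y, (χ * χ'⁻¹) (k : ZMod q) := by
        refine sum_congr rfl fun k _ => ?_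
        rw [MulChar.mul_apply, ← MulChar.star_apply', RCLike.star_def]
      rw [h8]
      exact hW _ h6
  have hsym : ∀ χ χ' : DirichletCharacter ℂ q, ‖∑ k ∈ Icc 1 Y, χ (k : ZMod q) * (starRingEnd ℂ) (χ' (k : ZMod q))‖ =
      ‖∑ k ∈ Icc 1 Y, χ' (k : ZMod q) * (starRingEnd ℂ) (χ (k : ZMod q))‖ := by
    intro χ χ'
    rw [← RCLike.norm_conj, map_sum]
    congr 1
    refine sum_congr rfl fun k _ => ?_
    rw [map_mul, starRingEnd_self_apply, mul_comm]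
  have hQle : Q ≤ ((Y : ℝ) + R.card * W) * S := by
    have h4 : (Q : ℂ) = ∑ χ ∈ R, ∑ χ' ∈ R, (starRingEnd ℂ) (B χ) * B χ' *
        ∑ k ∈ Icc 1 Y, χ (k : ZMod q) * (starRingEnd ℂ) (χ' (k : ZMod q)) := by
      rw [hQ, hC]
      push_cast
      have h5 : ∀ k ∈ Icc 1 Y, ((‖∑ χ ∈ R, (starRingEnd ℂ) (B χ) * χ (k : ZMod q)‖ : ℝ) : ℂ) ^ 2 =
          ∑ χ ∈ R, ∑ χ' ∈ R, (starRingEnd ℂ) (B χ) * B χ' * (χ (k : ZMod q) * (starRingEnd ℂ) (χ' (k : ZMod q))) := by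
        intro k _
        have h6 : ((‖∑ χ ∈ R, (starRingEnd ℂ) (B χ) * χ (k : ZMod q)‖ : ℝ) : ℂ) ^ 2 =
            (∑ χ ∈ R, (starRingEnd ℂ) (B χ) * χ (k : ZMod q)) *
              (starRingEnd ℂ) (∑ χ ∈ R, (starRingEnd ℂ) (B χ) * χ (k : ZMod q)) := by
          rw [Complex.mul_conj, Complex.normSq_eq_norm_sq]
          push_cast
          ring
        rw [h6, map_sum, sum_mul_sum]
        refine sum_congr rfl fun χ _ => sum_congr rfl fun χ' _ => ?_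
        rw [map_mul, starRingEnd_self_apply]
        ring
      rw [sum_congr rfl h5, sum_comm]
      refine sum_congr rfl fun χ _ => ?_
      rw [sum_comm]
      refine sum_congr rfl fun χ' _ => ?_
      rw [mul_sum]
    have hQ0 : 0 ≤ Q := by rw [hQ]; positivity
    have h7 : Q = ‖(Q : ℂ)‖ := by rw [Complex.norm_real, Real.norm_of_nonneg hQ0]
    rw [h7, h4]
    have h8 : ‖∑ χ ∈ R, ∑ χ' ∈ R, (starRingEnd ℂ) (B χ) * B χ' *
        ∑ k ∈ Icc 1 Y, χ (k : ZMod q) * (starRingEnd ℂ) (χ' (k : ZMod q))‖ ≤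
        ∑ χ ∈ R, ∑ χ' ∈ R, (‖B χ‖ ^ 2 / 2 + ‖B χ'‖ ^ 2 / 2) *
          ‖∑ k ∈ Icc 1 Y, χ (k : ZMod q) * (starRingEnd ℂ) (χ' (k : ZMod q))‖ := by
      refine (norm_sum_le _ _).trans (sum_le_sum fun χ _ => (norm_sum_le _ _).trans (sum_le_sum fun χ' _ => ?_))
      rw [norm_mul, norm_mul, RCLike.norm_conj]
      refine mul_le_mul_of_nonneg_right ?_ (norm_nonneg _)
      nlinarith [sq_nonneg (‖B χ‖ - ‖B χ'‖)]
    refine h8.trans ?_
    have h9 : ∑ χ ∈ R, ∑ χ' ∈ R, (‖B χ‖ ^ 2 / 2 + ‖B χ'‖ ^ 2 / 2) *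
          ‖∑ k ∈ Icc 1 Y, χ (k : ZMod q) * (starRingEnd ℂ) (χ' (k : ZMod q))‖ =
        ∑ χ ∈ R, ∑ χ' ∈ R, ‖B χ‖ ^ 2 *
          ‖∑ k ∈ Icc 1 Y, χ (k : ZMod q) * (starRingEnd ℂ) (χ' (k : ZMod q))‖ := by
      have e1 : ∑ χ ∈ R, ∑ χ' ∈ R, (‖B χ'‖ ^ 2 / 2) *
          ‖∑ k ∈ Icc 1 Y, χ (k : ZMod q) * (starRingEnd ℂ) (χ' (k : ZMod q))‖ =
          ∑ χ ∈ R, ∑ χ' ∈ R, (‖B χ‖ ^ 2 / 2) *
          ‖∑ k ∈ Icc 1 Y, χ (k : ZMod q) * (starRingEnd ℂ) (χ' (k : ZMod q))‖ := by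
        rw [sum_comm]
        refine sum_congr rfl fun χ _ => sum_congr rfl fun χ' _ => ?_
        rw [hsym]
      have e2 : ∑ χ ∈ R, ∑ χ' ∈ R, (‖B χ‖ ^ 2 / 2 + ‖B χ'‖ ^ 2 / 2) *
          ‖∑ k ∈ Icc 1 Y, χ (k : ZMod q) * (starRingEnd ℂ) (χ' (k : ZMod q))‖ =
          ∑ χ ∈ R, ∑ χ' ∈ R, (‖B χ‖ ^ 2 / 2) *
          ‖∑ k ∈ Icc 1 Y, χ (k : ZMod q) * (starRingEnd ℂ) (χ' (k : ZMod q))‖ +
          ∑ χ ∈ R, ∑ χ' ∈ R, (‖B χ'‖ ^ 2 / 2) *
          ‖∑ k ∈ Icc 1 Y, χ (k : ZMod q) * (starRingEnd ℂ) (χ' (k : ZMod q))‖ := by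
        rw [← sum_add_distrib]
        refine sum_congr rfl fun χ _ => ?_
        rw [← sum_add_distrib]
        refine sum_congr rfl fun χ' _ => ?_
        rw [add_mul]
      rw [e2, e1, ← sum_add_distrib]
      refine sum_congr rfl fun χ _ => ?_
      rw [← sum_add_distrib]
      refine sum_congr rfl fun χ' _ => ?_
      ring
    rw [h9, hS, mul_sum]
    refine sum_le_sum fun χ hχ => ?_
    rw [← mul_sum, mul_comm ((Y : ℝ) + R.card * W)]
    refine mul_le_mul_of_nonneg_left ?_ (by positivity)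
    refine (sum_le_sum fun χ' _ => hK χ χ').trans ?_
    rw [sum_add_distrib, sum_const, nsmul_eq_mul, sum_ite_eq, if_pos hχ]
  rw [← hS, ← hG]
  rcases eq_or_lt_of_le hS0 with h | h
  · rw [← h]
    have e3 : (0 : ℝ) ≤ (Y : ℝ) := Nat.cast_nonneg _
    have e4 : (0 : ℝ) ≤ (R.card : ℝ) * W := mul_nonneg (Nat.cast_nonneg _) hW0
    exact mul_nonneg (by linarith) hG0
  · have h4 : S * S ≤ (((Y : ℝ) + R.card * W) * G) * S := by
      calc S * S = S ^ 2 := by ring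
        _ ≤ G * Q := hSQ
        _ ≤ G * (((Y : ℝ) + R.card * W) * S) := mul_le_mul_of_nonneg_left hQle hG0
        _ = _ := by ring
    exact le_of_mul_le_mul_right h4 h

end Pool.Agent.H7.BK
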