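import Pool.Agent.H7.BK.Tern3
import Pool.Agent.H7.BK.MajL3
import Pool.Graph.R_seed8.R460.GS.Core2
import Pool.Graph.R_seed8.R460.GS.Props
import Pool.Graph.R_seed8.Y949.GJ.Err7a

set_option autoImplicit false

/-! The functions of the vector sieve at one scale. -/

namespace Pool.Agent.H7.BK

open Finset
open Pool.Agent.H807R2.Dav (ee)
open Pool.Agent.H373R2.T7 (lamz Vz pz Vz_pos lamz_nonneg)
open Pool.Agent.Y883.T3 (lsh)
open Pool.Agent.Y883.GJ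
open Pool.Agent.Y949.GJ (LZ divpow divpow2 sq_mom sq_small)
open Pool.Agent.R460.GS (GG HH f0 gr Wt ZZ WB MajAt MinAt ApAt NcAt)

/-- a multiple of a function -/
noncomputable def sm (κ : ℝ) (F : ℕ → ℂ) (n : ℕ) : ℂ := (κ : ℂ) * F n

lemma sm_norm {κ : ℝ} (h : 0 ≤ κ) (F : ℕ → ℂ) (n : ℕ) : ‖sm κ F n‖ = κ * ‖F n‖ := by
  unfold sm
  rw [norm_mul, Complex.norm_real, Real.norm_of_nonneg h]

lemma cs_sm (κ : ℝ) (F : ℕ → ℂ) (q N : ℕ) (β : ℝ) (χ : DirichletCharacter ℂ q) :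
    cs q N (sm κ F) β χ = (κ : ℂ) * cs q N F β χ := by
  unfold cs sm
  rw [mul_sum]
  refine sum_congr rfl fun n _ => ?_
  ring

lemma cs_sm_le {κ : ℝ} (h0 : 0 ≤ κ) (h1 : κ ≤ 1) (F : ℕ → ℂ) (q N : ℕ) (β : ℝ) (χ : DirichletCharacter ℂ q) :
    ‖cs q N (sm κ F) β χ‖ ≤ ‖cs q N F β χ‖ := by
  rw [cs_sm, norm_mul, Complex.norm_real, Real.norm_of_nonneg h0]
  exact mul_le_of_le_one_left (norm_nonneg _) h1

lemma cs_sm_sq {κ : ℝ} (h0 : 0 ≤ κ) (h1 : κ ≤ 1) (F : ℕ → ℂ) (q N : ℕ) (β : ℝ)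
    (S : Finset (DirichletCharacter ℂ q)) :
    ∑ χ ∈ S, ‖cs q N (sm κ F) β χ‖ ^ 2 ≤ ∑ χ ∈ S, ‖cs q N F β χ‖ ^ 2 :=
  sum_le_sum fun χ _ => pow_le_pow_left₀ (norm_nonneg _) (cs_sm_le h0 h1 F q N β χ) 2

lemma level {P q : ℕ} {ρ : ℝ} (hP : 1 ≤ P) (hρ : 0 ≤ ρ) (h : (q : ℝ) ≤ (P : ℝ) ^ (2 / 3 - ρ)) :
    (q : ℝ) ≤ (P : ℝ) ^ ((7 : ℝ) / 10 - 1 / 30) :=
  h.trans (Real.rpow_le_rpow_of_exponent_le (by exact_mod_cast hP) (by linarith))

lemma mnr_sm {κ ρ : ℝ} (h0 : 0 ≤ κ) (h1 : κ ≤ 1) (hρ : 0 ≤ ρ) {A A' C P : ℕ} (hA : A ≤ A') {F : ℕ → ℂ}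
    (hP : 1 ≤ P) (hL : 1 ≤ Real.log P) (h : MinAt P (1 / 30) A' C F) : Mnr3 ρ A C P (sm κ F) := by
  intro q _ hq k hh β k1 k2 k3 k4
  refine (cs_sm_sq h0 h1 F q P β univ).trans ?_
  exact (h q (level hP hρ hq) k hh β k1 k2 k3 k4 P le_rfl).trans (divpow (by positivity) hL hA)

/-- the facts at one scale -/
structure Sc3 (ρ κ : ℝ) (A1 C1 A2 C3 K U V P z r : ℕ) : Prop where
  sL : Str3 (ρ / 2) A2 (C1 + 1) C3 P LA
  sS : Str3 (ρ / 2) A2 (C1 + 1) C3 P (LS z r)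
  sF : Str3 (ρ / 2) A2 (C1 + 1) C3 P (FF z r)
  sG : Str3 (ρ / 2) A2 (C1 + 1) C3 P (sm κ (GG P))
  sH : Str3 (ρ / 2) A2 (C1 + 1) C3 P (sm κ (HH P z r))
  sD : Str3 (ρ / 2) A2 (C1 + 1) C3 P (sm κ (f0 P z r))
  mG : Mnr3 (ρ / 2) A1 C1 P (sm κ (GG P))
  mH : Mnr3 (ρ / 2) A1 C1 P (sm κ (HH P z r))
  mD : Mnr3 (ρ / 2) A1 C1 P (sm κ (f0 P z r))
  tF : Sml K (C1 + 1) U P (FF z r)
  tD : Sml K (C1 + 1) U P (sm κ (f0 P z r))
  e2 : ∑ n ∈ Icc 1 P, ‖LS z r n - LZ z n‖ ^ 2 ≤ P / Real.log P ^ V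
  a2 : ∑ n ∈ Icc 1 P, ‖LA n‖ ^ 2 ≤ P * Real.log P ^ 7
  g2 : ∑ n ∈ Icc 1 P, ‖GG P n‖ ^ 2 ≤ P * Real.log P ^ 7
  s2 : ∑ n ∈ Icc 1 P, ‖LS z r n‖ ^ 2 ≤ P * Real.log P ^ 7
  l2 : ∑ n ∈ Icc 1 P, ‖LZ z n‖ ^ 2 ≤ P * Real.log P ^ 7

lemma cs_subF (q N z r : ℕ) (η : ℝ) (χ : DirichletCharacter ℂ q) :
    cs q N (FF z r) η χ = cs q N LA η χ - cs q N (LS z r) η χ := Pool.Agent.Y949.GJ.cs_sub q N z r η χ

/-- the facts at one scale -/
theorem scale3 (hSC : SmallCStm) {ρ κ c : ℝ} {A1 C1 A2 C3 K U V U' P z r : ℕ} (hρ : 0 < ρ) (hP1 : 1 ≤ P)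
    (hL : 2048 ≤ Real.log P) (hL2 : 2 + 4 * c ≤ Real.log P) (hW : WB (Wt P) c P) (hκ : κ = 1 / (1 + 3 * c))
    (hA : A2 + 3 ≤ U') (hV : 2 * V + 12 ≤ U') (hU : U + K + C1 + 4 ≤ U')
    (hmL : ∀ (q : ℕ) [NeZero q], (q : ℝ) ≤ (P : ℝ) ^ (2 / 3 - ρ / 2) →
      ∃ B : Finset (DirichletCharacter ℂ q), 1 ∈ B ∧ (B.card : ℝ) ≤ Real.log P ^ C3 ∧
        ∀ η : ℝ, |η| ≤ Real.log P ^ (C1 + 1) / P → ∀ S : Finset (DirichletCharacter ℂ q), Disjoint S B →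
          ∑ χ ∈ S, ‖cs q P LA η χ‖ ^ 2 ≤ (P : ℝ) ^ 2 / Real.log P ^ (A2 + 4))
    (hmS : ∀ (q : ℕ) [NeZero q], (q : ℝ) ≤ (P : ℝ) ^ (2 / 3 - ρ / 2) →
      ∀ η : ℝ, |η| ≤ Real.log P ^ (C1 + 1) / P → ∀ S : Finset (DirichletCharacter ℂ q), 1 ∉ S →
        ∑ χ ∈ S, ‖cs q P (LS z r) η χ‖ ^ 2 ≤ (P : ℝ) ^ 2 / Real.log P ^ (A2 + 4))
    (hmG : MajAt P (1 / 30) (A2 + 2) (C1 + 1) C3 (GG P))
    (hmH : ∀ (q : ℕ) [NeZero q], (q : ℝ) ≤ (P : ℝ) ^ ((7 : ℝ) / 10 - 1 / 30) →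
      ∀ η : ℝ, |η| ≤ Real.log P ^ (C1 + 1) / P → ∀ y : ℕ, y ≤ P →
      ∀ S : Finset (DirichletCharacter ℂ q), 1 ∉ S →
        ∑ χ ∈ S, ‖cs q y (HH P z r) η χ‖ ^ 2 ≤ (P : ℝ) ^ 2 / Real.log P ^ (A2 + 2))
    (hnG : MinAt P (1 / 30) (A1 + 2) C1 (GG P)) (hnH : MinAt P (1 / 30) (A1 + 2) C1 (HH P z r))
    (hPar : Par U' P z r) (hm : ∑ n ∈ Icc 1 P, |lamz z n - lsh z r n| ≤ P / Real.log P ^ U')
    (hAp : ApAt P K (U + K + C1 + 2) (f0 P z r))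
    (hp : Real.log P ^ (U' + 4) ≤ (P : ℝ) ^ (3 / 10 : ℝ)) :
    Sc3 ρ κ A1 C1 A2 C3 K U V P z r := by
  have hc := hW.nn
  have hκ0 : 0 ≤ κ := by rw [hκ]; positivity
  have hκ1 : κ ≤ 1 := by
    rw [hκ, div_le_one (by positivity)]
    linarith
  have hκc : κ * (1 + 3 * c) = 1 := by
    rw [hκ]
    field_simp
  obtain ⟨L, hLd⟩ : ∃ L, L = Real.log (P : ℝ) := ⟨_, rfl⟩
  have hL1' : 1 ≤ Real.log P := by linarith
  have hL2' : 2 ≤ Real.log P := by linarith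
  have hD := hPar.hD
  have hVz := hPar.hV
  have hTb := hPar.hT
  have hS := hPar.hS
  have hC := hPar.hC
  have hLc := hPar.hL
  have hU'2 : U' = (U' - 2) + 2 := by omega
  have hPar2 : Par ((U' - 2) + 2) P z r := by rw [← hU'2]; exact hPar
  have hPar1 : Par ((U' - 2) + 1) P z r := Pool.Agent.R460.GS.par_mono hL1' (by omega) hPar
  have hpw : ∀ j, j ≤ U' + 4 → Real.log P ^ j ≤ (P : ℝ) ^ (3 / 10 : ℝ) := fun j hj =>
    (pow_le_pow_right₀ hL1' hj).trans hp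
  have hncG : NcAt P (U' - 2) (GG P) := Pool.Agent.R460.GS.nc_GG hP1 hL2' (hpw _ (by omega))
  have hncH : NcAt P (U' - 2) (HH P z r) := Pool.Agent.R460.GS.nc_HH hW hPar1 (by linarith)
  have hncD : NcAt P (U' - 2) (f0 P z r) :=
    Pool.Agent.R460.GS.nc_f0 hP1 hW hPar2 (by linarith) (hpw _ (by omega))
  have hmD := Pool.Agent.R460.GS.maj_f0 (A := A2) hL2' hmG hmH
  have hnD : MinAt P (1 / 30) A1 C1 (f0 P z r) := by
    have := Pool.Agent.R460.GS.min_f0 hL2' hnG hnH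
    rwa [max_self] at this
  have hbdH : ∀ n ∈ Icc 1 P, ‖HH P z r n‖ ≤ 3 * c * Real.log P * (n.divisors.card : ℝ) :=
    fun n hn => Pool.Agent.R460.GS.bd_HH' hW hPar hn
  rw [← hLd] at hL hm hVz hTb hS hC hLc hmL hmS hbdH
  have hL1 : 1 ≤ L := by linarith
  have hL0 : 0 < L := by linarith
  have hP0 : (0 : ℝ) ≤ P := Nat.cast_nonneg _
  have htau : ∀ n ∈ Icc 1 P, (1 : ℝ) ≤ (n.divisors.card : ℝ) := by
    intro n hn
    rw [mem_Icc] at hn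
    exact_mod_cast Finset.card_pos.2 ⟨1, Nat.one_mem_divisors.2 (by omega)⟩
  have hLn : ∀ n ∈ Icc 1 P, ‖LA n‖ ≤ L := by
    intro n hn
    rw [mem_Icc] at hn
    unfold LA
    rw [Complex.norm_real, Real.norm_eq_abs, abs_of_nonneg ArithmeticFunction.vonMangoldt_nonneg]
    refine ArithmeticFunction.vonMangoldt_le_log.trans ?_
    rw [hLd]
    apply Real.log_le_log (by exact_mod_cast hn.1) (by exact_mod_cast hn.2)
  have hGn : ∀ n ∈ Icc 1 P, ‖GG P n‖ ≤ L := by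
    intro n _
    rw [Pool.Agent.R460.GS.norm_GG, hLd]
    exact Pool.Agent.R460.GS.gr_le P n
  have hSn : ∀ n ∈ Icc 1 P, ‖LS z r n‖ ≤ L * (n.divisors.card : ℝ) := by
    intro n hn
    have h1 := htau n hn
    rw [mem_Icc] at hn
    unfold LS
    rw [Complex.norm_real, Real.norm_eq_abs]
    refine (Pool.Agent.Y883.T3.lsh_le z r n hn.1).trans ?_
    exact mul_le_mul_of_nonneg_right hVz (by linarith)
  have hZn : ∀ n ∈ Icc 1 P, ‖LZ z n‖ ≤ L * (n.divisors.card : ℝ) := by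
    intro n hn
    have h1 := htau n hn
    unfold LZ
    rw [Complex.norm_real, Real.norm_eq_abs, abs_of_nonneg (lamz_nonneg z n)]
    have h2 : lamz z n ≤ (Vz z)⁻¹ := by
      unfold lamz
      split_ifs
      · exact le_rfl
      · exact (inv_pos.2 (Vz_pos z)).le
    calc lamz z n ≤ L := h2.trans hVz
      _ = L * 1 := (mul_one L).symm
      _ ≤ _ := mul_le_mul_of_nonneg_left h1 hL0.le
  have hup : ∀ {G : ℕ → ℂ}, (∀ n ∈ Icc 1 P, ‖G n‖ ≤ L) → ∀ n ∈ Icc 1 P, ‖G n‖ ≤ L * (n.divisors.card : ℝ) := by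
    intro G hG n hn
    have h1 := htau n hn
    calc ‖G n‖ ≤ L * 1 := by rw [mul_one]; exact hG n hn
      _ ≤ _ := mul_le_mul_of_nonneg_left h1 hL0.le
  have hdb : ∀ {G : ℕ → ℂ}, (∀ n ∈ Icc 1 P, ‖G n‖ ≤ L * (n.divisors.card : ℝ)) →
      ∀ n ∈ Icc 1 P, ‖G n‖ ≤ 2 * L * (n.divisors.card : ℝ) := by
    intro G hG n hn
    have h1 := htau n hn
    refine (hG n hn).trans (mul_le_mul_of_nonneg_right (by linarith) (by linarith))
  have hFn : ∀ n, ‖FF z r n‖ = |ArithmeticFunction.vonMangoldt n - lsh z r n| := by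
    intro n
    unfold FF
    rw [Complex.norm_real, Real.norm_eq_abs]
  have hncL : ∀ q : ℕ, 1 ≤ q → q ≤ P →
      ∑ n ∈ (Icc 1 P).filter (fun n => ¬ n.Coprime q), ‖LA n‖ ≤ P / L ^ U' := by
    intro q h1 h2
    refine le_trans (le_of_eq ?_) (hLc q h1 h2)
    apply sum_congr rfl
    intro n _
    unfold LA
    rw [Complex.norm_real, Real.norm_eq_abs, abs_of_nonneg ArithmeticFunction.vonMangoldt_nonneg]
  have hncF : ∀ q : ℕ, 1 ≤ q → q ≤ P →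
      ∑ n ∈ (Icc 1 P).filter (fun n => ¬ n.Coprime q), ‖FF z r n‖ ≤ P / L ^ U' := by
    intro q h1 h2
    refine le_trans (le_of_eq ?_) (hC q h1 h2)
    apply sum_congr rfl
    intro n _
    rw [hFn]
  have hLSe : ∀ n, LS z r n = LA n - FF z r n := by
    intro n
    unfold LS LA FF
    push_cast
    ring
  have hHb : ∀ n ∈ Icc 1 P, κ * ‖HH P z r n‖ ≤ L * (n.divisors.card : ℝ) := by
    intro n hn
    have h1 := htau n hn
    calc κ * ‖HH P z r n‖ ≤ κ * (3 * c * L * (n.divisors.card : ℝ)) :=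
          mul_le_mul_of_nonneg_left (hbdH n hn) hκ0
      _ ≤ (κ * (1 + 3 * c)) * (L * (n.divisors.card : ℝ)) := by
          have h9 : 0 ≤ κ * (L * (n.divisors.card : ℝ)) :=
            mul_nonneg hκ0 (mul_nonneg hL0.le (Nat.cast_nonneg _))
          have h10 : (κ * (1 + 3 * c)) * (L * (n.divisors.card : ℝ)) =
            κ * (3 * c * L * (n.divisors.card : ℝ)) + κ * (L * (n.divisors.card : ℝ)) := by ring
          rw [h10]
          linarith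
      _ = L * (n.divisors.card : ℝ) := by rw [hκc, one_mul]
  have hDb : ∀ n ∈ Icc 1 P, κ * ‖f0 P z r n‖ ≤ 2 * L * (n.divisors.card : ℝ) := by
    intro n hn
    have h1 := htau n hn
    have h2 : ‖f0 P z r n‖ ≤ ‖GG P n‖ + ‖HH P z r n‖ := by
      unfold f0
      exact norm_sub_le _ _
    have h3 := hup hGn n hn
    have h4 := hHb n hn
    calc κ * ‖f0 P z r n‖ ≤ κ * (‖GG P n‖ + ‖HH P z r n‖) := mul_le_mul_of_nonneg_left h2 hκ0
      _ = κ * ‖GG P n‖ + κ * ‖HH P z r n‖ := by ring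
      _ ≤ 1 * ‖GG P n‖ + κ * ‖HH P z r n‖ := by
          have := mul_le_mul_of_nonneg_right hκ1 (norm_nonneg (GG P n))
          linarith
      _ ≤ _ := by linarith
  have hmaj : ∀ {C3' : ℕ} {F : ℕ → ℂ}, MajAt P (1 / 30) A2 (C1 + 1) C3' F →
      ∀ (q : ℕ) [NeZero q], (q : ℝ) ≤ (P : ℝ) ^ (2 / 3 - ρ / 2) →
      ∃ B : Finset (DirichletCharacter ℂ q), (B.card : ℝ) ≤ Real.log P ^ C3' ∧
        ∀ η : ℝ, |η| ≤ Real.log P ^ (C1 + 1) / P → ∀ S : Finset (DirichletCharacter ℂ q), Disjoint S B →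
          ∑ χ ∈ S, ‖cs q P F η χ‖ ^ 2 ≤ (P : ℝ) ^ 2 / Real.log P ^ A2 := by
    intro C3' F hF q _ hq
    obtain ⟨B, -, hB1, hB2⟩ := hF q (level hP1 (by linarith) hq)
    exact ⟨B, hB1, fun η hη S hS => hB2 η hη P le_rfl S hS⟩
  have hmG' : MajAt P (1 / 30) A2 (C1 + 1) C3 (GG P) := by
    intro q _ hq
    obtain ⟨B, hB0, hB1, hB2⟩ := hmG q hq
    exact ⟨B, hB0, hB1, fun η hη y hy S hS => (hB2 η hη y hy S hS).trans
      (divpow (by positivity) hL1' (by omega))⟩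
  have hmH' : MajAt P (1 / 30) A2 (C1 + 1) C3 (HH P z r) := by
    refine Pool.Agent.R460.GS.maj_HH hL1' fun q _ hq η hη y hy S hS => ?_
    exact (hmH q hq η hη y hy S hS).trans (divpow (by positivity) hL1' (by omega))
  refine ⟨⟨?_, ?_, ?_⟩, ⟨?_, ?_, ?_⟩, ⟨?_, ?_, ?_⟩, ⟨?_, ?_, ?_⟩, ⟨?_, ?_, ?_⟩, ⟨?_, ?_, ?_⟩, ?_, ?_, ?_, ?_, ?_,
    ?_, ?_, ?_, ?_, ?_⟩ <;> (try rw [← hLd])
  · exact hdb (hup hLn)
  · intro q h1 h2
    exact (hncL q h1 h2).trans (divpow hP0 hL1 (by omega))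
  · intro q _ hq
    obtain ⟨B, -, hB, h⟩ := hmL q hq
    exact ⟨B, hB, fun η hη S hS => (h η hη S hS).trans (divpow (by positivity) hL1 (by omega))⟩
  · exact hdb hSn
  · intro q h1 h2
    have h3 : ∑ n ∈ (Icc 1 P).filter (fun n => ¬ n.Coprime q), ‖LS z r n‖ ≤ 2 * (P / L ^ U') := by
      calc ∑ n ∈ (Icc 1 P).filter (fun n => ¬ n.Coprime q), ‖LS z r n‖ ≤
            ∑ n ∈ (Icc 1 P).filter (fun n => ¬ n.Coprime q), (‖LA n‖ + ‖FF z r n‖) := by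
              apply sum_le_sum
              intro n _
              rw [hLSe]
              exact norm_sub_le _ _
        _ ≤ P / L ^ U' + P / L ^ U' := by
            rw [sum_add_distrib]
            exact add_le_add (hncL q h1 h2) (hncF q h1 h2)
        _ = _ := by ring
    exact h3.trans (by exact_mod_cast divpow2 (k := 2) hP0 (by norm_num; linarith) hL1 (by omega))
  · intro q _ hq
    refine ⟨{1}, ?_, fun η hη S hS => ?_⟩
    · rw [card_singleton, Nat.cast_one]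
      exact one_le_pow₀ hL1
    · have h1 : (1 : DirichletCharacter ℂ q) ∉ S := by
        rw [disjoint_singleton_right] at hS
        exact hS
      exact (hmS q hq η hη S h1).trans (divpow (by positivity) hL1 (by omega))
  · intro n hn
    rw [hFn]
    exact hTb n hn
  · intro q h1 h2
    exact (hncF q h1 h2).trans (divpow hP0 hL1 (by omega))
  · intro q _ hq
    obtain ⟨B, h1B, hB, h⟩ := hmL q hq
    refine ⟨B, hB, fun η hη S hS => ?_⟩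
    have h1 : (1 : DirichletCharacter ℂ q) ∉ S := fun h' => (Finset.disjoint_left.1 hS h') h1B
    have k1 := h η hη S hS
    have k2 := hmS q hq η hη S h1
    calc ∑ χ ∈ S, ‖cs q P (FF z r) η χ‖ ^ 2 ≤
          ∑ χ ∈ S, (2 * ‖cs q P LA η χ‖ ^ 2 + 2 * ‖cs q P (LS z r) η χ‖ ^ 2) := by
            apply sum_le_sum
            intro χ _
            rw [cs_subF]
            exact Pool.Agent.Y949.GJ.sq_sub_le _ _
      _ = 2 * ∑ χ ∈ S, ‖cs q P LA η χ‖ ^ 2 + 2 * ∑ χ ∈ S, ‖cs q P (LS z r) η χ‖ ^ 2 := by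
          rw [sum_add_distrib, mul_sum, mul_sum]
      _ ≤ ((4 : ℕ) : ℝ) * ((P : ℝ) ^ 2 / L ^ (A2 + 4)) := by push_cast; linarith
      _ ≤ (P : ℝ) ^ 2 / L ^ A2 := divpow2 (by positivity) (by norm_num; linarith) hL1 (by omega)
  · intro n hn
    rw [sm_norm hκ0]
    exact (mul_le_of_le_one_left (norm_nonneg _) hκ1).trans (hdb (hup hGn) n hn)
  · intro q h1 h2
    have h3 := hncG q h1 h2
    rw [← hLd] at h3
    refine le_trans (sum_le_sum fun n _ => ?_) (h3.trans (divpow hP0 hL1 (by omega)))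
    rw [sm_norm hκ0]
    exact mul_le_of_le_one_left (norm_nonneg _) hκ1
  · intro q _ hq
    obtain ⟨B, hB1, hB2⟩ := hmaj hmG' q hq
    rw [← hLd] at hB1 hB2
    exact ⟨B, hB1, fun η hη S hS => (cs_sm_sq hκ0 hκ1 _ _ _ _ _).trans (hB2 η hη S hS)⟩
  · intro n hn
    rw [sm_norm hκ0]
    have h1 := htau n hn
    refine (hHb n hn).trans (mul_le_mul_of_nonneg_right (by linarith) (by linarith))
  · intro q h1 h2
    have h3 := hncH q h1 h2
    rw [← hLd] at h3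
    refine le_trans (sum_le_sum fun n _ => ?_) (h3.trans (divpow hP0 hL1 (by omega)))
    rw [sm_norm hκ0]
    exact mul_le_of_le_one_left (norm_nonneg _) hκ1
  · intro q _ hq
    obtain ⟨B, hB1, hB2⟩ := hmaj hmH' q hq
    rw [← hLd] at hB1 hB2
    exact ⟨B, hB1, fun η hη S hS => (cs_sm_sq hκ0 hκ1 _ _ _ _ _).trans (hB2 η hη S hS)⟩
  · intro n hn
    rw [sm_norm hκ0]
    exact hDb n hn
  · intro q h1 h2
    have h3 := hncD q h1 h2
    rw [← hLd] at h3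
    refine le_trans (sum_le_sum fun n _ => ?_) (h3.trans (divpow hP0 hL1 (by omega)))
    rw [sm_norm hκ0]
    exact mul_le_of_le_one_left (norm_nonneg _) hκ1
  · intro q _ hq
    obtain ⟨B, hB1, hB2⟩ := hmaj hmD q hq
    rw [← hLd] at hB1 hB2
    exact ⟨B, hB1, fun η hη S hS => (cs_sm_sq hκ0 hκ1 _ _ _ _ _).trans (hB2 η hη S hS)⟩
  · exact mnr_sm hκ0 hκ1 (by linarith) (by omega) hP1 hL1' hnG
  · exact mnr_sm hκ0 hκ1 (by linarith) (by omega) hP1 hL1' hnH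
  · exact mnr_sm hκ0 hκ1 (by linarith) le_rfl hP1 hL1' hnD
  · intro q _ hq χ hχ η hη
    rw [← hLd] at hχ ⊢
    have h1 := hSC q P (FF z r) (P / L ^ U') (P / L ^ U') (fun α => by
      exact hS α) (hncF q (Nat.pos_of_ne_zero (NeZero.ne q)) hq) χ η
    refine h1.trans ?_
    have h2 : Real.sqrt χ.conductor ≤ L ^ K := by
      have h3 : 1 ≤ L ^ K := one_le_pow₀ hL1
      apply Real.sqrt_le_iff.2
      refine ⟨by positivity, hχ.trans ?_⟩
      nlinarith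
    have h3 : 1 ≤ L ^ K := one_le_pow₀ hL1
    have h4 : 0 ≤ P / L ^ U' := by positivity
    calc Real.sqrt χ.conductor * (P / L ^ U') + P / L ^ U' ≤ L ^ K * (P / L ^ U') + L ^ K * (P / L ^ U') := by
          nlinarith
      _ = L ^ K * (((2 : ℕ) : ℝ) * (P / L ^ U')) := by push_cast; ring
      _ ≤ L ^ K * (P / L ^ (U + K)) := by
          refine mul_le_mul_of_nonneg_left (divpow2 hP0 (by norm_num; linarith) hL1 (by omega)) (by positivity)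
      _ = P / L ^ U := by
          rw [pow_add]
          field_simp
  · intro q _ hq χ hχ η hη
    refine (cs_sm_le hκ0 hκ1 _ _ _ _ _).trans ?_
    have hnc' : NcAt P (U + K + C1 + 2) (f0 P z r) := fun q h1 h2 => (hncD q h1 h2).trans
      (divpow hP0 hL1' (by omega))
    have h1 := Pool.Agent.R460.GS.small_cs hAp hnc' hq χ hχ (by linarith) hP1 P le_rfl η hη
    refine h1.trans (le_of_eq ?_)
    rw [← hLd, show U + K + C1 + 2 = U + (K + (C1 + 1) + 1) by ring, pow_add L U]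
    field_simp
  · apply sq_small hLd hL hV
    · intro n hn
      refine (norm_sub_le _ _).trans ?_
      have h1 := hSn n hn
      have h2 := hZn n hn
      linarith
    · refine le_trans (le_of_eq ?_) hm
      apply sum_congr rfl
      intro n _
      unfold LS LZ
      rw [← Complex.ofReal_sub, Complex.norm_real, Real.norm_eq_abs, abs_sub_comm]
  · exact sq_mom hLd (by linarith) (hup hLn)
  · exact sq_mom hLd (by linarith) (hup hGn)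
  · exact sq_mom hLd (by linarith) hSn
  · exact sq_mom hLd (by linarith) hZn

end Pool.Agent.H7.BK
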