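import Pool.Agent.H7.BK.Vec3
import Pool.Graph.R_seed8.R460.GS.ErrAll

set_option autoImplicit false

/-! The vector sieve for the ternary equation. -/

namespace Pool.Agent.H7.BK

open Finset
open Pool.Agent.H807R2.Dav (ee)
open Pool.Agent.H373R2.T7 (lamz Vz pz Vz_pos lamz_nonneg lamz_ap)
open Pool.Agent.Y883.T3 (lsh)
open Pool.Agent.Y883.GJ
open Pool.Agent.Y883.T6 (S3 zP)
open Pool.Agent.Y949.GJ (LZ divpow divpow2 zP_bounds S3_coe)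
open Pool.Agent.R460.GS (GG HH f0 gr Wt ZZ WB gr_nonneg vm_le MGStm NGStm MHStm NHStm WtbStm WtdStm ApgStm
  wb_of MajAt MinAt)
open Pool.Agent.Y614.GJ.Core (ev_log)

/-- mean squares at one scale -/
structure Q3 (κe K : ℝ) (B P z r : ℕ) : Prop where
  qA : ∑ n ∈ Icc 1 P, ‖LA n‖ ^ 2 ≤ P * K
  qP : ∑ n ∈ Icc 1 P, ‖LP P n‖ ^ 2 ≤ P * K
  qG : ∑ n ∈ Icc 1 P, ‖GG P n‖ ^ 2 ≤ P * K
  qS : ∑ n ∈ Icc 1 P, ‖LS z r n‖ ^ 2 ≤ P * K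
  qZ : ∑ n ∈ Icc 1 P, ‖LZ z n‖ ^ 2 ≤ P * K
  qH : ∑ n ∈ Icc 1 P, ‖HH P z r n‖ ^ 2 ≤ P * K
  qY : ∑ n ∈ Icc 1 P, ‖HZ P z n‖ ^ 2 ≤ P * K
  dP : ∑ n ∈ Icc 1 P, ‖LP P n - LA n‖ ^ 2 ≤ P * κe
  dG : ∑ n ∈ Icc 1 P, ‖GG P n - GG P n‖ ^ 2 ≤ P * κe
  dS : ∑ n ∈ Icc 1 P, ‖LS z r n - LZ z n‖ ^ 2 ≤ P * κe
  dH : ∑ n ∈ Icc 1 P, ‖HH P z r n - HZ P z n‖ ^ 2 ≤ P * κe
  dZ : ∑ n ∈ Icc 1 P, ‖((sml B P n * lamz z n : ℝ) : ℂ)‖ ^ 2 ≤ P * κe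

lemma q3_of {ρ κ c L : ℝ} {A1 C1 A2 C3 K U V P z r : ℕ} (hW : WB (Wt P) c P) (hP1 : 1 ≤ P)
    (s : Sc3 ρ κ A1 C1 A2 C3 K U V P z r) (hl1 : L ≤ 4 * Real.log P) (hl2 : Real.log P ≤ L) (hL : 4 ≤ L)
    (hc : c ^ 2 ≤ L) (hV : (Vz z)⁻¹ ≤ Real.log P)
    (he : ∑ n ∈ Icc 1 P, ‖LP P n - LA n‖ ^ 2 ≤ P / Real.log P ^ V) :
    Q3 (4 ^ V / L ^ V * L) (L ^ 8) (V + 2) P z r := by
  classical
  have hc0 := hW.nn
  obtain ⟨ℓ, hℓ⟩ : ∃ ℓ, ℓ = Real.log (P : ℝ) := ⟨_, rfl⟩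
  have e2 := s.e2
  have a2 := s.a2
  have g2 := s.g2
  have s2 := s.s2
  have l2 := s.l2
  rw [← hℓ] at hl1 hl2 hV he e2 a2 g2 s2 l2
  have hℓ1 : 1 ≤ ℓ := by linarith
  have hℓ0 : 0 < ℓ := by linarith
  have hL0 : 0 < L := by linarith
  have hP0 : (0 : ℝ) ≤ P := Nat.cast_nonneg _
  have kV : 1 / ℓ ^ V ≤ 4 ^ V / L ^ V := by
    rw [div_le_div_iff₀ (by positivity) (by positivity), one_mul, ← mul_pow]
    exact pow_le_pow_left₀ hL0.le hl1 V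
  have kV0 : (0 : ℝ) ≤ 4 ^ V / L ^ V := by positivity
  have kV1 : (4 : ℝ) ^ V / L ^ V ≤ 4 ^ V / L ^ V * L := le_mul_of_one_le_right kV0 (by linarith)
  have fe : ∀ {x : ℝ}, x ≤ P / ℓ ^ V → x ≤ P * (4 ^ V / L ^ V * L) := by
    intro x hx
    refine hx.trans ?_
    rw [div_eq_mul_one_div]
    exact mul_le_mul_of_nonneg_left (kV.trans kV1) hP0
  have k7 : ℓ ^ 7 ≤ L ^ 7 := pow_le_pow_left₀ hℓ0.le hl2 7
  have k8 : L ^ 7 ≤ L ^ 8 := pow_le_pow_right₀ (by linarith) (by norm_num)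
  have f7 : ∀ {x : ℝ}, x ≤ P * ℓ ^ 7 → x ≤ P * L ^ 8 := by
    intro x hx
    exact hx.trans (mul_le_mul_of_nonneg_left (k7.trans k8) hP0)
  have fw : ∀ {F G : ℕ → ℂ}, (∀ n ∈ Icc 1 P, ‖F n‖ ≤ c * ‖G n‖) →
      ∑ n ∈ Icc 1 P, ‖F n‖ ^ 2 ≤ L * ∑ n ∈ Icc 1 P, ‖G n‖ ^ 2 := by
    intro F G h
    rw [mul_sum]
    refine sum_le_sum fun n hn => ?_
    calc ‖F n‖ ^ 2 ≤ (c * ‖G n‖) ^ 2 := pow_le_pow_left₀ (norm_nonneg _) (h n hn) 2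
      _ = c ^ 2 * ‖G n‖ ^ 2 := by ring
      _ ≤ L * ‖G n‖ ^ 2 := mul_le_mul_of_nonneg_right hc (sq_nonneg _)
  have fw7 : ∀ {F G : ℕ → ℂ}, (∀ n ∈ Icc 1 P, ‖F n‖ ≤ c * ‖G n‖) →
      ∑ n ∈ Icc 1 P, ‖G n‖ ^ 2 ≤ P * ℓ ^ 7 → ∑ n ∈ Icc 1 P, ‖F n‖ ^ 2 ≤ P * L ^ 8 := by
    intro F G h hG
    refine (fw h).trans ?_
    calc L * ∑ n ∈ Icc 1 P, ‖G n‖ ^ 2 ≤ L * (P * L ^ 7) :=
          mul_le_mul_of_nonneg_left (hG.trans (mul_le_mul_of_nonneg_left k7 hP0)) hL0.le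
      _ = P * L ^ 8 := by ring
  have hwt : ∀ n ∈ Icc 1 P, ‖((Wt P n : ℝ) : ℂ)‖ ≤ c := by
    intro n hn
    rw [Complex.norm_real, Real.norm_of_nonneg (hW.h0 n)]
    exact hW.h1 n (mem_Icc.1 hn).2
  refine ⟨f7 a2, ?_, f7 g2, f7 s2, f7 l2, ?_, ?_, fe he, ?_, fe e2, ?_, ?_⟩
  · refine f7 (le_trans (sum_le_sum fun n _ => ?_) a2)
    refine pow_le_pow_left₀ (norm_nonneg _) ?_ 2
    unfold LP LA
    rw [Complex.norm_real, Complex.norm_real, Real.norm_of_nonneg (lp_nonneg P n),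
      Real.norm_of_nonneg ArithmeticFunction.vonMangoldt_nonneg]
    exact lp_le_vm P n
  · refine fw7 (G := LS z r) (fun n hn => ?_) s2
    have h1 : HH P z r n = ((Wt P n : ℝ) : ℂ) * LS z r n := by
      unfold HH LS
      push_cast
      ring
    rw [h1, norm_mul]
    exact mul_le_mul_of_nonneg_right (hwt n hn) (norm_nonneg _)
  · refine fw7 (G := LZ z) (fun n hn => ?_) l2
    have h1 : HZ P z n = ((Wt P n : ℝ) : ℂ) * LZ z n := by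
      unfold HZ LZ
      push_cast
      ring
    rw [h1, norm_mul]
    exact mul_le_mul_of_nonneg_right (hwt n hn) (norm_nonneg _)
  · have h1 : ∑ n ∈ Icc 1 P, ‖GG P n - GG P n‖ ^ 2 = 0 :=
      sum_eq_zero fun n _ => by rw [sub_self, norm_zero, zero_pow two_ne_zero]
    rw [h1]
    positivity
  · refine (fw (F := fun n => HH P z r n - HZ P z n) (G := fun n => LS z r n - LZ z n) (fun n hn => ?_)).trans ?_
    · have h1 : HH P z r n - HZ P z n = ((Wt P n : ℝ) : ℂ) * (LS z r n - LZ z n) := by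
        unfold HH HZ LS LZ
        push_cast
        ring
      rw [h1, norm_mul]
      exact mul_le_mul_of_nonneg_right (hwt n hn) (norm_nonneg _)
    · calc L * ∑ n ∈ Icc 1 P, ‖LS z r n - LZ z n‖ ^ 2 ≤ L * (P * (4 ^ V / L ^ V)) := by
            refine mul_le_mul_of_nonneg_left (e2.trans ?_) hL0.le
            rw [div_eq_mul_one_div]
            exact mul_le_mul_of_nonneg_left kV hP0
        _ = _ := by ring
  · -- the small numbers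
    have hz0 : 0 < (Vz z)⁻¹ := inv_pos.2 (Vz_pos z)
    have hlz : ∀ n, lamz z n ≤ ℓ := by
      intro n
      have h2 : lamz z n ≤ (Vz z)⁻¹ := by
        unfold lamz
        split_ifs
        · exact le_rfl
        · exact hz0.le
      exact h2.trans hV
    have hpt : ∀ n ∈ Icc 1 P, ‖((sml (V + 2) P n * lamz z n : ℝ) : ℂ)‖ ^ 2 ≤
        if (n : ℝ) < P / ℓ ^ (V + 2) then ℓ ^ 2 else 0 := by
      intro n _
      rw [Complex.norm_real, Real.norm_eq_abs, sq_abs]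
      unfold sml
      rw [← hℓ]
      by_cases h : (n : ℝ) < P / ℓ ^ (V + 2)
      · rw [if_pos h, if_pos h, one_mul]
        exact pow_le_pow_left₀ (lamz_nonneg z n) (hlz n) 2
      · rw [if_neg h, if_neg h, zero_mul, zero_pow two_ne_zero]
    refine fe ?_
    refine (sum_le_sum hpt).trans ?_
    rw [← sum_filter, sum_const, nsmul_eq_mul]
    have hcard : (((Icc 1 P).filter (fun n : ℕ => (n : ℝ) < P / ℓ ^ (V + 2))).card : ℝ) ≤ P / ℓ ^ (V + 2) := by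
      have h1 : (Icc 1 P).filter (fun n : ℕ => (n : ℝ) < P / ℓ ^ (V + 2)) ⊆ Icc 1 ⌊(P : ℝ) / ℓ ^ (V + 2)⌋₊ := by
        intro n hn
        rw [mem_filter, mem_Icc] at hn
        rw [mem_Icc]
        exact ⟨hn.1.1, Nat.le_floor hn.2.le⟩
      have h2 := card_le_card h1
      rw [Nat.card_Icc, Nat.add_sub_cancel] at h2
      calc (((Icc 1 P).filter (fun n : ℕ => (n : ℝ) < P / ℓ ^ (V + 2))).card : ℝ) ≤
            (⌊(P : ℝ) / ℓ ^ (V + 2)⌋₊ : ℝ) := by exact_mod_cast h2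
        _ ≤ _ := Nat.floor_le (by positivity)
    calc (((Icc 1 P).filter (fun n : ℕ => (n : ℝ) < P / ℓ ^ (V + 2))).card : ℝ) * ℓ ^ 2 ≤
          (P / ℓ ^ (V + 2)) * ℓ ^ 2 := mul_le_mul_of_nonneg_right hcard (by positivity)
      _ = P / ℓ ^ V := by
          rw [pow_add]
          field_simp

/-- LOW3: the vector sieve -/
def Low3Stm : Prop := ∀ (A T B₀ : ℕ) (ρ : ℝ), 0 < ρ → ∃ B : ℕ, B₀ ≤ B ∧ ∃ N₀ : ℕ, ∀ N : ℕ, N₀ ≤ N →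
  ∀ {c1 c2 c3 d : ℤ} {P1 P2 P3 : ℕ}, Par3 ρ N T c1 c2 c3 d P1 P2 P3 →
  59 / 1000 * S3 c1 c2 c3 d P1 P2 P3 (lamz (zP B P1)) (lamz (zP B P2)) (lamz (zP B P3)) -
    (N : ℝ) ^ 2 / (c1.natAbs * c2.natAbs * c3.natAbs) / Real.log N ^ A ≤
  S3 c1 c2 c3 d P1 P2 P3 (lp P1) (lp P2) (lp P3)

/-- the facts at one scale, for all large scales -/
lemma all_scales (hMajL : MajL3Stm) (hMajH : MajH3Stm) (hMG : MGStm) (hMH : MHStm)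
    (hWtb : WtbStm) (hApg : ApgStm) (hModel : ModelStm) (hSC : SmallCStm) {ρ : ℝ} (hρ : 0 < ρ)
    (A1 Cg Ch : ℕ)
    (hNG : ∃ N₀ : ℕ, ∀ N : ℕ, N₀ ≤ N → MinAt N (1 / 30) (A1 + 2) Cg (GG N))
    (hNH : ∃ N₀ : ℕ, ∀ N : ℕ, N₀ ≤ N → ∀ z r : ℕ,
      ((((z + 1) ^ r) ^ 100 : ℕ) : ℝ) ≤ N → (Vz z)⁻¹ ≤ Real.log N →
      MinAt N (1 / 30) (A1 + 2) Ch (fun n => ((Wt N n * lsh z r n : ℝ) : ℂ))) (A2 : ℕ) :
    ∃ (C3 : ℕ) (c : ℝ), 0 ≤ c ∧ ∀ (K U V B₀ : ℕ), ∃ B : ℕ, B₀ ≤ B ∧ ∃ P₀ : ℕ, ∀ P : ℕ, P₀ ≤ P →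
      WB (Wt P) c P ∧ ∃ r : ℕ, (Vz (zP B P))⁻¹ ≤ Real.log P ∧
        Sc3 ρ (1 / (1 + 3 * c)) A1 (max Cg Ch) A2 C3 K U V P (zP B P) r := by
  have h30 : (0 : ℝ) < 1 / 30 := by norm_num
  obtain ⟨Ng, hg⟩ := hNG
  obtain ⟨Nh, hh⟩ := hNH
  obtain ⟨C1, hC1⟩ : ∃ C1, C1 = max Cg Ch := ⟨_, rfl⟩
  rw [← hC1]
  obtain ⟨C3a, NL, hL⟩ := hMajL (A2 + 4) (C1 + 1) (ρ / 2) (by linarith)
  obtain ⟨C3b, Nm1, hm1⟩ := hMG (A2 + 2) (C1 + 1) (1 / 30) h30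
  obtain ⟨NS, hS⟩ := hMajH (A2 + 4) (C1 + 1) (ρ / 2) (by linarith)
  obtain ⟨Nm2, hm2⟩ := hMH (A2 + 2) (C1 + 1) (1 / 30) h30
  obtain ⟨C3, hC3⟩ : ∃ C3, C3 = max C3a C3b := ⟨_, rfl⟩
  obtain ⟨c, Nw, hWB⟩ := wb_of hWtb
  have hc0 : 0 ≤ c := (hWB Nw le_rfl).nn
  refine ⟨C3, c, hc0, fun K U V B₀ => ?_⟩
  obtain ⟨U', hU'⟩ : ∃ U' : ℕ, U' = U + K + C1 + 4 + (A2 + 3) + (2 * V + 12) := ⟨_, rfl⟩
  obtain ⟨Bm, hM⟩ := hModel (U' + 2)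
  obtain ⟨B, hB⟩ : ∃ B : ℕ, B = max B₀ (max Bm K) := ⟨_, rfl⟩
  have hB0 : B₀ ≤ B := by rw [hB]; exact le_max_left _ _
  have hBm : Bm ≤ B := by rw [hB]; exact (le_max_left _ _).trans (le_max_right _ _)
  have hBK : K ≤ B := by rw [hB]; exact (le_max_right _ _).trans (le_max_right _ _)
  obtain ⟨Nmo, hmo⟩ := hM (B + 1)
  obtain ⟨Nl, hl⟩ := lamz_ap (B + 1) (U + K + C1 + 2 + 2)
  obtain ⟨Na, ha⟩ := hApg K (U + K + C1 + 2 + 2)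
  obtain ⟨Ne, hNe⟩ := Filter.eventually_atTop.1 (ev_log (U' + 4) (s := 3 / 10) (by norm_num) (2048 + 4 * c))
  refine ⟨B, hB0, Ng + Nh + NL + Nm1 + NS + Nm2 + Nw + Nmo + Nl + Na + Ne + 1, fun P hP => ?_⟩
  have hW := hWB P (by omega)
  obtain ⟨hlog, hp⟩ := hNe P (by omega)
  have hL1 : 1 ≤ Real.log P := by linarith
  refine ⟨hW, ?_⟩
  obtain ⟨z1, z2⟩ := zP_bounds (P := P) hBm (by linarith)
  obtain ⟨r, hr1, hr2⟩ := hmo P (by omega) (zP B P) z1 z2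
  have hzK : Real.log P ^ K ≤ zP B P := (zP_bounds (P := P) hBK (by linarith)).1
  have hz1 : 1 ≤ zP B P := by
    have : (1 : ℝ) ≤ zP B P := (one_le_pow₀ hL1).trans hzK
    exact_mod_cast this
  have hPar : Par U' P (zP B P) r := Pool.Agent.R460.GS.par_mono hL1 (by omega) hr1
  have hsum : ∀ j, j ≤ U' + 2 → ∑ n ∈ Icc 1 P, |lamz (zP B P) n - lsh (zP B P) r n| ≤ P / Real.log P ^ j :=
    fun j hj => hr2.trans (divpow (Nat.cast_nonneg _) hL1 hj)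
  refine ⟨r, hPar.hV, ?_⟩
  have hnH := hh P (by omega) (zP B P) r hPar.hD hPar.hV
  refine scale3 hSC (c := c) (U' := U') hρ (by omega) (by linarith) (by linarith) hW rfl (by omega) (by omega)
    (by omega) ?_ (fun q _ hq => hS P (by omega) q hq (zP B P) r hPar.hD hPar.hV) ?_
    (fun q _ hq => hm2 P (by omega) q hq (zP B P) r hPar.hD hPar.hV) ?_ ?_ hPar (hsum _ (by omega)) ?_ hp
  · intro q _ hq
    obtain ⟨Bq, b1, b2, b3⟩ := hL P (by omega) q hq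
    exact ⟨Bq, b1, b2.trans (pow_le_pow_right₀ hL1 (by rw [hC3]; exact le_max_left _ _)), b3⟩
  · intro q _ hq
    obtain ⟨Bq, b1, b2, b3⟩ := hm1 P (by omega) q hq
    exact ⟨Bq, b1, b2.trans (pow_le_pow_right₀ hL1 (by rw [hC3]; exact le_max_right _ _)), b3⟩
  · exact Pool.Agent.R460.GS.min_mono hL1 (by rw [hC1]; exact le_max_left _ _) (hg P (by omega))
  · exact Pool.Agent.R460.GS.min_mono hL1 (by rw [hC1]; exact le_max_right _ _) hnH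
  · refine Pool.Agent.R460.GS.ap_f0 hW (by linarith) ?_ (hsum _ (by omega)) (ha P (by omega))
    intro q hq hqK c' y hy
    refine hl P (by omega) (zP B P) hz1 z2 q hq ?_ c' y hy
    exact_mod_cast hqK.trans hzK

end Pool.Agent.H7.BK
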