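import Pool.Graph.R_seed8.Y883.GJ.Stm3

set_option autoImplicit false

/-! Ternary linear equations with large coefficients: the functions and the sizes, moduli up to
`P ^ (2 / 3 - ρ)`. -/

namespace Pool.Agent.H7.BK

open Finset
open Pool.Agent.H807R2.Dav (ee)
open Pool.Agent.Y883.GJ

/-- the structure of the functions at one scale -/
structure Str3 (ρ : ℝ) (A C C₃ P : ℕ) (G : ℕ → ℂ) : Prop where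
  bd : ∀ n ∈ Icc 1 P, ‖G n‖ ≤ 2 * Real.log P * (n.divisors.card : ℝ)
  nc : ∀ q : ℕ, 1 ≤ q → q ≤ P → ∑ n ∈ (Icc 1 P).filter (fun n => ¬ n.Coprime q), ‖G n‖ ≤ P / Real.log P ^ A
  maj : ∀ (q : ℕ) [NeZero q], (q : ℝ) ≤ (P : ℝ) ^ (2 / 3 - ρ) →
    ∃ B : Finset (DirichletCharacter ℂ q), (B.card : ℝ) ≤ Real.log P ^ C₃ ∧
      ∀ η : ℝ, |η| ≤ Real.log P ^ C / P → ∀ S : Finset (DirichletCharacter ℂ q), Disjoint S B →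
        ∑ χ ∈ S, ‖cs q P G η χ‖ ^ 2 ≤ (P : ℝ) ^ 2 / Real.log P ^ A

/-- the minor arcs at one scale -/
def Mnr3 (ρ : ℝ) (A C P : ℕ) (G : ℕ → ℂ) : Prop :=
  ∀ (q : ℕ) [NeZero q], (q : ℝ) ≤ (P : ℝ) ^ (2 / 3 - ρ) → ∀ (k : ℕ) (h : ℤ) (β : ℝ),
    Real.log P ^ C ≤ k → (q : ℝ) * k * Real.log P ^ C ≤ P → IsCoprime h (k : ℤ) →
    |q * β - h / k| ≤ 1 / (k : ℝ) ^ 2 →
    ∑ χ : DirichletCharacter ℂ q, ‖cs q P G β χ‖ ^ 2 ≤ (P : ℝ) ^ 2 / Real.log P ^ A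

/-- the characters of small conductor on the major arcs -/
def Sml (K C U P : ℕ) (G : ℕ → ℂ) : Prop :=
  ∀ (q : ℕ) [NeZero q], q ≤ P → ∀ χ : DirichletCharacter ℂ q, (χ.conductor : ℝ) ≤ Real.log P ^ K →
    ∀ η : ℝ, |η| ≤ Real.log P ^ C / P → ‖cs q P G η χ‖ ≤ P / Real.log P ^ U

/-- the sizes -/
structure Par3 (ρ : ℝ) (N T : ℕ) (c1 c2 c3 d : ℤ) (P1 P2 P3 : ℕ) : Prop where
  n1 : c1 ≠ 0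
  n2 : c2 ≠ 0
  n3 : c3 ≠ 0
  u1 : c1.natAbs * P1 ≤ N
  u2 : c2.natAbs * P2 ≤ N
  u3 : c3.natAbs * P3 ≤ N
  v1 : N < 2 * (c1.natAbs * P1)
  v2 : N < 2 * (c2.natAbs * P2)
  v3 : N < 2 * (c3.natAbs * P3)
  hd : 3 * |d| ≤ N
  q1 : ((c2.natAbs * c3.natAbs : ℕ) : ℝ) ≤ (P1 : ℝ) ^ (2 / 3 - ρ)
  q2 : ((c1.natAbs * c3.natAbs : ℕ) : ℝ) ≤ (P2 : ℝ) ^ (2 / 3 - ρ)
  q3 : ((c1.natAbs * c2.natAbs : ℕ) : ℝ) ≤ (P3 : ℝ) ^ (2 / 3 - ρ)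
  g12 : IsCoprime c1 c2
  g13 : IsCoprime c1 c3
  g23 : IsCoprime c2 c3
  gd : ((Nat.gcd d.natAbs (c1.natAbs * c2.natAbs * c3.natAbs) : ℕ) : ℝ) ≤ Real.log N ^ T

/-- TPW3: the pointwise estimate of the ternary sum on the major arcs -/
def TPW3Stm : Prop := ∀ (A T : ℕ) (ρ : ℝ), 0 < ρ → ∀ C₁ : ℕ, ∃ A₂ : ℕ, ∀ C₃ : ℕ, ∃ K U N₀ : ℕ,
  ∀ N : ℕ, N₀ ≤ N → ∀ {c1 c2 c3 d : ℤ} {P1 P2 P3 : ℕ}, Par3 ρ N T c1 c2 c3 d P1 P2 P3 → ∀ G1 G2 G3 : ℕ → ℂ,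
  Str3 (ρ / 2) A₂ (C₁ + 1) C₃ P1 G1 → Str3 (ρ / 2) A₂ (C₁ + 1) C₃ P2 G2 →
  Str3 (ρ / 2) A₂ (C₁ + 1) C₃ P3 G3 → Sml K (C₁ + 1) U P1 G1 →
  ∀ (k : ℕ) [NeZero (k * c2.natAbs * c3.natAbs)] [NeZero (k * c1.natAbs * c3.natAbs)]
    [NeZero (k * c1.natAbs * c2.natAbs)], 1 ≤ k → (k : ℝ) ≤ Real.log N ^ C₁ →
  ∀ d' : ZMod (k * c1.natAbs * c2.natAbs * c3.natAbs),
    ((d'.val : ℕ) : ZMod (1 * c1.natAbs * c2.natAbs * c3.natAbs)) = (d : ZMod (1 * c1.natAbs * c2.natAbs * c3.natAbs)) →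
  ∀ η : ℝ, |c1 * η| ≤ Real.log P1 ^ (C₁ + 1) / P1 → |c2 * η| ≤ Real.log P2 ^ (C₁ + 1) / P2 →
    |c3 * η| ≤ Real.log P3 ^ (C₁ + 1) / P3 →
  ‖T3 c1 c2 c3 k d' (cl _ P1 G1 (c1 * η)) (cl _ P2 G2 (c2 * η)) (cl _ P3 G3 (c3 * η))‖ ≤
    (1 / Real.log N ^ A) *
      (P1 / Real.sqrt (c2.natAbs * c3.natAbs) *
        (Real.sqrt (∑ x, ‖cl (k * c1.natAbs * c3.natAbs) P2 G2 (c2 * η) x‖ ^ 2) *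
          Real.sqrt (∑ x, ‖cl (k * c1.natAbs * c2.natAbs) P3 G3 (c3 * η) x‖ ^ 2)) +
       P2 / Real.sqrt (c1.natAbs * c3.natAbs) *
        (Real.sqrt (∑ x, ‖cl (k * c2.natAbs * c3.natAbs) P1 G1 (c1 * η) x‖ ^ 2) *
          Real.sqrt (∑ x, ‖cl (k * c1.natAbs * c2.natAbs) P3 G3 (c3 * η) x‖ ^ 2)) +
       P3 / Real.sqrt (c1.natAbs * c2.natAbs) *
        (Real.sqrt (∑ x, ‖cl (k * c2.natAbs * c3.natAbs) P1 G1 (c1 * η) x‖ ^ 2) *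
          Real.sqrt (∑ x, ‖cl (k * c1.natAbs * c3.natAbs) P2 G2 (c2 * η) x‖ ^ 2)))

/-- TERN3: the error term of the ternary equation, the difference is in the first place, the minor arcs are
treated with the first or with the second function -/
def Tern3Stm : Prop := ∀ (A T : ℕ) (ρ : ℝ), 0 < ρ → ∃ A₁ : ℕ, ∀ C₁ : ℕ, ∃ A₂ : ℕ, ∀ C₃ : ℕ, ∃ K U N₀ : ℕ,
  ∀ N : ℕ, N₀ ≤ N → ∀ {c1 c2 c3 d : ℤ} {P1 P2 P3 : ℕ}, Par3 ρ N T c1 c2 c3 d P1 P2 P3 → ∀ G1 G2 G3 : ℕ → ℂ,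
  (Mnr3 (ρ / 2) A₁ C₁ P1 G1 ∨ Mnr3 (ρ / 2) A₁ C₁ P2 G2) →
  Str3 (ρ / 2) A₂ (C₁ + 1) C₃ P1 G1 → Str3 (ρ / 2) A₂ (C₁ + 1) C₃ P2 G2 →
  Str3 (ρ / 2) A₂ (C₁ + 1) C₃ P3 G3 → Sml K (C₁ + 1) U P1 G1 →
  ‖SS3 c1 c2 c3 d P1 P2 P3 G1 G2 G3‖ ≤
    (N : ℝ) ^ 2 / (c1.natAbs * c2.natAbs * c3.natAbs) / Real.log N ^ A

end Pool.Agent.H7.BK
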