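import Pool.Agent.H7.BK.Scale3
import Pool.Agent.H7.BK.Tpw3
import Pool.Graph.R_seed8.Y949.GJ.Err7

set_option autoImplicit false

/-! Replacement of the functions in the ternary equation. -/

namespace Pool.Agent.H7.BK

open Finset
open Pool.Agent.H807R2.Dav (ee)
open Pool.Agent.H373R2.T7 (lamz Vz pz)
open Pool.Agent.Y883.T3 (lsh)
open Pool.Agent.Y883.GJ
open Pool.Agent.Y883.T6 (S3 zP)
open Pool.Agent.Y949.GJ (LZ divpow divpow2 SS3_swap SS3_rot SS3_tel S3_coe zP_bounds)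

lemma swap3 {ρ : ℝ} {N T : ℕ} {c1 c2 c3 d : ℤ} {P1 P2 P3 : ℕ} (h : Par3 ρ N T c1 c2 c3 d P1 P2 P3) :
    Par3 ρ N T c2 c1 c3 d P2 P1 P3 :=
  ⟨h.n2, h.n1, h.n3, h.u2, h.u1, h.u3, h.v2, h.v1, h.v3, h.hd, h.q2, h.q1, by rw [mul_comm]; exact h.q3,
    h.g12.symm, h.g23, h.g13, by
      rw [show c2.natAbs * c1.natAbs * c3.natAbs = c1.natAbs * c2.natAbs * c3.natAbs by ring]; exact h.gd⟩

lemma rot3 {ρ : ℝ} {N T : ℕ} {c1 c2 c3 d : ℤ} {P1 P2 P3 : ℕ} (h : Par3 ρ N T c1 c2 c3 d P1 P2 P3) :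
    Par3 ρ N T c2 c3 c1 d P2 P3 P1 :=
  ⟨h.n2, h.n3, h.n1, h.u2, h.u3, h.u1, h.v2, h.v3, h.v1, h.hd, by rw [mul_comm]; exact h.q2,
    by rw [mul_comm]; exact h.q3, h.q1, h.g23, h.g12.symm, h.g13.symm, by
      rw [show c2.natAbs * c3.natAbs * c1.natAbs = c1.natAbs * c2.natAbs * c3.natAbs by ring]; exact h.gd⟩

/-- the sizes -/
lemma size3 {ρ : ℝ} (hρ : 0 < ρ) (P₀ : ℕ) {N : ℕ} (hN : 8 * (P₀ + 8) ^ 3 ≤ N) (hL : 64 ≤ Real.log N) {T : ℕ}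
    {c1 c2 c3 d : ℤ} {P1 P2 P3 : ℕ} (h : Par3 ρ N T c1 c2 c3 d P1 P2 P3) : P₀ ≤ P1 ∧ 1 ≤ P1 ∧
      Real.log N ≤ 4 * Real.log P1 ∧ Real.log P1 ≤ Real.log N ∧ c2.natAbs * c3.natAbs ≤ P1 := by
  have hN1 : 1 ≤ N := le_trans (Nat.one_le_iff_ne_zero.2 (by positivity)) hN
  have hpos : ∀ (c : ℤ) (P : ℕ), N < 2 * (c.natAbs * P) → 1 ≤ P := by
    intro c P hc
    by_contra h0
    have : P = 0 := by omega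
    subst this
    simp at hc
  have hP1 := hpos _ _ h.v1
  have hP2 := hpos _ _ h.v2
  have ha1 : 1 ≤ c1.natAbs := Int.natAbs_pos.2 h.n1
  have ha2 : 1 ≤ c2.natAbs := Int.natAbs_pos.2 h.n2
  have ha3 : 1 ≤ c3.natAbs := Int.natAbs_pos.2 h.n3
  have hP1N : P1 ≤ N := (Nat.le_mul_of_pos_left _ ha1).trans h.u1
  have s1 : (c2.natAbs * c3.natAbs) ^ 3 ≤ P1 ^ 2 := cube_le_of_rpow hP1 hρ h.q1
  have s2 : (c1.natAbs * c3.natAbs) ^ 3 ≤ P2 ^ 2 := cube_le_of_rpow hP2 hρ h.q2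
  obtain ⟨-, hz⟩ := sizes4 ha2 s1 s2 ha3 h.u1 h.u2 h.v1
  refine ⟨?_, hP1, log_low4 hN1 hP1 hz hL, ?_, le_of_cube s1 hP1⟩
  · by_contra hc
    have h6 : P1 < P₀ + 8 := by omega
    have h7 : P1 ^ 3 < (P₀ + 8) ^ 3 := Nat.pow_lt_pow_left h6 (by norm_num)
    omega
  · exact Real.log_le_log (by exact_mod_cast hP1) (by exact_mod_cast hP1N)

/-- the trivial bound in square mean with the sizes -/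
lemma hold3 (h6 : HoldStm) {ρ : ℝ} {N T : ℕ} {c1 c2 c3 d : ℤ} {P1 P2 P3 : ℕ}
    (h : Par3 ρ N T c1 c2 c3 d P1 P2 P3) (hq' : c2.natAbs * c3.natAbs ≤ P1) {G1 G2 G3 : ℕ → ℂ}
    {K1 K2 K3 X : ℝ} (hK1 : 0 ≤ K1) (hK2 : 0 ≤ K2) (hK3 : 0 ≤ K3) (hX : 0 ≤ X)
    (g1 : ∑ n ∈ Icc 1 P1, ‖G1 n‖ ^ 2 ≤ P1 * K1) (g2 : ∑ n ∈ Icc 1 P2, ‖G2 n‖ ^ 2 ≤ P2 * K2)
    (g3 : ∑ n ∈ Icc 1 P3, ‖G3 n‖ ^ 2 ≤ P3 * K3) (hK : 2 * (K1 * K2 * K3) ≤ X ^ 2) :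
    ‖SS3 c1 c2 c3 d P1 P2 P3 G1 G2 G3‖ ≤ (N : ℝ) ^ 2 / (c1.natAbs * c2.natAbs * c3.natAbs) * X := by
  have h1 := h6 c1 c2 c3 d P1 P2 P3 G1 G2 G3 h.n1 h.n2 h.n3 h.g12 h.g13 h.g23
  have ha1 : (0 : ℝ) < c1.natAbs := by exact_mod_cast Int.natAbs_pos.2 h.n1
  have ha2 : (0 : ℝ) < c2.natAbs := by exact_mod_cast Int.natAbs_pos.2 h.n2
  have ha3 : (0 : ℝ) < c3.natAbs := by exact_mod_cast Int.natAbs_pos.2 h.n3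
  have hPr : ∀ (c : ℤ) (P : ℕ), (0 : ℝ) < c.natAbs → c.natAbs * P ≤ N → (P : ℝ) ≤ N / c.natAbs := by
    intro c P ha h
    rw [le_div_iff₀ ha, mul_comm]
    exact_mod_cast h
  have hP1 := hPr c1 P1 ha1 h.u1
  have hP2 := hPr c2 P2 ha2 h.u2
  have hP3 := hPr c3 P3 ha3 h.u3
  have hq : ((c2.natAbs * c3.natAbs : ℕ) : ℝ) ≤ P1 := by exact_mod_cast hq'
  obtain ⟨a1, ea1⟩ : ∃ a1 : ℝ, a1 = (c1.natAbs : ℝ) := ⟨_, rfl⟩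
  obtain ⟨a2, ea2⟩ : ∃ a2 : ℝ, a2 = (c2.natAbs : ℝ) := ⟨_, rfl⟩
  obtain ⟨a3, ea3⟩ : ∃ a3 : ℝ, a3 = (c3.natAbs : ℝ) := ⟨_, rfl⟩
  push_cast at hq
  rw [← ea1] at ha1 hP1
  rw [← ea2] at ha2 hP2
  rw [← ea3] at ha3 hP3
  rw [← ea2, ← ea3] at hq h1
  rw [← ea1, ← ea2, ← ea3]
  have hP10 : (0 : ℝ) ≤ P1 := Nat.cast_nonneg _
  have hP20 : (0 : ℝ) ≤ P2 := Nat.cast_nonneg _
  have hP30 : (0 : ℝ) ≤ P3 := Nat.cast_nonneg _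
  have hN0 : (0 : ℝ) ≤ N := Nat.cast_nonneg _
  have h2 : (P1 : ℝ) / (a2 * a3) + 1 ≤ 2 * (P1 / (a2 * a3)) := by
    have : 1 ≤ (P1 : ℝ) / (a2 * a3) := by
      rw [le_div_iff₀ (by positivity), one_mul]; exact hq
    linarith
  have h3 : ‖SS3 c1 c2 c3 d P1 P2 P3 G1 G2 G3‖ ^ 2 ≤ ((N : ℝ) ^ 2 / (a1 * a2 * a3) * X) ^ 2 := by
    refine h1.trans ?_
    calc ((P1 : ℝ) / (a2 * a3) + 1) * (∑ n ∈ Icc 1 P1, ‖G1 n‖ ^ 2) * (∑ n ∈ Icc 1 P2, ‖G2 n‖ ^ 2) *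
          (∑ n ∈ Icc 1 P3, ‖G3 n‖ ^ 2) ≤ (2 * (P1 / (a2 * a3))) * (P1 * K1) * (P2 * K2) * (P3 * K3) := by
          gcongr
      _ ≤ (2 * ((N / a1) / (a2 * a3))) * ((N / a1) * K1) * ((N / a2) * K2) * ((N / a3) * K3) := by
          gcongr
      _ = ((N : ℝ) ^ 2 / (a1 * a2 * a3)) ^ 2 * (2 * (K1 * K2 * K3)) := by
          field_simp
      _ ≤ ((N : ℝ) ^ 2 / (a1 * a2 * a3)) ^ 2 * X ^ 2 := mul_le_mul_of_nonneg_left hK (by positivity)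
      _ = ((N : ℝ) ^ 2 / (a1 * a2 * a3) * X) ^ 2 := by ring
  exact (pow_le_pow_iff_left₀ (norm_nonneg _) (by positivity) (by norm_num)).1 h3

/-- replacement of three functions by three functions which are close in square mean -/
lemma hold_tel (h6 : HoldStm) {ρ : ℝ} {N T : ℕ} {c1 c2 c3 d : ℤ} {P1 P2 P3 : ℕ}
    (h : Par3 ρ N T c1 c2 c3 d P1 P2 P3) (hq : c2.natAbs * c3.natAbs ≤ P1) {G1 G2 G3 H1 H2 H3 : ℕ → ℂ}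
    {κe K X : ℝ} (he : 0 ≤ κe) (hK0 : 0 ≤ K) (hX : 0 ≤ X)
    (g2 : ∑ n ∈ Icc 1 P2, ‖G2 n‖ ^ 2 ≤ P2 * K) (g3 : ∑ n ∈ Icc 1 P3, ‖G3 n‖ ^ 2 ≤ P3 * K)
    (h1 : ∑ n ∈ Icc 1 P1, ‖H1 n‖ ^ 2 ≤ P1 * K) (h2 : ∑ n ∈ Icc 1 P2, ‖H2 n‖ ^ 2 ≤ P2 * K)
    (d1 : ∑ n ∈ Icc 1 P1, ‖G1 n - H1 n‖ ^ 2 ≤ P1 * κe) (d2 : ∑ n ∈ Icc 1 P2, ‖G2 n - H2 n‖ ^ 2 ≤ P2 * κe)
    (d3 : ∑ n ∈ Icc 1 P3, ‖G3 n - H3 n‖ ^ 2 ≤ P3 * κe) (hK : 2 * (κe * K * K) ≤ X ^ 2) :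
    ‖SS3 c1 c2 c3 d P1 P2 P3 G1 G2 G3 - SS3 c1 c2 c3 d P1 P2 P3 H1 H2 H3‖ ≤
      3 * ((N : ℝ) ^ 2 / (c1.natAbs * c2.natAbs * c3.natAbs) * X) := by
  have t1 := hold3 h6 h hq (G1 := fun n => G1 n - H1 n) he hK0 hK0 hX d1 g2 g3 hK
  have t2 := hold3 h6 h hq (G1 := H1) (G2 := fun n => G2 n - H2 n) hK0 he hK0 hX h1 d2 g3
    (le_trans (le_of_eq (by ring)) hK)
  have t3 := hold3 h6 h hq (G1 := H1) (G2 := H2) (G3 := fun n => G3 n - H3 n) hK0 hK0 he hX h1 h2 d3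
    (le_trans (le_of_eq (by ring)) hK)
  rw [SS3_tel]
  refine norm_add₃_le.trans ?_
  linarith

/-- replacement of three functions, the minor arcs are treated with the first function -/
lemma tern_tel {ρ : ℝ} {A T A1 C1 A2 C3 K U N : ℕ}
    (hT : ∀ {c1 c2 c3 d : ℤ} {P1 P2 P3 : ℕ}, Par3 ρ N T c1 c2 c3 d P1 P2 P3 → ∀ G1 G2 G3 : ℕ → ℂ,
      (Mnr3 (ρ / 2) A1 C1 P1 G1 ∨ Mnr3 (ρ / 2) A1 C1 P2 G2) →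
      Str3 (ρ / 2) A2 (C1 + 1) C3 P1 G1 → Str3 (ρ / 2) A2 (C1 + 1) C3 P2 G2 →
      Str3 (ρ / 2) A2 (C1 + 1) C3 P3 G3 → Sml K (C1 + 1) U P1 G1 →
      ‖SS3 c1 c2 c3 d P1 P2 P3 G1 G2 G3‖ ≤
        (N : ℝ) ^ 2 / (c1.natAbs * c2.natAbs * c3.natAbs) / Real.log N ^ A)
    {c1 c2 c3 d : ℤ} {P1 P2 P3 : ℕ} (hp : Par3 ρ N T c1 c2 c3 d P1 P2 P3) {G1 G2 G3 H1 H2 H3 : ℕ → ℂ}
    (hm : (Mnr3 (ρ / 2) A1 C1 P1 (fun n => G1 n - H1 n) ∧ Mnr3 (ρ / 2) A1 C1 P1 H1) ∨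
      (Mnr3 (ρ / 2) A1 C1 P2 G2 ∧ Mnr3 (ρ / 2) A1 C1 P2 (fun n => G2 n - H2 n) ∧ Mnr3 (ρ / 2) A1 C1 P2 H2))
    (sG2 : Str3 (ρ / 2) A2 (C1 + 1) C3 P2 G2) (sG3 : Str3 (ρ / 2) A2 (C1 + 1) C3 P3 G3)
    (sH1 : Str3 (ρ / 2) A2 (C1 + 1) C3 P1 H1) (sH2 : Str3 (ρ / 2) A2 (C1 + 1) C3 P2 H2)
    (sD1 : Str3 (ρ / 2) A2 (C1 + 1) C3 P1 (fun n => G1 n - H1 n))
    (sD2 : Str3 (ρ / 2) A2 (C1 + 1) C3 P2 (fun n => G2 n - H2 n))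
    (sD3 : Str3 (ρ / 2) A2 (C1 + 1) C3 P3 (fun n => G3 n - H3 n))
    (tD1 : Sml K (C1 + 1) U P1 (fun n => G1 n - H1 n)) (tD2 : Sml K (C1 + 1) U P2 (fun n => G2 n - H2 n))
    (tD3 : Sml K (C1 + 1) U P3 (fun n => G3 n - H3 n)) :
    ‖SS3 c1 c2 c3 d P1 P2 P3 G1 G2 G3 - SS3 c1 c2 c3 d P1 P2 P3 H1 H2 H3‖ ≤
      3 * ((N : ℝ) ^ 2 / (c1.natAbs * c2.natAbs * c3.natAbs) / Real.log N ^ A) := by
  obtain ⟨ε, hε⟩ : ∃ ε : ℝ, ε = (N : ℝ) ^ 2 / (c1.natAbs * c2.natAbs * c3.natAbs) / Real.log N ^ A := ⟨_, rfl⟩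
  rw [← hε]
  have t1 : ‖SS3 c1 c2 c3 d P1 P2 P3 (fun n => G1 n - H1 n) G2 G3‖ ≤ ε := by
    rw [hε]
    exact hT hp _ _ _ (hm.imp (fun h => h.1) (fun h => h.1)) sD1 sG2 sG3 tD1
  have t2 : ‖SS3 c1 c2 c3 d P1 P2 P3 H1 (fun n => G2 n - H2 n) G3‖ ≤ ε := by
    have h := hT (swap3 hp) (fun n => G2 n - H2 n) H1 G3
      (hm.elim (fun h => Or.inr h.2) (fun h => Or.inl h.2.1)) sD2 sH1 sG3 tD2
    rw [SS3_swap]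
    refine h.trans (le_of_eq ?_)
    rw [hε]
    congr 2
    ring
  have t3 : ‖SS3 c1 c2 c3 d P1 P2 P3 H1 H2 (fun n => G3 n - H3 n)‖ ≤ ε := by
    rcases hm with hm | hm
    · have h := hT (rot3 (rot3 hp)) (fun n => G3 n - H3 n) H1 H2 (Or.inr hm.2) sD3 sH1 sH2 tD3
      rw [SS3_rot, SS3_rot]
      refine h.trans (le_of_eq ?_)
      rw [hε]
      congr 2
      ring
    · have h := hT (rot3 (rot3 (swap3 hp))) (fun n => G3 n - H3 n) H2 H1 (Or.inr hm.2.2) sD3 sH2 sH1 tD3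
      rw [SS3_swap, SS3_rot, SS3_rot]
      refine h.trans (le_of_eq ?_)
      rw [hε]
      congr 2
      ring
  rw [SS3_tel]
  refine norm_add₃_le.trans ?_
  linarith

lemma SS3_sm (κ1 κ2 κ3 : ℝ) (c1 c2 c3 d : ℤ) (P1 P2 P3 : ℕ) (G1 G2 G3 : ℕ → ℂ) :
    SS3 c1 c2 c3 d P1 P2 P3 (sm κ1 G1) (sm κ2 G2) (sm κ3 G3) =
      ((κ1 * κ2 * κ3 : ℝ) : ℂ) * SS3 c1 c2 c3 d P1 P2 P3 G1 G2 G3 := by
  unfold SS3 sm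
  simp only [mul_sum]
  refine sum_congr rfl fun x _ => sum_congr rfl fun y _ => sum_congr rfl fun z _ => ?_
  split_ifs
  · push_cast
    ring
  · rw [mul_zero]

lemma sm_one (F : ℕ → ℂ) : sm 1 F = F := by
  funext n
  unfold sm
  rw [Complex.ofReal_one, one_mul]

lemma sm_sub (κ : ℝ) (F G : ℕ → ℂ) : (fun n => sm κ F n - sm κ G n) = sm κ (fun n => F n - G n) := by
  funext n
  unfold sm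
  ring

end Pool.Agent.H7.BK
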