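import Pool.Agent.H7.BK.Tel3

set_option autoImplicit false

/-! The vector sieve for the ternary equation: pointwise inequalities and mean squares. -/

namespace Pool.Agent.H7.BK

open Finset
open Pool.Agent.H807R2.Dav (ee)
open Pool.Agent.H373R2.T7 (lamz Vz pz Vz_pos lamz_nonneg)
open Pool.Agent.Y883.T3 (lsh)
open Pool.Agent.Y883.GJ
open Pool.Agent.Y883.T6 (S3 zP)
open Pool.Agent.Y949.GJ (LZ divpow divpow2)
open Pool.Agent.R460.GS (GG HH f0 gr Wt ZZ WB gr_nonneg vm_le)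

/-- the von Mangoldt function on the primes larger than `P ^ (3 / 10)` -/
noncomputable def lp (P n : ℕ) : ℝ := if n.Prime ∧ ZZ P < n then ArithmeticFunction.vonMangoldt n else 0

/-- the same with complex values -/
noncomputable def LP (P n : ℕ) : ℂ := ((lp P n : ℝ) : ℂ)

/-- the weighted model with complex values -/
noncomputable def HZ (P z n : ℕ) : ℂ := ((Wt P n * lamz z n : ℝ) : ℂ)

open Classical in
/-- the small numbers -/
noncomputable def sml (B P n : ℕ) : ℝ := if (n : ℝ) < P / Real.log P ^ B then 1 else 0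

lemma sml_cases (B P n : ℕ) : (sml B P n = 0 ∧ (P : ℝ) / Real.log P ^ B ≤ n) ∨ sml B P n = 1 := by
  classical
  unfold sml
  by_cases h : (n : ℝ) < P / Real.log P ^ B
  · right; rw [if_pos h]
  · left
    rw [if_neg h]
    exact ⟨rfl, not_lt.1 h⟩

lemma lp_nonneg (P n : ℕ) : 0 ≤ lp P n := by
  unfold lp
  split_ifs
  · exact ArithmeticFunction.vonMangoldt_nonneg
  · exact le_rfl

lemma lp_le_vm (P n : ℕ) : lp P n ≤ ArithmeticFunction.vonMangoldt n := by
  unfold lp
  split_ifs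
  · exact le_rfl
  · exact ArithmeticFunction.vonMangoldt_nonneg

lemma lp_le_gr {P n : ℕ} (hn : n ∈ Icc 1 P) : lp P n ≤ gr P n := by
  unfold lp
  split_ifs with h
  · have h1 : gr P n = Real.log P := by
      unfold gr
      rw [if_pos]
      intro p hp
      rw [h.1.primeFactors, mem_singleton] at hp
      rw [hp]
      exact h.2
    rw [h1]
    exact vm_le hn
  · exact gr_nonneg P n

/-- the vector sieve -/
lemma vec (c1 c2 c3 d : ℤ) (P1 P2 P3 : ℕ) :
    S3 c1 c2 c3 d P1 P2 P3 (lp P1) (gr P2) (lp P3) + S3 c1 c2 c3 d P1 P2 P3 (gr P1) (lp P2) (lp P3) -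
      S3 c1 c2 c3 d P1 P2 P3 (gr P1) (gr P2) (lp P3) ≤ S3 c1 c2 c3 d P1 P2 P3 (lp P1) (lp P2) (lp P3) := by
  unfold S3
  simp only [← sum_add_distrib, ← sum_sub_distrib]
  refine sum_le_sum fun x hx => sum_le_sum fun y hy => sum_le_sum fun z _ => ?_
  split_ifs
  · have h1 := lp_le_gr hx
    have h2 := lp_le_gr hy
    have h3 := lp_nonneg P3 z
    have h4 : 0 ≤ (gr P1 x - lp P1 x) * (gr P2 y - lp P2 y) * lp P3 z :=
      mul_nonneg (mul_nonneg (by linarith) (by linarith)) h3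
    nlinarith
  · norm_num

/-- the main term of the vector sieve -/
lemma main_term {c1 c2 c3 d : ℤ} {P1 P2 P3 z1 z2 z3 B : ℕ} {c : ℝ} (hW1 : WB (Wt P1) c P1) (hW2 : WB (Wt P2) c P2)
    (h1 : ∀ n : ℕ, n ≤ P1 → (P1 : ℝ) / Real.log P1 ^ B ≤ n → 1 ≤ Wt P1 n ∧ Wt P1 n ≤ 197 / 100)
    (h2 : ∀ n : ℕ, n ≤ P2 → (P2 : ℝ) / Real.log P2 ^ B ≤ n → 1 ≤ Wt P2 n ∧ Wt P2 n ≤ 197 / 100) :
    59 / 1000 * S3 c1 c2 c3 d P1 P2 P3 (lamz z1) (lamz z2) (lamz z3) -
      (c ^ 2 + 1) * (S3 c1 c2 c3 d P1 P2 P3 (fun n => sml B P1 n * lamz z1 n) (lamz z2) (lamz z3) +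
        S3 c1 c2 c3 d P1 P2 P3 (lamz z1) (fun n => sml B P2 n * lamz z2 n) (lamz z3)) ≤
      S3 c1 c2 c3 d P1 P2 P3 (lamz z1) (fun n => Wt P2 n * lamz z2 n) (lamz z3) +
      S3 c1 c2 c3 d P1 P2 P3 (fun n => Wt P1 n * lamz z1 n) (lamz z2) (lamz z3) -
      S3 c1 c2 c3 d P1 P2 P3 (fun n => Wt P1 n * lamz z1 n) (fun n => Wt P2 n * lamz z2 n) (lamz z3) := by
  unfold S3
  simp only [mul_add, mul_sum]
  simp only [← sum_add_distrib, ← sum_sub_distrib]
  refine sum_le_sum fun x hx => sum_le_sum fun y hy => sum_le_sum fun w _ => ?_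
  rw [mem_Icc] at hx hy
  split_ifs
  · have a1 := hW1.h0 x
    have a2 := hW2.h0 y
    have a3 := hW1.h1 x hx.2
    have a4 := hW2.h1 y hy.2
    have hc := hW1.nn
    have b1 := lamz_nonneg z1 x
    have b2 := lamz_nonneg z2 y
    have b3 := lamz_nonneg z3 w
    obtain ⟨t, ht⟩ : ∃ t : ℝ, t = lamz z1 x * lamz z2 y * lamz z3 w := ⟨_, rfl⟩
    have ht0 : 0 ≤ t := by rw [ht]; positivity
    have key : 59 / 1000 - (c ^ 2 + 1) * (sml B P1 x + sml B P2 y) ≤
        Wt P2 y + Wt P1 x - Wt P1 x * Wt P2 y := by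
      have hcc : Wt P1 x * Wt P2 y ≤ c ^ 2 := by
        rw [sq]
        exact mul_le_mul a3 a4 a2 hc
      rcases sml_cases B P1 x with ⟨k1, k1'⟩ | k1
      · rcases sml_cases B P2 y with ⟨k2, k2'⟩ | k2
        · obtain ⟨e1, e2⟩ := h1 x hx.2 k1'
          obtain ⟨e3, e4⟩ := h2 y hy.2 k2'
          rw [k1, k2]
          have h5 : (Wt P1 x - 1) * (Wt P2 y - 1) ≤ 97 / 100 * (97 / 100) :=
            mul_le_mul (by linarith) (by linarith) (by linarith) (by norm_num)
          nlinarith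
        · rw [k1, k2]
          nlinarith [sq_nonneg c]
      · rcases sml_cases B P2 y with ⟨k2, -⟩ | k2
        · rw [k1, k2]
          nlinarith [sq_nonneg c]
        · rw [k1, k2]
          nlinarith [sq_nonneg c]
    have h5 := mul_le_mul_of_nonneg_right key ht0
    calc _ = (59 / 1000 - (c ^ 2 + 1) * (sml B P1 x + sml B P2 y)) * t := by rw [ht]; ring
      _ ≤ _ := h5
      _ = _ := by rw [ht]; ring
  · norm_num

/-- the powers of primes and the small primes -/
lemma eP (V : ℕ) : ∃ P₀ : ℕ, ∀ P : ℕ, P₀ ≤ P →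
    ∑ n ∈ Icc 1 P, ‖LP P n - LA n‖ ^ 2 ≤ P / Real.log P ^ V := by
  classical
  obtain ⟨n1, hn1⟩ := Pool.Agent.Y883.T3.ev_log_rpow (V + 3) 3 (1 / 2) (by norm_num)
  obtain ⟨n2, hn2⟩ := Pool.Agent.TH935.LD.ev_L' 2
  refine ⟨n1 + n2 + 1, fun P hP => ?_⟩
  have hlog := hn1 P (by omega)
  have hL2 := hn2 P (by omega)
  have hP1 : 1 ≤ P := by omega
  have hPr : (1 : ℝ) ≤ P := by exact_mod_cast hP1
  have hP0 : (0 : ℝ) < P := by linarith
  obtain ⟨L, hLd⟩ : ∃ L, L = Real.log (P : ℝ) := ⟨_, rfl⟩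
  rw [← hLd] at hlog hL2 ⊢
  have hL0 : 0 < L := by linarith
  obtain ⟨E, hE⟩ : ∃ E : Finset ℕ, E = (Icc 1 P).filter (fun n =>
    ArithmeticFunction.vonMangoldt n ≠ 0 ∧ ¬ (n.Prime ∧ ZZ P < n)) := ⟨_, rfl⟩
  have hpt : ∀ n ∈ Icc 1 P, ‖LP P n - LA n‖ ^ 2 ≤ if n ∈ E then L ^ 2 else 0 := by
    intro n hn
    have hn' := hn
    have h1 := vm_le hn
    rw [← hLd] at h1
    have h2 : 0 ≤ ArithmeticFunction.vonMangoldt n := ArithmeticFunction.vonMangoldt_nonneg
    unfold LP LA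
    rw [← Complex.ofReal_sub, Complex.norm_real, Real.norm_eq_abs, sq_abs]
    by_cases h : n.Prime ∧ ZZ P < n
    · have h3 : lp P n = ArithmeticFunction.vonMangoldt n := by
        unfold lp
        rw [if_pos h]
      rw [h3, sub_self, zero_pow two_ne_zero]
      split_ifs <;> positivity
    · have h3 : lp P n = 0 := by
        unfold lp
        rw [if_neg h]
      rw [h3, zero_sub, neg_sq]
      by_cases h4 : ArithmeticFunction.vonMangoldt n = 0
      · rw [h4, zero_pow two_ne_zero]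
        split_ifs <;> positivity
      · rw [if_pos]
        · exact pow_le_pow_left₀ h2 h1 2
        · rw [hE, mem_filter]
          exact ⟨hn', h4, h⟩
  have hcard : (E.card : ℝ) ≤ Real.sqrt P * (3 * L) := by
    have h1 : E ⊆ (Icc 1 (Nat.sqrt P) ×ˢ range (Nat.log 2 P + 1)).image (fun x => x.1 ^ x.2) := by
      intro b hb
      rw [hE, mem_filter, mem_Icc] at hb
      obtain ⟨hb1, hb2, hb3⟩ := hb
      obtain ⟨p, k, hp, hk, rfl⟩ := (isPrimePow_nat_iff _).1 (ArithmeticFunction.vonMangoldt_ne_zero_iff.1 hb2)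
      have h3 : p ≤ Nat.sqrt P := by
        rw [Nat.le_sqrt]
        rcases Nat.lt_or_ge k 2 with hk2 | hk2
        · have hk1 : k = 1 := by omega
          subst hk1
          rw [pow_one] at hb3 hb1
          have h4 : p ≤ ZZ P := by
            by_contra h5
            exact hb3 ⟨hp, by omega⟩
          have h5 : (ZZ P : ℝ) ≤ (P : ℝ) ^ (3 / 10 : ℝ) := Nat.floor_le (by positivity)
          have h6 : (p : ℝ) ≤ (P : ℝ) ^ (3 / 10 : ℝ) := le_trans (by exact_mod_cast h4) h5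
          have h7 : (p : ℝ) * p ≤ P := by
            calc (p : ℝ) * p ≤ (P : ℝ) ^ (3 / 10 : ℝ) * (P : ℝ) ^ (3 / 10 : ℝ) :=
                  mul_le_mul h6 h6 (Nat.cast_nonneg _) (by positivity)
              _ = (P : ℝ) ^ (6 / 10 : ℝ) := by
                  rw [← Real.rpow_add hP0]
                  norm_num
              _ ≤ (P : ℝ) ^ (1 : ℝ) := Real.rpow_le_rpow_of_exponent_le hPr (by norm_num)
              _ = P := Real.rpow_one _
          exact_mod_cast h7
        · calc p * p = p ^ 2 := by ring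
            _ ≤ p ^ k := Nat.pow_le_pow_right hp.pos hk2
            _ ≤ P := hb1.2
      rw [mem_image]
      refine ⟨(p, k), ?_, rfl⟩
      rw [mem_product, mem_Icc, mem_range, Nat.lt_succ_iff]
      refine ⟨⟨hp.one_le, h3⟩, ?_⟩
      apply Nat.le_log_of_pow_le (by norm_num)
      exact (Nat.pow_le_pow_left hp.two_le k).trans hb1.2
    have h2 := (card_le_card h1).trans card_image_le
    rw [card_product, Nat.card_Icc, Nat.add_sub_cancel, card_range] at h2
    have h3 : (E.card : ℝ) ≤ (Nat.sqrt P : ℝ) * ((Nat.log 2 P + 1 : ℕ) : ℝ) := by exact_mod_cast h2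
    refine h3.trans (mul_le_mul ?_ ?_ (Nat.cast_nonneg _) (Real.sqrt_nonneg _))
    · apply Real.le_sqrt_of_sq_le
      have := Nat.sqrt_le' P
      exact_mod_cast this
    · push_cast
      have h4 : (Nat.log 2 P : ℝ) ≤ 2 * L := by
        have h5 : 2 ^ Nat.log 2 P ≤ P := Nat.pow_log_le_self 2 (by omega)
        have h6 : ((2 : ℝ) ^ Nat.log 2 P) ≤ P := by exact_mod_cast h5
        have h7 := Real.log_le_log (by positivity) h6
        rw [Real.log_pow, ← hLd] at h7
        have h8 := Real.log_two_gt_d9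
        have h9 : (0 : ℝ) ≤ (Nat.log 2 P : ℝ) := Nat.cast_nonneg _
        nlinarith
      linarith
  refine (sum_le_sum hpt).trans ?_
  rw [← sum_filter, sum_const, nsmul_eq_mul]
  have h1 : (Icc 1 P).filter (fun n => n ∈ E) = E := by
    ext n
    rw [mem_filter]
    constructor
    · exact fun h => h.2
    · intro h
      refine ⟨?_, h⟩
      rw [hE, mem_filter] at h
      exact h.1
  rw [h1, le_div_iff₀ (by positivity)]
  calc (E.card : ℝ) * L ^ 2 * L ^ V ≤ (Real.sqrt P * (3 * L)) * L ^ 2 * L ^ V := by gcongr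
    _ = Real.sqrt P * (3 * L ^ (V + 3)) := by ring
    _ ≤ Real.sqrt P * (P : ℝ) ^ (1 / 2 : ℝ) := mul_le_mul_of_nonneg_left hlog (Real.sqrt_nonneg _)
    _ = P := by
        rw [← Real.sqrt_eq_rpow]
        exact Real.mul_self_sqrt hP0.le

end Pool.Agent.H7.BK
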