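import Pool.Agent.H7.BK.PV
import Pool.Graph.R_seed8.Helper112.Arith
import Pool.Graph.R_seed8.Y883.T3.Vin
import Pool.Graph.R_seed8.TH935.LP.L1

set_option autoImplicit false

/-! The size of incomplete character sums, for moduli up to `N ^ (2 / 3 - ρ)`. -/

namespace Pool.Agent.H7.BK

open Finset

/-- the bound of Polya and Vinogradov -/
noncomputable def Wq (q : ℕ) : ℝ := (q.divisors.card : ℝ) * (2 * Real.sqrt q * (1 + Real.log q))

lemma Wq_nonneg (q : ℕ) : 0 ≤ Wq q := by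
  unfold Wq
  have := Real.log_natCast_nonneg q
  positivity

lemma Wq_small (ρ : ℝ) (hρ : 0 < ρ) (j : ℕ) : ∃ N₀ : ℕ, ∀ N : ℕ, N₀ ≤ N → ∀ q : ℕ, 1 ≤ q →
    (q : ℝ) ≤ (N : ℝ) ^ (2 / 3 - ρ) → Wq q * (3 * Real.sqrt N + q) * Real.log N ^ j ≤ N := by
  obtain ⟨σ, hσd⟩ : ∃ σ : ℝ, σ = min (ρ / 4) (1 / 24) := ⟨_, rfl⟩
  have hσ : 0 < σ := by rw [hσd]; exact lt_min (by linarith) (by norm_num)
  have hσ1 : σ ≤ ρ / 4 := by rw [hσd]; exact min_le_left _ _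
  have hσ2 : σ ≤ 1 / 24 := by rw [hσd]; exact min_le_right _ _
  obtain ⟨C, hC0, hC⟩ := Pool.Agent.Helper112.divisor_bound σ hσ
  obtain ⟨n1, hn1⟩ := Pool.Agent.Y883.T3.ev_log_rpow (j + 1) (16 * C) σ hσ
  obtain ⟨n2, hn2⟩ := Pool.Agent.TH935.LD.ev_L' 1
  refine ⟨n1 + n2 + 1, fun N hN q hq1 hq => ?_⟩
  have hlog := hn1 N (by omega)
  have hL1 := hn2 N (by omega)
  have hN1 : 1 ≤ N := by omega
  have hNr : (1 : ℝ) ≤ N := by exact_mod_cast hN1
  have hN0 : (0 : ℝ) < N := by linarith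
  have hq0 : (0 : ℝ) < q := by exact_mod_cast hq1
  have hqN : (q : ℝ) ≤ N := by
    refine hq.trans ?_
    calc (N : ℝ) ^ (2 / 3 - ρ) ≤ (N : ℝ) ^ (1 : ℝ) := Real.rpow_le_rpow_of_exponent_le hNr (by linarith)
      _ = N := Real.rpow_one _
  have hτ : (q.divisors.card : ℝ) ≤ C * (N : ℝ) ^ σ := by
    refine (hC q hq1).trans (mul_le_mul_of_nonneg_left ?_ hC0.le)
    exact Real.rpow_le_rpow hq0.le hqN hσ.le
  have hs : Real.sqrt q ≤ (N : ℝ) ^ (1 / 3 - ρ / 2) := by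
    rw [Real.sqrt_le_left (by positivity), ← Real.rpow_natCast, ← Real.rpow_mul hN0.le]
    refine hq.trans (le_of_eq ?_)
    congr 1
    push_cast
    ring
  have hlq : 1 + Real.log q ≤ 2 * Real.log N := by
    have : Real.log q ≤ Real.log N := Real.log_le_log hq0 hqN
    linarith
  have hlq0 : 0 ≤ Real.log q := Real.log_natCast_nonneg q
  have e1 : (N : ℝ) ^ (1 / 3 - ρ / 2) * Real.sqrt N ≤ (N : ℝ) ^ (1 - 2 * σ) := by
    rw [Real.sqrt_eq_rpow, ← Real.rpow_add hN0]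
    exact Real.rpow_le_rpow_of_exponent_le hNr (by linarith)
  have e2 : (N : ℝ) ^ (1 / 3 - ρ / 2) * q ≤ (N : ℝ) ^ (1 - 2 * σ) := by
    refine (mul_le_mul_of_nonneg_left hq (by positivity)).trans ?_
    rw [← Real.rpow_add hN0]
    exact Real.rpow_le_rpow_of_exponent_le hNr (by linarith)
  have e3 : Real.sqrt q * (3 * Real.sqrt N + q) ≤ 4 * (N : ℝ) ^ (1 - 2 * σ) := by
    calc Real.sqrt q * (3 * Real.sqrt N + q) ≤ (N : ℝ) ^ (1 / 3 - ρ / 2) * (3 * Real.sqrt N + q) :=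
          mul_le_mul_of_nonneg_right hs (by positivity)
      _ = 3 * ((N : ℝ) ^ (1 / 3 - ρ / 2) * Real.sqrt N) + (N : ℝ) ^ (1 / 3 - ρ / 2) * q := by ring
      _ ≤ _ := by linarith
  have hL0 : 0 < Real.log N := by linarith
  unfold Wq
  calc (q.divisors.card : ℝ) * (2 * Real.sqrt q * (1 + Real.log q)) * (3 * Real.sqrt N + q) * Real.log N ^ j
      = (q.divisors.card : ℝ) * (2 * (1 + Real.log q)) * (Real.sqrt q * (3 * Real.sqrt N + q)) * Real.log N ^ j := by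
        ring
    _ ≤ (C * (N : ℝ) ^ σ) * (2 * (2 * Real.log N)) * (4 * (N : ℝ) ^ (1 - 2 * σ)) * Real.log N ^ j := by
        gcongr
    _ = (16 * C * Real.log N ^ (j + 1)) * ((N : ℝ) ^ σ * (N : ℝ) ^ (1 - 2 * σ)) := by ring
    _ ≤ (N : ℝ) ^ σ * ((N : ℝ) ^ σ * (N : ℝ) ^ (1 - 2 * σ)) := mul_le_mul_of_nonneg_right hlog (by positivity)
    _ = N := by
        rw [← Real.rpow_add hN0, ← Real.rpow_add hN0]
        conv_rhs => rw [← Real.rpow_one (N : ℝ)]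
        congr 1
        ring

end Pool.Agent.H7.BK
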